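import Pool.Agent.H757_X15.MT.Asm15

/-!
The coefficients of the form of level 15 and of the curve.
-/

set_option autoImplicit false

open UpperHalfPlane MatrixGroups CongruenceSubgroup Filter Topology MeasureTheory
open scoped ModularForm Pointwise

namespace Pool.Agent.H757_X15

open Pool.Agent.W97.TW
open Pool.Agent.W97.MT (ap affCount qq S_QEXP norm_qq_lt prim hqe hinj hsup hode hhint Rep Tr)

/-- an integer multiple of a point of order four -/
lemma four_dvd (L : PeriodPair) (x : ℂ) (h2 : 2 * x ∉ L.lattice)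
    (h4 : 4 * x ∈ L.lattice) (n : ℤ) (hn : (n : ℂ) * x ∈ L.lattice) : (4 : ℤ) ∣ n := by
  have key : ∀ m k : ℤ, (m : ℂ) * x ∈ L.lattice → ((k * m : ℤ) : ℂ) * x ∈ L.lattice := by
    intro m k hm
    have := L.lattice.smul_mem k hm
    rw [zsmul_eq_mul] at this
    push_cast
    rwa [mul_assoc]
  have h4' : ((4 : ℤ) : ℂ) * x ∈ L.lattice := by exact_mod_cast h4
  have hr : ((n % 4 : ℤ) : ℂ) * x ∈ L.lattice := by
    have h1 := sub_mem hn (key 4 (n / 4) h4')
    have h2 : ((n % 4 : ℤ) : ℂ) * x = (n : ℂ) * x - ((n / 4 * 4 : ℤ) : ℂ) * x := by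
      have : (n % 4 : ℤ) = n - n / 4 * 4 := by omega
      rw [this]; push_cast; ring
    rw [h2]; exact h1
  have hn2 : ¬ ((2 : ℤ) : ℂ) * x ∈ L.lattice := by exact_mod_cast h2
  have hcases : n % 4 = 0 ∨ n % 4 = 1 ∨ n % 4 = 2 ∨ n % 4 = 3 := by omega
  rcases hcases with h | h | h | h
  · omega
  · rw [h] at hr; exact absurd (key 1 2 hr) hn2
  · rw [h] at hr; exact absurd hr hn2
  · rw [h] at hr
    have h7 := sub_mem (key 4 2 h4') (key 3 2 hr)
    refine absurd ?_ hn2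
    convert h7 using 1
    push_cast; ring

lemma ff_ne_zero : ∃ z : ℍ, form15 z ≠ 0 := ⟨UpperHalfPlane.I, ff_ne UpperHalfPlane.I.im_pos⟩

lemma int_rat (L : PeriodPair) (g2 : L.g₂ = 481 / 12) (g3 : L.g₃ = 4879 / 216) (r : ℚ) :
    IntegrableOn (fun t : ℝ => form15 (ofComplex ((r : ℂ) + t * Complex.I))) (Set.Ioi 0) :=
  ((t_INTEG L g2 g3).2.2.1 r).congr_fun
    (line_eq _ (by simp)).symm measurableSet_Ioi

/-- the coefficients of the form and of the curve -/
theorem coef_eq (L : PeriodPair) (g2 : L.g₂ = 481 / 12) (g3 : L.g₃ = 4879 / 216)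
    {P Ξ U : PowerSeries ℤ} (rΞ : Rep xi Ξ) (rU : Rep ups U) (rP : Rep phi P)
    (tΞ : Tr Ξ lxi) (tU : Tr U lups) (tP : Tr P lphi) {l : ℕ} (hl : l.Prime) :
    PowerSeries.coeff (l - 1) P = ap E15 l := by
  obtain ⟨-, -, -, -, m2, m3, m5, -, mb⟩ := t_MIN
  have hP0 : PowerSeries.coeff 0 P = 1 := by
    rw [tP 0 (by norm_num)]; rfl
  by_cases l2 : l = 2
  · subst l2
    rw [tP 1 (by norm_num)]
    unfold ap; rw [m2]; rfl
  by_cases l3 : l = 3
  · subst l3
    rw [tP 2 (by norm_num)]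
    unfold ap; rw [m3]; rfl
  by_cases l5 : l = 5
  · subst l5
    rw [tP 4 (by norm_num)]
    unfold ap; rw [m5]; rfl
  have h5 : 5 ≤ l := by
    have := hl.two_le
    by_contra h
    have : l = 4 := by omega
    rw [this] at hl
    norm_num at hl
  set A : ℤ := PowerSeries.coeff (l - 1) P with hA
  obtain ⟨i2, i4, -, i7⟩ := t_INTEG L g2 g3
  have hH : ∀ z : ℍ, W97.MT.hecke 15 l form15 z = (A : ℂ) * form15 z := fun z =>
    hecke_f15 hcp hqe rP hP0 hl z
  -- the bound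
  have hb : |A| ≤ l + 1 := by
    have h1 := hsup 15 form15 ff_ne_zero l hl A hH
    rw [Complex.norm_intCast] at h1
    exact_mod_cast h1
  -- modulo l
  have hmod : (l : ℤ) ∣ A - ap E15 l := by
    have h1 := coeff_mod hcp hqe t_HASSE rΞ rU rP tΞ tU hl l2
    have h2 := (ZMod.intCast_eq_intCast_iff_dvd_sub _ _ _).1 h1
    have h3 := (dvd_neg (α := ℤ)).2 h2
    rwa [neg_sub] at h3
  -- modulo 4
  have hl15 : ¬ l ∣ 15 := by
    intro h
    have h1 : l ∣ 3 * 5 := by simpa using h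
    rcases (Nat.Prime.dvd_mul hl).1 h1 with h2 | h2
    · exact l3 ((Nat.prime_dvd_prime_iff_eq hl Nat.prime_three).1 h2)
    · exact l5 ((Nat.prime_dvd_prime_iff_eq hl (by norm_num)).1 h2)
  have h4A : (4 : ℤ) ∣ l + 1 - A := by
    apply four_dvd L (II 0) i2 (i4 0)
    have h1 := hhint 15 l form15 A hl (int_rat L g2 g3) hH 0
    rw [if_neg hl15, prim_rat, prim_rat, mul_zero] at h1
    have h2 : ∀ b ∈ Finset.range l, prim form15 (((0 + b) / l : ℚ) : ℂ) - II 0 ∈ L.lattice := by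
      intro b _
      rw [prim_rat]
      have hden : (((((0 : ℚ) + b) / l : ℚ).den : ℤ)) ∣ l := by
        have := Rat.den_dvd (b : ℤ) (l : ℤ)
        rw [zero_add]
        rwa [Rat.divInt_eq_div, Int.cast_natCast, Int.cast_natCast] at this
      have hp : ∀ m : ℕ, m.Prime → l ≠ m → ¬ ((m : ℤ)) ∣ ((((0 : ℚ) + b) / l : ℚ).den : ℤ) := by
        intro m hm hlm h
        have h3 : (m : ℤ) ∣ l := h.trans hden
        have h4 : m ∣ l := by exact_mod_cast h3
        exact hlm ((Nat.prime_dvd_prime_iff_eq hm hl).1 h4).symm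
      exact i7 _ (hp 3 Nat.prime_three l3) (hp 5 (by norm_num) l5)
    have h3 := sum_mem h2
    rw [Finset.sum_sub_distrib, Finset.sum_const, Finset.card_range, nsmul_eq_mul] at h3
    have h4 : ((l + 1 - A : ℤ) : ℂ) * II 0 =
        -((∑ b ∈ Finset.range l, prim form15 (((0 + b) / l : ℚ) : ℂ)) - (l : ℂ) * II 0) := by
      push_cast at h1 ⊢
      linear_combination (-1 : ℂ) * h1
    rw [h4]
    exact neg_mem h3
  have h4E : (4 : ℤ) ∣ l + 1 - ap E15 l := by
    have h1 : 8 ∣ affCount E15 l + 1 := t_EIGHT l hl l2 l3 l5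
    have h2 : ((8 : ℕ) : ℤ) ∣ ((affCount E15 l + 1 : ℕ) : ℤ) := Int.natCast_dvd_natCast.2 h1
    unfold ap
    push_cast at h2
    obtain ⟨k, hk⟩ := h2
    exact ⟨2 * k, by linear_combination hk⟩
  have h4 : (4 : ℤ) ∣ A - ap E15 l := by omega
  have hE : |ap E15 l| ≤ l := by
    have h1 := mb l hl
    unfold ap
    rw [abs_le]
    omega
  have hcop : IsCoprime (4 : ℤ) (l : ℤ) := by
    have h1 : Nat.Coprime 4 l := by
      rw [show 4 = 2 * 2 by norm_num]
      exact Nat.Coprime.mul_left ((Nat.coprime_primes Nat.prime_two hl).2 (Ne.symm l2))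
        ((Nat.coprime_primes Nat.prime_two hl).2 (Ne.symm l2))
    exact_mod_cast Nat.isCoprime_iff_coprime.2 h1
  obtain ⟨k, hk⟩ := hcop.mul_dvd h4 hmod
  have hA' := abs_le.1 hb
  have hE' := abs_le.1 hE
  have hk0 : k = 0 := by
    have h1 : |A - ap E15 l| < 4 * l := by
      rw [abs_lt]
      constructor <;> [linarith [hA'.1, hE'.2]; linarith [hA'.2, hE'.1]]
    rw [hk, abs_mul, abs_of_pos (by positivity : (0 : ℤ) < 4 * l)] at h1
    have h2 : |k| < 1 := by nlinarith [abs_nonneg k]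
    exact Int.abs_lt_one_iff.1 h2
  rw [hk0, mul_zero] at hk
  linarith

end Pool.Agent.H757_X15
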