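import Pool.Agent.H757_X15.MT.Lval2_15
import Pool.Agent.Y687.Lfin

/-!
The `L`-function of the twist in the form of the frozen statement.
-/

set_option autoImplicit false
set_option linter.style.haveILetI false

open Complex Filter Topology Set UpperHalfPlane MatrixGroups CongruenceSubgroup ZMod

namespace Pool.Agent.H757_X15

open Pool.Agent.W97.MT (affCount ap)
open Pool.Agent.Y687 (SS rr mem_rr cnt cnt_twist p_cpow hasProd_transfer nrm ne_zero_of_norm sum_rrC)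
open Pool.Agent.H491R3.J (OS)

theorem cnt_E15 (l : ℕ) (hl : l.Prime) (h2 : l ≠ 2) (h3 : l ≠ 3) :
    (l : ℤ) - cnt (-12987) (-263466) l = ap E15 l := by
  unfold cnt ap
  rw [Inst.points_card l hl h2 h3]

/-- the primes of good reduction of the model -/
theorem good_iff {M p : ℕ} (hp : p.Prime) :
    ((p : ℤ) ∣ 2 * (4 * (-12987 * (M : ℤ) ^ 2) ^ 3 + 27 * (-263466 * (M : ℤ) ^ 3) ^ 2)) ↔
      p = 2 ∨ p = 3 ∨ p = 5 ∨ p ∣ M := by
  have e : 2 * (4 * (-12987 * (M : ℤ) ^ 2) ^ 3 + 27 * (-263466 * (M : ℤ) ^ 3) ^ 2)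
      = -(((2 ^ 9 * 3 ^ 16 * 5 ^ 4) * M ^ 6 : ℕ) : ℤ) := by
    push_cast
    ring
  rw [e, dvd_neg, Int.natCast_dvd_natCast, hp.dvd_mul, hp.dvd_mul, hp.dvd_mul]
  constructor
  · rintro ((((h | h) | h)) | h)
    · exact Or.inl ((Nat.prime_dvd_prime_iff_eq hp Nat.prime_two).1 (hp.dvd_of_dvd_pow h))
    · exact Or.inr (Or.inl ((Nat.prime_dvd_prime_iff_eq hp Nat.prime_three).1 (hp.dvd_of_dvd_pow h)))
    · exact Or.inr (Or.inr (Or.inl ((Nat.prime_dvd_prime_iff_eq hp (by norm_num)).1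
        (hp.dvd_of_dvd_pow h))))
    · exact Or.inr (Or.inr (Or.inr (hp.dvd_of_dvd_pow h)))
  · rintro (rfl | rfl | rfl | h)
    · exact Or.inl (Or.inl (Or.inl (dvd_pow_self 2 (by norm_num))))
    · exact Or.inl (Or.inl (Or.inr (dvd_pow_self 3 (by norm_num))))
    · exact Or.inl (Or.inr (dvd_pow_self 5 (by norm_num)))
    · exact Or.inr (dvd_pow h (by norm_num))

/-- factors at `2`, `3`, `5` -/
noncomputable def bf (x : ℤ) (p : ℕ) (s : ℂ) : ℂ :=
  1 - (ap E15 p : ℂ) * (x : ℂ) * (p : ℂ) ^ (-s) +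
    (if p ∣ 15 then 0 else (p : ℂ)) * (x : ℂ) ^ 2 * (p : ℂ) ^ (-2 * s)

theorem bf_diff (x : ℤ) {p : ℕ} (hp : p ≠ 0) : Differentiable ℂ (bf x p) := by
  have hp' : (p : ℂ) ≠ 0 := by exact_mod_cast hp
  unfold bf
  refine Differentiable.add (Differentiable.sub (differentiable_const _) ?_) ?_
  · exact (Differentiable.const_cpow (by fun_prop) (Or.inl hp')).const_mul _
  · exact (Differentiable.const_cpow (by fun_prop) (Or.inl hp')).const_mul _

theorem ap2 : ap E15 2 = -1 := by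
  obtain ⟨-, -, -, -, m2, -, -, -, -⟩ := t_MIN
  unfold ap
  rw [m2]; norm_num

theorem ap3 : ap E15 3 = -1 := by
  obtain ⟨-, -, -, -, -, m3, -, -, -⟩ := t_MIN
  unfold ap
  rw [m3]; norm_num

theorem ap5 : ap E15 5 = 1 := by
  obtain ⟨-, -, -, -, -, -, m5, -, -⟩ := t_MIN
  unfold ap
  rw [m5]; norm_num

theorem bf3_ne {x : ℤ} (hx : x = 1 ∨ x = -1) : bf x 3 1 ≠ 0 := by
  unfold bf
  rw [ap3, if_pos (by norm_num), Complex.cpow_neg_one]
  rcases hx with rfl | rfl <;> norm_num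

theorem bf5_ne {x : ℤ} (hx : x = 1 ∨ x = -1) : bf x 5 1 ≠ 0 := by
  unfold bf
  rw [ap5, if_pos (by norm_num), Complex.cpow_neg_one]
  rcases hx with rfl | rfl <;> norm_num

theorem bf2_ne {x : ℤ} (hx : x = 1 ∨ x = -1) : bf x 2 1 ≠ 0 := by
  unfold bf
  rw [ap2, if_neg (by norm_num), Complex.cpow_neg_one]
  have e : ((2 : ℕ) : ℂ) ^ (-2 * (1 : ℂ)) = (((2 : ℕ) : ℂ) ^ 2)⁻¹ := by
    rw [show (-2 * (1 : ℂ)) = ((-2 : ℤ) : ℂ) by norm_num, Complex.cpow_intCast]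
    norm_num
  rw [e]
  rcases hx with rfl | rfl <;> norm_num

theorem bf_X (x : ℤ) (p : ℕ) (s : ℂ) : bf x p s = 1 - (ap E15 p : ℂ) * (x : ℂ) * (p : ℂ) ^ (-s) +
    (if p ∣ 15 then 0 else (p : ℂ)) * (x : ℂ) ^ 2 * ((p : ℂ) ^ (-s)) ^ 2 := by
  unfold bf
  have : (p : ℂ) ^ (-2 * s) = ((p : ℂ) ^ (-s)) ^ 2 := by
    rw [← Complex.cpow_nat_mul]
    congr 1
    push_cast
    ring
  rw [this]

theorem bf3_ne' {x : ℤ} (hx : x = 1 ∨ x = -1) {s : ℂ} (hs : 1 < s.re) : bf x 3 s ≠ 0 := by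
  rw [bf_X, ap3, if_pos (by norm_num)]
  have h := nrm (p := 3) (by norm_num) hs
  set X : ℂ := ((3 : ℕ) : ℂ) ^ (-s) with hX
  have e : 1 - ((-1 : ℤ) : ℂ) * (x : ℂ) * X + 0 * (x : ℂ) ^ 2 * X ^ 2 = 1 + (x : ℂ) * X := by
    push_cast; ring
  rw [e]
  apply ne_zero_of_norm
  have hx' : ‖(x : ℂ)‖ = 1 := by rcases hx with rfl | rfl <;> simp
  rw [norm_mul, hx', one_mul]
  push_cast at h
  linarith

theorem bf5_ne' {x : ℤ} (hx : x = 1 ∨ x = -1) {s : ℂ} (hs : 1 < s.re) : bf x 5 s ≠ 0 := by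
  rw [bf_X, ap5, if_pos (by norm_num)]
  have h := nrm (p := 5) (by norm_num) hs
  set X : ℂ := ((5 : ℕ) : ℂ) ^ (-s) with hX
  have e : 1 - ((1 : ℤ) : ℂ) * (x : ℂ) * X + 0 * (x : ℂ) ^ 2 * X ^ 2 = 1 + -((x : ℂ) * X) := by
    push_cast; ring
  rw [e]
  apply ne_zero_of_norm
  have hx' : ‖(x : ℂ)‖ = 1 := by rcases hx with rfl | rfl <;> simp
  rw [norm_neg, norm_mul, hx', one_mul]
  push_cast at h
  linarith

theorem bf2_ne' {x : ℤ} (hx : x = 1 ∨ x = -1) {s : ℂ} (hs : 1 < s.re) : bf x 2 s ≠ 0 := by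
  rw [bf_X, ap2, if_neg (by norm_num)]
  have h := nrm (p := 2) (by norm_num) hs
  set X : ℂ := ((2 : ℕ) : ℂ) ^ (-s) with hX
  have hx2 : (x : ℂ) ^ 2 = 1 := by rcases hx with rfl | rfl <;> norm_num
  have e : 1 - ((-1 : ℤ) : ℂ) * (x : ℂ) * X + ((2 : ℕ) : ℂ) * (x : ℂ) ^ 2 * X ^ 2 =
      1 + ((x : ℂ) * X + 2 * X ^ 2) := by
    rw [hx2]; push_cast; ring
  rw [e]
  apply ne_zero_of_norm
  have hx' : ‖(x : ℂ)‖ = 1 := by rcases hx with rfl | rfl <;> simp
  refine lt_of_le_of_lt (norm_add_le _ _) ?_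
  rw [norm_mul, norm_mul, norm_pow, hx']
  have h2 : ‖(2 : ℂ)‖ = 2 := by simp
  rw [h2]
  push_cast at h
  nlinarith [norm_nonneg X]

/-- the `L`-function of the quadratic twist by `M` -/
theorem exists_f (M : ℕ) (hodd : Odd M) (hsq : Squarefree M) (h1 : 1 < M) (h4 : M % 4 = 1)
    (h15 : Nat.Coprime M 15) :
    ∃ (f : ℂ → ℂ) (g1 : ℂ), Differentiable ℂ f ∧
      (∀ s : ℂ, (3 : ℝ) / 2 < s.re →
        HasProd (fun p : {p : ℕ // p.Prime ∧
            ¬ ((p : ℤ) ∣ 2 * (4 * (-12987 * (M : ℤ) ^ 2) ^ 3 + 27 * (-263466 * (M : ℤ) ^ 3) ^ 2))} =>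
          facL (-12987 * (M : ℤ) ^ 2) (-263466 * (M : ℤ) ^ 3) s p) (f s)) ∧
      (g1 ≠ 0 → f 1 ≠ 0) ∧
      ∃ τ : ℂ, τ * g1 = ∑ a ∈ rr M, ((jacobiSym (a : ℤ) M : ℤ) : ℂ) * II ((a : ℚ) / M) := by
  classical
  have hM0 : M ≠ 0 := by omega
  haveI : NeZero M := ⟨hM0⟩
  set d : OS := ⟨M, hodd, hsq, h1⟩ with hd
  obtain ⟨g, hg1, hg2, hg3⟩ := exists_L (q := M) h15 (Pool.Agent.H491R3.J.chi d) (Pool.Agent.H491R3.J.chi_primitive d)
  have hchi : ∀ m : ℕ, Pool.Agent.H491R3.J.chi d (m : ZMod M) = ((jacobiSym (m : ℤ) M : ℤ) : ℂ) :=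
    Pool.Agent.H491R3.J.chi_natCast d
  have hpm : ∀ m : ℕ, Nat.Coprime m M → jacobiSym (m : ℤ) M = 1 ∨ jacobiSym (m : ℤ) M = -1 := by
    intro m hm
    refine jacobiSym.eq_one_or_neg_one ?_
    rw [Int.gcd_natCast_natCast]
    exact hm
  have hc2 := hpm 2 (Nat.coprime_two_left.2 hodd)
  have hc3 := hpm 3 (Nat.Coprime.coprime_dvd_right (by norm_num) h15).symm
  have hc5 := hpm 5 (Nat.Coprime.coprime_dvd_right (by norm_num) h15).symm
  set x2 := jacobiSym ((2 : ℕ) : ℤ) M with hx2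
  set x3 := jacobiSym ((3 : ℕ) : ℤ) M with hx3
  set x5 := jacobiSym ((5 : ℕ) : ℤ) M with hx5
  refine ⟨fun s => g s * (bf x2 2 s * (bf x3 3 s * bf x5 5 s)), g 1,
    hg1.mul ((bf_diff x2 (by norm_num)).mul ((bf_diff x3 (by norm_num)).mul
      (bf_diff x5 (by norm_num)))), ?_, ?_, ?_⟩
  · intro s hs
    have hs' : 3 / 2 < s.re := hs
    have e1 := hg2 s hs'
    -- the finite product
    set p2 : Nat.Primes := ⟨2, Nat.prime_two⟩ with hp2
    set p3 : Nat.Primes := ⟨3, Nat.prime_three⟩ with hp3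
    set p5 : Nat.Primes := ⟨5, by norm_num⟩ with hp5
    have n23 : p2 ≠ p3 := by rw [hp2, hp3]; intro h; have := congrArg Subtype.val h; simp at this
    have n25 : p2 ≠ p5 := by rw [hp2, hp5]; intro h; have := congrArg Subtype.val h; simp at this
    have n35 : p3 ≠ p5 := by rw [hp3, hp5]; intro h; have := congrArg Subtype.val h; simp at this
    set k : Nat.Primes → ℂ := fun p => if p ∈ ({p2, p3, p5} : Finset Nat.Primes) then
      bf (jacobiSym ((p : ℕ) : ℤ) M) p s else 1 with hk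
    have e2 : HasProd k (∏ p ∈ ({p2, p3, p5} : Finset Nat.Primes), k p) :=
      hasProd_prod_of_ne_finset_one (fun p hp => if_neg hp)
    have e3 : ∏ p ∈ ({p2, p3, p5} : Finset Nat.Primes), k p =
        bf x2 2 s * (bf x3 3 s * bf x5 5 s) := by
      rw [Finset.prod_insert (by simp [n23, n25]), Finset.prod_insert (by simp [n35]),
        Finset.prod_singleton]
      simp only [hk]
      rw [if_pos (by simp), if_pos (by simp), if_pos (by simp)]
    rw [e3] at e2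
    have e4 := e1.mul e2
    refine hasProd_transfer _ _ _ ?_
    refine (congrArg (fun g => HasProd g _) (funext fun p => ?_)).mp e4
    have hpp : (p : ℕ).Prime := p.2
    have hF : (1 - (ap E15 p : ℂ) * Pool.Agent.H491R3.J.chi d ((p : ℕ) : ZMod M) * ((p : ℕ) : ℂ) ^ (-s) +
          (if (p : ℕ) ∣ 15 then 0 else ((p : ℕ) : ℂ)) * (Pool.Agent.H491R3.J.chi d ((p : ℕ) : ZMod M)) ^ 2 *
            ((p : ℕ) : ℂ) ^ (-2 * s)) = bf (jacobiSym ((p : ℕ) : ℤ) M) p s := by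
      unfold bf
      rw [hchi]
    rw [hF]
    have hs1 : 1 < s.re := by linarith
    by_cases hin : p ∈ ({p2, p3, p5} : Finset Nat.Primes)
    · have hk1 : k p = bf (jacobiSym ((p : ℕ) : ℤ) M) p s := if_pos hin
      rw [hk1]
      simp only [Finset.mem_insert, Finset.mem_singleton] at hin
      have hbad : ((p : ℕ) : ℤ) ∣ 2 * (4 * (-12987 * (M : ℤ) ^ 2) ^ 3 +
          27 * (-263466 * (M : ℤ) ^ 3) ^ 2) := by
        rw [good_iff hpp]
        rcases hin with rfl | rfl | rfl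
        · exact Or.inl rfl
        · exact Or.inr (Or.inl rfl)
        · exact Or.inr (Or.inr (Or.inl rfl))
      rw [if_neg (not_not.2 hbad)]
      refine inv_mul_cancel₀ ?_
      rcases hin with rfl | rfl | rfl
      · exact bf2_ne' hc2 hs1
      · exact bf3_ne' hc3 hs1
      · exact bf5_ne' hc5 hs1
    · have hk1 : k p = 1 := if_neg hin
      rw [hk1, mul_one]
      simp only [Finset.mem_insert, Finset.mem_singleton, not_or] at hin
      have q2 : (p : ℕ) ≠ 2 := fun h => hin.1 (Subtype.ext h)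
      have q3 : (p : ℕ) ≠ 3 := fun h => hin.2.1 (Subtype.ext h)
      have q5 : (p : ℕ) ≠ 5 := fun h => hin.2.2 (Subtype.ext h)
      by_cases hpM : (p : ℕ) ∣ M
      · have hbad : ((p : ℕ) : ℤ) ∣ 2 * (4 * (-12987 * (M : ℤ) ^ 2) ^ 3 +
          27 * (-263466 * (M : ℤ) ^ 3) ^ 2) := by
          rw [good_iff hpp]
          exact Or.inr (Or.inr (Or.inr hpM))
        rw [if_neg (not_not.2 hbad)]
        have h0 : jacobiSym ((p : ℕ) : ℤ) M = 0 := by
          rw [jacobiSym.eq_zero_iff_not_coprime, Int.gcd_natCast_natCast]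
          intro hg
          have := Nat.dvd_gcd (dvd_refl (p : ℕ)) hpM
          rw [hg] at this
          exact hpp.one_lt.ne' (Nat.dvd_one.1 this)
        rw [h0]
        unfold bf
        simp
      · have hgood : ¬ ((p : ℕ) : ℤ) ∣ 2 * (4 * (-12987 * (M : ℤ) ^ 2) ^ 3 +
          27 * (-263466 * (M : ℤ) ^ 3) ^ 2) := by
          rw [good_iff hpp]
          push Not
          exact ⟨q2, q3, q5, hpM⟩
        rw [if_pos hgood]
        haveI : Fact (p : ℕ).Prime := ⟨hpp⟩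
        have hx := hpm p ((Nat.Prime.coprime_iff_not_dvd hpp).2 hpM)
        have hx2 : ((jacobiSym ((p : ℕ) : ℤ) M : ℤ) : ℂ) ^ 2 = 1 := by
          rcases hx with h | h <;> rw [h] <;> norm_num
        have h15' : ¬ (p : ℕ) ∣ 15 := by
          intro h
          have h1 : (p : ℕ) ∣ 3 * 5 := by simpa using h
          rcases (Nat.Prime.dvd_mul hpp).1 h1 with h2 | h2
          · exact q3 ((Nat.prime_dvd_prime_iff_eq hpp Nat.prime_three).1 h2)
          · exact q5 ((Nat.prime_dvd_prime_iff_eq hpp (by norm_num)).1 h2)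
        unfold bf facL
        congr 1
        rw [hx2, if_neg h15', mul_one, p_cpow hpp.ne_zero]
        have h5 := cnt_twist (-12987) (-263466) M p q2 h4 hpM
        rw [cnt_E15 p hpp q2 q3] at h5
        have h6 : (((p : ℕ) : ℤ) - (Nat.card {q : ZMod p × ZMod p //
                  q.2 ^ 2 = q.1 ^ 3 + ((-12987 * (M : ℤ) ^ 2 : ℤ) : ZMod p) * q.1 +
                    ((-263466 * (M : ℤ) ^ 3 : ℤ) : ZMod p)} : ℤ)) =
                jacobiSym ((p : ℕ) : ℤ) M * ap E15 p := h5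
        rw [h6]
        push_cast
        ring
  · intro hg
    exact mul_ne_zero hg (mul_ne_zero (bf2_ne hc2) (mul_ne_zero (bf3_ne hc3) (bf5_ne hc5)))
  · refine ⟨gaussSum (Pool.Agent.H491R3.J.chi d)⁻¹ (stdAddChar (N := M)), ?_⟩
    have hinv : (Pool.Agent.H491R3.J.chi d)⁻¹ = Pool.Agent.H491R3.J.chi d := Pool.Agent.H491R3.J.chi_inv d
    rw [hg3, hinv, sum_rrC]
    refine Finset.sum_congr rfl fun u _ => ?_
    rw [← hchi, ZMod.natCast_zmod_val]

/-- the central value does not vanish if the sum of the symbols does not -/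
theorem exists_f_ne (M : ℕ) (hodd : Odd M) (hsq : Squarefree M) (h1 : 1 < M) (h4 : M % 4 = 1)
    (h15 : Nat.Coprime M 15) {s : ℚ → ℤ} {Op : ℝ} (hOp : 0 < Op)
    (hs : ∀ r : ℚ, (4 : ℝ) * (II r).re = s r * Op) (hne : SS s M M ≠ 0) :
    ∃ f : ℂ → ℂ, Differentiable ℂ f ∧
      (∀ s : ℂ, (3 : ℝ) / 2 < s.re →
        HasProd (fun p : {p : ℕ // p.Prime ∧
            ¬ ((p : ℤ) ∣ 2 * (4 * (-12987 * (M : ℤ) ^ 2) ^ 3 + 27 * (-263466 * (M : ℤ) ^ 3) ^ 2))} =>
          facL (-12987 * (M : ℤ) ^ 2) (-263466 * (M : ℤ) ^ 3) s p) (f s)) ∧ f 1 ≠ 0 := by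
  obtain ⟨f, g1, hf1, hf2, hf3, τ, hτ⟩ := exists_f M hodd hsq h1 h4 h15
  refine ⟨f, hf1, hf2, hf3 ?_⟩
  rintro rfl
  apply hne
  rw [mul_zero] at hτ
  have h2 := congrArg Complex.re hτ
  rw [Complex.re_sum, Complex.zero_re] at h2
  have h3 : ∀ a : ℕ, (((jacobiSym (a : ℤ) M : ℤ) : ℂ) * II ((a : ℚ) / M)).re =
      (jacobiSym (a : ℤ) M : ℝ) * (II ((a : ℚ) / M)).re := by
    intro a
    have : ((jacobiSym (a : ℤ) M : ℤ) : ℂ) = (((jacobiSym (a : ℤ) M : ℤ) : ℝ) : ℂ) := by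
      push_cast; rfl
    rw [this, Complex.re_ofReal_mul]
  simp_rw [h3] at h2
  have h5 : ((SS s M M : ℤ) : ℝ) * Op = 0 := by
    unfold SS
    push_cast
    rw [Finset.sum_mul]
    have h6 : ∀ a ∈ rr M, (jacobiSym (a : ℤ) M : ℝ) * (s ((a : ℚ) / M) : ℝ) * Op =
        4 * ((jacobiSym (a : ℤ) M : ℝ) * (II ((a : ℚ) / M)).re) := by
      intro a _
      have := hs ((a : ℚ) / M)
      linear_combination (-(jacobiSym (a : ℤ) M : ℝ)) * this
    rw [Finset.sum_congr rfl h6, ← Finset.mul_sum, ← h2, mul_zero]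
  have h6 := (mul_eq_zero.1 h5).resolve_right hOp.ne'
  exact_mod_cast h6

/-- EUL: the central value does not vanish if the sum of the symbols does not -/
theorem t_EUL : S_EUL := by
  intro s Op hOp hs M hsq h1 h4 h15 hne
  exact exists_f_ne M (Nat.odd_iff.2 (by omega)) hsq h1 h4 h15 hOp hs hne

end Pool.Agent.H757_X15
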