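import Pool.Agent.H757_X15.StmA

/-!
# The minimal equation of the twists of `X_0(15)` (part MOD)
-/

set_option autoImplicit false

namespace Pool.Agent.H757_X15

open Pool.Agent.W97.MT (IsGloballyMinimal)
open WeierstrassCurve

/-- A discriminant which is not divisible by a twelfth power is minimal
(the same as `Pool.Agent.Y695.min_of`). -/
theorem min_of {W : WeierstrassCurve ℤ} {D : ℕ} (hD0 : D ≠ 0) (hD : |W.Δ| = D)
    (h12 : ∀ d : ℕ, d ^ 12 ∣ D → d = 1) : IsGloballyMinimal W := by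
  have hne : W.Δ ≠ 0 := by
    intro h
    rw [h, abs_zero] at hD
    exact hD0 (by exact_mod_cast hD.symm)
  refine ⟨hne, ?_⟩
  intro W' C h
  have h1 := congrArg WeierstrassCurve.Δ h
  rw [WeierstrassCurve.variableChange_Δ, WeierstrassCurve.map_Δ, WeierstrassCurve.map_Δ] at h1
  set r : ℚ := ((C.u⁻¹ : ℚˣ) : ℚ) with hr
  have hr0 : r ≠ 0 := Units.ne_zero _
  have h2 : r ^ 12 * (W.Δ : ℚ) = (W'.Δ : ℚ) := h1
  have h3 : (r.num : ℚ) ^ 12 * (W.Δ : ℚ) = (W'.Δ : ℚ) * (r.den : ℚ) ^ 12 := by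
    have h5 : (r.num : ℚ) = r * r.den := by
      rw [eq_comm, Rat.mul_den_eq_num]
    rw [h5, ← h2]; ring
  have h3' : r.num ^ 12 * W.Δ = W'.Δ * (r.den : ℤ) ^ 12 := by exact_mod_cast h3
  have hcop : IsCoprime ((r.den : ℤ) ^ 12) (r.num ^ 12) := by
    apply IsCoprime.pow
    rw [Int.isCoprime_iff_gcd_eq_one, Int.gcd_comm]
    have := r.reduced
    rwa [Int.gcd, Int.natAbs_natCast]
  have hdvd : ((r.den : ℤ) ^ 12) ∣ W.Δ := by
    apply hcop.dvd_of_dvd_mul_left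
    rw [h3']
    exact Dvd.intro_left _ rfl
  have hdvd' : r.den ^ 12 ∣ D := by
    have h6 : ((r.den : ℤ) ^ 12) ∣ (D : ℤ) := by
      rw [← hD]
      exact (dvd_abs _ _).2 hdvd
    have : ((r.den ^ 12 : ℕ) : ℤ) ∣ (D : ℤ) := by
      push_cast
      exact h6
    exact Int.natCast_dvd_natCast.1 this
  have hden : r.den = 1 := h12 _ hdvd'
  rw [hden] at h3'
  have h8 : W'.Δ = r.num ^ 12 * W.Δ := by rw [h3']; simp
  rw [h8, abs_mul, abs_pow]
  have hn : 1 ≤ |r.num| := Int.one_le_abs (Rat.num_ne_zero.2 hr0)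
  have h9 : (1 : ℤ) ≤ |r.num| ^ 12 := one_le_pow₀ hn
  have h10 := abs_nonneg W.Δ
  nlinarith

/-- the coefficients of the twist in terms of `k`, `M = 4 k + 1` -/
theorem WD_coef (k : ℤ) : WD (4 * k + 1) =
    ⟨1, 5 * k + 1, 1, -(152 * k ^ 2 + 76 * k + 10), -(624 * k ^ 3 + 468 * k ^ 2 + 117 * k + 10)⟩ := by
  have h1 : (5 * (4 * k + 1) - 1) / 4 = 5 * k + 1 := by omega
  have h2 : (19 * (4 * k + 1) ^ 2 + 1) / 2 = 152 * k ^ 2 + 76 * k + 10 := by
    have : 19 * (4 * k + 1) ^ 2 + 1 = (152 * k ^ 2 + 76 * k + 10) * 2 := by ring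
    rw [this, Int.mul_ediv_cancel _ (by norm_num)]
  have h3 : (39 * (4 * k + 1) ^ 3 + 1) / 4 = 624 * k ^ 3 + 468 * k ^ 2 + 117 * k + 10 := by
    have : 39 * (4 * k + 1) ^ 3 + 1 = (624 * k ^ 3 + 468 * k ^ 2 + 117 * k + 10) * 4 := by ring
    rw [this, Int.mul_ediv_cancel _ (by norm_num)]
  rw [WD, h1, h2, h3]

theorem t_MOD : S_MOD := by
  intro M h4 hsq h3 h5
  obtain ⟨k, rfl⟩ : ∃ k : ℤ, M = 4 * k + 1 := ⟨M / 4, by omega⟩
  have hΔ : (WD (4 * k + 1)).Δ = 15 ^ 4 * (4 * k + 1) ^ 6 := by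
    rw [WD_coef]
    simp only [WeierstrassCurve.Δ, WeierstrassCurve.b₂, WeierstrassCurve.b₄, WeierstrassCurve.b₆,
      WeierstrassCurve.b₈]
    ring
  refine ⟨?_, hΔ, ?_⟩
  · set M : ℤ := 4 * k + 1 with hM
    have hM0 : M.natAbs ≠ 0 := Int.natAbs_ne_zero.2 hsq.ne_zero
    have hsq' : Squarefree M.natAbs := Int.squarefree_natAbs.2 hsq
    refine min_of (D := 15 ^ 4 * M.natAbs ^ 6) (mul_ne_zero (by norm_num) (pow_ne_zero 6 hM0)) ?_ ?_
    · rw [hΔ, abs_mul, abs_pow, abs_pow]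
      push_cast
      norm_num
    · intro d hd
      by_contra h1
      obtain ⟨p, hp, hpd⟩ := Nat.exists_prime_and_dvd h1
      haveI := Fact.mk hp
      have h2 : p ^ 12 ∣ 15 ^ 4 * M.natAbs ^ 6 := (pow_dvd_pow_of_dvd hpd 12).trans hd
      have h3 : 12 ≤ padicValNat p (15 ^ 4 * M.natAbs ^ 6) :=
        (padicValNat_dvd_iff_le (mul_ne_zero (by norm_num) (pow_ne_zero 6 hM0))).1 h2
      rw [padicValNat.mul (by norm_num) (pow_ne_zero 6 hM0), padicValNat.pow, padicValNat.pow] at h3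
      have h4 : padicValNat p M.natAbs ≤ 1 := by
        by_contra h5
        push Not at h5
        have h6 : p ^ 2 ∣ M.natAbs := (padicValNat_dvd_iff_le hM0).2 h5
        rw [pow_two] at h6
        exact hp.one_lt.ne' (Nat.isUnit_iff.1 (hsq' p h6))
      have h5 : padicValNat p 15 ≤ 1 := by
        by_contra h5
        push Not at h5
        have h6 : p ^ 2 ∣ 15 := (padicValNat_dvd_iff_le (by norm_num)).2 h5
        have h7 : p < 4 := by
          by_contra h8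
          push Not at h8
          have h9 := Nat.le_of_dvd (by norm_num) h6
          have h10 : 4 ^ 2 ≤ p ^ 2 := Nat.pow_le_pow_left h8 2
          norm_num at h10
          omega
        have h8 := hp.two_le
        interval_cases p <;> revert h6 <;> decide
      omega
  · refine ⟨⟨Units.mk0 (1 / 2) (by norm_num), 3 * ((4 * k + 1 : ℤ) : ℚ), -1 / 2,
      -(3 * ((4 * k + 1 : ℤ) : ℚ) + 1) / 2⟩, ?_⟩
    rw [WD_coef]
    ext <;> simp [WeierstrassCurve.variableChange_def, WeierstrassCurve.map] <;> ring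

end Pool.Agent.H757_X15
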