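import Pool.Agent.H757_X15.MT.MOD
import Pool.Agent.Y248.BSD14.Omega

/-!
# The real period of the twists of `X_0(15)` from the period lattice (part OMEGA)
-/

set_option autoImplicit false

namespace Pool.Agent.H757_X15

open Set Filter Topology PeriodPair MeasureTheory
open Pool.Agent.H285R3.Str (P_conj P'_conj)
open Pool.Agent.Y248.BSD14 (image_eq)

/-- The Weierstrass function of a lattice stable under conjugation on the real axis: it decreases
from infinity to the largest real root of the cubic. -/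
theorem per3 (L : PeriodPair) (T : ℝ) (hT : 0 < T) (h2T : ((2 * T : ℝ) : ℂ) ∈ L.lattice)
    (hnm : ∀ x : ℝ, 0 < x → x < 2 * T → (x : ℂ) ∉ L.lattice)
    (hc : ∀ l ∈ L.lattice, (starRingEnd ℂ) l ∈ L.lattice) (a b e : ℝ)
    (ha : L.g₂ = a) (hb : L.g₃ = b) (he0 : 4 * e ^ 3 - a * e - b = 0)
    (hmax : ∀ x : ℝ, 4 * x ^ 3 - a * x - b = 0 → x ≤ e) :
    ∃ p q : ℝ → ℝ, (∀ x ∈ Ioo (0 : ℝ) T, HasDerivAt p (q x) x) ∧
      (∀ x ∈ Ioo (0 : ℝ) T, q x < 0) ∧
      (∀ x ∈ Ioo (0 : ℝ) T, q x ^ 2 = 4 * p x ^ 3 - a * p x - b) ∧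
      Tendsto p (𝓝[>] 0) atTop ∧ Tendsto p (𝓝[<] T) (𝓝 e) := by
  set p : ℝ → ℝ := fun x => (L.weierstrassP x).re with hp
  set q : ℝ → ℝ := fun x => (L.derivWeierstrassP x).re with hq
  have hpx : ∀ x : ℝ, L.weierstrassP x = (p x : ℂ) := by
    intro x
    have := P_conj L hc x
    rw [Complex.conj_ofReal] at this
    exact (Complex.conj_eq_iff_re.1 this.symm).symm
  have hqx : ∀ x : ℝ, L.derivWeierstrassP x = (q x : ℂ) := by
    intro x
    have := P'_conj L hc x
    rw [Complex.conj_ofReal] at this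
    exact (Complex.conj_eq_iff_re.1 this.symm).symm
  have hopen : IsOpen (L.lattice : Set ℂ)ᶜ := L.isClosed_lattice.isOpen_compl
  have hd : ∀ x ∈ Ioo (0 : ℝ) (2 * T), HasDerivAt p (q x) x := by
    intro x hx
    have hx' : (x : ℂ) ∈ (L.lattice : Set ℂ)ᶜ := hnm x hx.1 hx.2
    have h2 : DifferentiableAt ℂ L.weierstrassP x :=
      (L.differentiableOn_weierstrassP x hx').differentiableAt (hopen.mem_nhds hx')
    have h3 := h2.hasDerivAt
    rw [L.deriv_weierstrassP] at h3
    exact h3.real_of_complex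
  have hcq : ContinuousOn q (Ioo (0 : ℝ) (2 * T)) := by
    have h2 : ContinuousOn L.derivWeierstrassP (L.lattice : Set ℂ)ᶜ :=
      L.differentiableOn_derivWeierstrassP.continuousOn
    have h3 : ContinuousOn (fun x : ℝ => L.derivWeierstrassP x) (Ioo (0 : ℝ) (2 * T)) :=
      h2.comp Complex.continuous_ofReal.continuousOn
        (fun x hx => hnm x hx.1 hx.2)
    exact Complex.continuous_re.comp_continuousOn h3
  have hode : ∀ x ∈ Ioo (0 : ℝ) (2 * T), q x ^ 2 = 4 * p x ^ 3 - a * p x - b := by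
    intro x hx
    have h2 := L.derivWeierstrassP_sq x (hnm x hx.1 hx.2)
    rw [hpx, hqx, ha, hb] at h2
    exact_mod_cast h2
  have htop : Tendsto p (𝓝[>] 0) atTop := by
    have h2 : ∀ x : ℝ, p x = (L.weierstrassPExcept 0 x).re + 1 / x ^ 2 := by
      intro x
      have h3 := L.weierstrassPExcept_add 0 x
      simp only [Submodule.coe_zero, sub_zero] at h3
      simp only [hp]
      rw [← h3]
      rw [Complex.add_re]
      congr 1
      have : (1 / (x : ℂ) ^ 2 - 1 / (0 : ℂ) ^ 2) = ((1 / x ^ 2 : ℝ) : ℂ) := by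
        push_cast; simp
      rw [this, Complex.ofReal_re]
    have h3 : ContinuousAt (fun x : ℝ => (L.weierstrassPExcept 0 x).re) 0 := by
      have h4 : ContinuousAt (L.weierstrassPExcept 0) ((0 : ℝ) : ℂ) := by
        refine ((L.differentiableOn_weierstrassPExcept 0).differentiableAt ?_).continuousAt
        exact_mod_cast L.compl_lattice_sdiff_singleton_mem_nhds 0
      exact Complex.continuous_re.continuousAt.comp
        (ContinuousAt.comp (f := fun x : ℝ => (x : ℂ)) h4 Complex.continuous_ofReal.continuousAt)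
    have h4 : Tendsto (fun x : ℝ => (L.weierstrassPExcept 0 x).re) (𝓝[>] 0)
        (𝓝 (L.weierstrassPExcept 0 ((0 : ℝ) : ℂ)).re) := h3.tendsto.mono_left nhdsWithin_le_nhds
    have h5 : Tendsto (fun x : ℝ => 1 / x ^ 2) (𝓝[>] 0) atTop := by
      have h6 : Tendsto (fun x : ℝ => (x⁻¹) ^ 2) (𝓝[>] 0) atTop :=
        (tendsto_pow_atTop two_ne_zero).comp tendsto_inv_nhdsGT_zero
      refine h6.congr fun x => ?_
      rw [one_div, inv_pow]
    have h7 := h4.add_atTop h5
    exact h7.congr fun x => (h2 x).symm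
  have hhalf : T ∈ Ioo (0 : ℝ) (2 * T) := by constructor <;> linarith
  have hq0 : q T = 0 := by
    have h2 : L.derivWeierstrassP (-((T : ℝ) : ℂ)) = - L.derivWeierstrassP ((T : ℝ) : ℂ) :=
      L.derivWeierstrassP_neg _
    have h3 : L.derivWeierstrassP (-((T : ℝ) : ℂ) + (⟨_, h2T⟩ : L.lattice)) =
        L.derivWeierstrassP (-((T : ℝ) : ℂ)) := L.derivWeierstrassP_add_coe _ _
    have h4 : -((T : ℝ) : ℂ) + ((⟨_, h2T⟩ : L.lattice) : ℂ) = ((T : ℝ) : ℂ) := by
      push_cast; ring
    rw [h4, h2, hqx] at h3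
    have h5 : q T = - q T := by exact_mod_cast h3
    linarith
  have hsub : Ioo (0 : ℝ) T ⊆ Ioo (0 : ℝ) (2 * T) := Ioo_subset_Ioo_right (by linarith)
  have hqne : ∀ x ∈ Ioo (0 : ℝ) T, q x ≠ 0 := by
    intro x hx h0
    have h1 : (2 : ℂ) * (x : ℂ) ∉ L.lattice := by
      have := hnm (2 * x) (by linarith [hx.1]) (by linarith [hx.2])
      push_cast at this
      exact this
    apply Wg.wpd_ne L x h1
    rw [hqx, h0]
    simp
  have hneg : ∀ x ∈ Ioo (0 : ℝ) T, q x < 0 := by
    by_contra hcon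
    push Not at hcon
    obtain ⟨x0, hx0, hx0'⟩ := hcon
    have hx0pos : 0 < q x0 := lt_of_le_of_ne hx0' (hqne x0 hx0).symm
    have hall : ∀ x ∈ Ioo (0 : ℝ) T, 0 < q x := by
      intro x hx
      by_contra hn
      have hn' : q x ≤ 0 := not_lt.1 hn
      obtain ⟨y, hy, hy'⟩ := isPreconnected_Ioo.intermediate_value hx hx0
        (hcq.mono hsub) (show (0 : ℝ) ∈ Icc (q x) (q x0) from ⟨hn', hx0pos.le⟩)
      exact hqne y hy hy'
    have hmono : StrictMonoOn p (Ioo (0 : ℝ) T) := by
      refine strictMonoOn_of_deriv_pos (convex_Ioo _ _) ?_ ?_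
      · intro x hx
        exact (hd x (hsub hx)).continuousAt.continuousWithinAt
      · intro x hx
        rw [interior_Ioo] at hx
        rw [(hd x (hsub hx)).deriv]
        exact hall x hx
    have h3 : ∀ᶠ x in 𝓝[>] (0 : ℝ), p x0 < p x := htop.eventually_gt_atTop (p x0)
    have h4 : ∀ᶠ x in 𝓝[>] (0 : ℝ), x ∈ Ioo (0 : ℝ) x0 := Ioo_mem_nhdsGT hx0.1
    obtain ⟨x, hx, hx'⟩ := (h3.and h4).exists
    have := hmono ⟨hx'.1, hx'.2.trans hx0.2⟩ hx0 hx'.2
    linarith
  have heT : Tendsto p (𝓝[<] T) (𝓝 (p T)) :=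
    (hd _ hhalf).continuousAt.tendsto.mono_left nhdsWithin_le_nhds
  have hpT : p T = e := by
    have h1 : 4 * p T ^ 3 - a * p T - b = 0 := by
      rw [← hode T hhalf, hq0]; ring
    refine le_antisymm (hmax _ h1) ?_
    by_contra hlt
    push Not at hlt
    have himg := (image_eq T hT p q (p T) (fun x hx => hd x (hsub hx)) hneg htop heT).2
    have h2 : e ∈ Ioi (p T) := hlt
    rw [← himg] at h2
    obtain ⟨x, hx, hxe⟩ := h2
    have h3 := hode x (hsub hx)
    rw [hxe, he0] at h3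
    exact hqne x hx (by simpa using h3)
  refine ⟨p, q, fun x hx => hd x (hsub hx), hneg, fun x hx => hode x (hsub hx), htop, ?_⟩
  rw [← hpT]
  exact heT

/-- `(2 y + a₁ x + a₃)²` of the equation of the twist -/
theorem psi_WD (M : ℤ) (hM : M % 4 = 1) (x : ℝ) :
    Y700.psi (WD M) x = 4 * x ^ 3 + 5 * M * x ^ 2 - 38 * M ^ 2 * x - 39 * M ^ 3 := by
  obtain ⟨k, rfl⟩ : ∃ k : ℤ, M = 4 * k + 1 := ⟨M / 4, by omega⟩
  rw [WD_coef]
  simp only [Y700.psi, WeierstrassCurve.b₂, WeierstrassCurve.b₄, WeierstrassCurve.b₆]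
  push_cast
  ring

/-- the integral over the image of an interval, when the pull back of the integrand is constant -/
theorem int_image (T : ℝ) (hT : 0 ≤ T) (P Q : ℝ → ℝ) (W : WeierstrassCurve ℤ) (M : ℝ) (hM : 0 < M)
    (hd : ∀ x ∈ Ioo (0 : ℝ) T, HasDerivAt P (Q x) x) (hQ : ∀ x ∈ Ioo (0 : ℝ) T, Q x ≠ 0)
    (hinj : InjOn P (Ioo (0 : ℝ) T))
    (hode : ∀ x ∈ Ioo (0 : ℝ) T, Y700.psi W (P x) = M * Q x ^ 2) :
    IntegrableOn (fun x => 2 / Real.sqrt (Y700.psi W x)) (P '' Ioo (0 : ℝ) T) ∧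
    ∫ x in P '' Ioo (0 : ℝ) T, 2 / Real.sqrt (Y700.psi W x) = 2 * T / Real.sqrt M := by
  have hder : ∀ x ∈ Ioo (0 : ℝ) T, HasDerivWithinAt P (Q x) (Ioo (0 : ℝ) T) x :=
    fun x hx => (hd x hx).hasDerivWithinAt
  have hconst : ∀ x ∈ Ioo (0 : ℝ) T,
      |Q x| • (2 / Real.sqrt (Y700.psi W (P x))) = 2 / Real.sqrt M := by
    intro x hx
    have h3 : 0 < |Q x| := abs_pos.2 (hQ x hx)
    rw [hode x hx, ← sq_abs (Q x), Real.sqrt_mul hM.le, Real.sqrt_sq h3.le, smul_eq_mul]
    have h5 : 0 < Real.sqrt M := Real.sqrt_pos.2 hM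
    rw [mul_div_assoc', div_eq_div_iff (mul_ne_zero h5.ne' h3.ne') h5.ne']
    ring
  constructor
  · rw [integrableOn_image_iff_integrableOn_abs_deriv_smul measurableSet_Ioo hder hinj]
    rw [integrableOn_congr_fun hconst measurableSet_Ioo]
    exact integrableOn_const (by simp)
  · rw [integral_image_eq_integral_abs_deriv_smul measurableSet_Ioo hder hinj,
      setIntegral_congr_fun measurableSet_Ioo hconst]
    simp only [integral_const, MeasurableSet.univ, measureReal_restrict_apply, univ_inter,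
      smul_eq_mul, Real.volume_real_Ioo]
    rw [sub_zero, max_eq_left hT]
    ring

theorem t_OMEGA : S_OMEGA := by
  intro L Op Om hOp hOm hg2 hg3 hL M hM hM0
  have hM0' : (0 : ℝ) < M := by exact_mod_cast hM0
  set T : ℝ := Op / 2 with hTdef
  have hT : 0 < T := by positivity
  have h2T' : 2 * T = Op := by rw [hTdef]; ring
  -- the lattice
  have h2T : ((2 * T : ℝ) : ℂ) ∈ L.lattice := by
    rw [hL]
    exact ⟨1, 0, by rw [h2T']; push_cast; ring⟩
  have hnm : ∀ x : ℝ, 0 < x → x < 2 * T → (x : ℂ) ∉ L.lattice := by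
    intro x hx0 hx1 hx
    obtain ⟨a, b, h⟩ := (hL _).1 hx
    have hi := congrArg Complex.im h
    have hr := congrArg Complex.re h
    simp at hi hr
    rw [h2T'] at hx1
    rw [hr] at hx0 hx1
    have h2 : (0 : ℝ) < a := by
      by_contra hn
      push Not at hn
      have := mul_nonpos_of_nonpos_of_nonneg hn hOp.le
      linarith
    have h3 : (a : ℝ) < 1 := by
      by_contra hn
      push Not at hn
      nlinarith
    have h4 : (0 : ℤ) < a := by exact_mod_cast h2
    have h5 : a < (1 : ℤ) := by exact_mod_cast h3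
    omega
  have hc : ∀ l ∈ L.lattice, (starRingEnd ℂ) l ∈ L.lattice := by
    intro l hl
    obtain ⟨a, b, rfl⟩ := (hL _).1 hl
    rw [hL]
    refine ⟨a, -b, ?_⟩
    simp
  have hfac : ∀ x : ℝ, 4 * x ^ 3 - 481 / 12 * x - 4879 / 216 =
      4 * ((x - 41 / 12) * ((x + 7 / 12) * (x + 17 / 6))) := by
    intro x; ring
  obtain ⟨p, q, hd, hq, hode, h0, h1⟩ := per3 L T hT h2T hnm hc (481 / 12) (4879 / 216) (41 / 12)
    (by rw [hg2]; push_cast; ring) (by rw [hg3]; push_cast; ring) (by norm_num)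
    (by
      intro x hx
      rw [hfac] at hx
      by_contra hn
      push Not at hn
      have h2 : 0 < x - 41 / 12 := by linarith
      have h3 : 0 < x + 7 / 12 := by linarith
      have h4 : 0 < x + 17 / 6 := by linarith
      have h5 : 0 < 4 * ((x - 41 / 12) * ((x + 7 / 12) * (x + 17 / 6))) := by positivity
      linarith)
  obtain ⟨hinj, himg⟩ := image_eq T hT p q _ hd hq h0 h1
  have hpgt : ∀ x ∈ Ioo (0 : ℝ) T, 41 / 12 < p x := by
    intro x hx
    have : p x ∈ p '' Ioo (0 : ℝ) T := ⟨x, hx, rfl⟩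
    rw [himg] at this
    exact this
  have hpsi : ∀ v : ℝ, Y700.psi (WD M) (M * (v - 5 / 12)) =
      M ^ 3 * (4 * v ^ 3 - 481 / 12 * v - 4879 / 216) := by
    intro v
    rw [psi_WD M hM]
    ring
  -- the unbounded component
  have himgA : (fun x => (M : ℝ) * (p x - 5 / 12)) '' Ioo (0 : ℝ) T = Ioi (3 * M : ℝ) := by
    have h2 : (fun x => (M : ℝ) * (p x - 5 / 12)) '' Ioo (0 : ℝ) T =
        (fun v => (M : ℝ) * (v - 5 / 12)) '' (p '' Ioo (0 : ℝ) T) := by
      rw [image_image]
    rw [h2, himg]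
    ext v
    simp only [mem_image, mem_Ioi]
    constructor
    · rintro ⟨w, hw, rfl⟩
      nlinarith
    · intro hv
      refine ⟨v / M + 5 / 12, ?_, by field_simp; ring⟩
      have : 3 < v / M := by rw [lt_div_iff₀ hM0']; exact hv
      linarith
  have hA := int_image T hT.le (fun x => (M : ℝ) * (p x - 5 / 12)) (fun x => M * q x) (WD M) M hM0'
    (fun x hx => ((hd x hx).sub_const _).const_mul _)
    (fun x hx => mul_ne_zero hM0'.ne' (hq x hx).ne)
    (by
      intro x hx y hy hxy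
      apply hinj hx hy
      have h2 : (M : ℝ) * (p x - 5 / 12) = M * (p y - 5 / 12) := hxy
      have := mul_left_cancel₀ hM0'.ne' h2
      linarith)
    (by
      intro x hx
      rw [hpsi, ← hode x hx]
      ring)
  -- the bounded component
  have hsec : ∀ x ∈ Ioo (0 : ℝ) T, 0 < p x + 17 / 6 := by
    intro x hx
    have := hpgt x hx
    linarith
  have himgB : (fun x => (M : ℝ) * ((-17 / 6 + 225 / 16 / (p x + 17 / 6)) - 5 / 12)) ''
      Ioo (0 : ℝ) T = Ioo (-13 / 4 * M : ℝ) (-M) := by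
    have h2 : (fun x => (M : ℝ) * ((-17 / 6 + 225 / 16 / (p x + 17 / 6)) - 5 / 12)) '' Ioo (0 : ℝ) T =
        (fun v => (M : ℝ) * ((-17 / 6 + 225 / 16 / (v + 17 / 6)) - 5 / 12)) '' (p '' Ioo (0 : ℝ) T) := by
      rw [image_image]
    rw [h2, himg]
    ext v
    simp only [mem_image, mem_Ioi, mem_Ioo]
    constructor
    · rintro ⟨w, hw, rfl⟩
      have h3 : 0 < w + 17 / 6 := by linarith
      have h4 : 0 < 225 / 16 / (w + 17 / 6) := by positivity
      have h5 : 225 / 16 / (w + 17 / 6) < 9 / 4 := by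
        rw [div_lt_iff₀ h3]; linarith
      constructor <;> nlinarith
    · rintro ⟨hv1, hv2⟩
      have h3 : 0 < v / M + 13 / 4 := by
        have : -13 / 4 < v / M := by rw [lt_div_iff₀ hM0']; exact hv1
        linarith
      have h4 : v / M + 13 / 4 < 9 / 4 := by
        have : v / M < -1 := by rw [div_lt_iff₀ hM0']; linarith
        linarith
      refine ⟨225 / 16 / (v / M + 13 / 4) - 17 / 6, ?_, ?_⟩
      · have : 25 / 4 < 225 / 16 / (v / M + 13 / 4) := by
          rw [lt_div_iff₀ h3]; linarith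
        linarith
      · rw [sub_add_cancel, div_div_cancel₀ (by norm_num)]
        field_simp
        ring
  have hB := int_image T hT.le
    (fun x => (M : ℝ) * ((-17 / 6 + 225 / 16 / (p x + 17 / 6)) - 5 / 12))
    (fun x => M * (-(225 / 16 * q x) / (p x + 17 / 6) ^ 2)) (WD M) M hM0'
    (by
      intro x hx
      have h2 := ((hd x hx).add_const (17 / 6)).fun_inv (hsec x hx).ne'
      have h3 := (((h2.const_mul (225 / 16)).const_add (-17 / 6)).sub_const (5 / 12)).const_mul (M : ℝ)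
      refine (h3.congr_deriv ?_).congr_of_eventuallyEq ?_
      · ring
      · exact Filter.Eventually.of_forall fun y => by simp only [div_eq_mul_inv])
    (fun x hx => mul_ne_zero hM0'.ne' (div_ne_zero (neg_ne_zero.2 (mul_ne_zero (by norm_num)
      (hq x hx).ne)) (pow_ne_zero 2 (hsec x hx).ne')))
    (by
      intro x hx y hy hxy
      apply hinj hx hy
      have h2 := mul_left_cancel₀ hM0'.ne' hxy
      have h3 : 225 / 16 / (p x + 17 / 6) = 225 / 16 / (p y + 17 / 6) := by linarith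
      have hx' := (hsec x hx).ne'
      have hy' := (hsec y hy).ne'
      rw [div_eq_div_iff hx' hy'] at h3
      linarith)
    (by
      intro x hx
      have h2 := (hsec x hx).ne'
      have h3 := hode x hx
      have h5 : p x = (p x + 17 / 6) - 17 / 6 := by ring
      rw [hpsi]
      set w : ℝ := p x + 17 / 6 with hw
      rw [h5] at h3
      have h4 : (M * (-(225 / 16 * q x) / w ^ 2)) ^ 2 =
          (M : ℝ) ^ 2 * ((225 / 16) ^ 2 * q x ^ 2) / w ^ 4 := by
        field_simp
      rw [h4, h3]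
      field_simp
      ring)
  have hset : {x : ℝ | 0 < Y700.psi (WD M) x} = Ioi (3 * M : ℝ) ∪ Ioo (-13 / 4 * M : ℝ) (-M) := by
    ext x
    simp only [mem_ofPred_eq, mem_union, mem_Ioi, mem_Ioo]
    have h2 : Y700.psi (WD M) x = (x + M) * ((x - 3 * M) * (4 * x + 13 * M)) := by
      rw [psi_WD M hM]
      ring
    rw [h2]
    constructor
    · intro h
      by_contra hn
      push Not at hn
      obtain ⟨hn1, hn2⟩ := hn
      rcases le_or_gt x (-13 / 4 * M) with h3 | h3
      · have h4 : x + M < 0 := by linarith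
        have h5 : x - 3 * M < 0 := by linarith
        have h6 : 4 * x + 13 * M ≤ 0 := by linarith
        have h7 : 0 ≤ (x - 3 * M) * (4 * x + 13 * M) := mul_nonneg_of_nonpos_of_nonpos h5.le h6
        nlinarith
      · have h4 := hn2 h3
        have h5 : 0 ≤ x + M := by linarith
        have h6 : x - 3 * M ≤ 0 := by linarith
        have h7 : 0 ≤ 4 * x + 13 * M := by linarith
        have h8 : (x - 3 * M) * (4 * x + 13 * M) ≤ 0 := mul_nonpos_of_nonpos_of_nonneg h6 h7
        nlinarith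
    · rintro (h | ⟨h3, h4⟩)
      · have h5 : 0 < x + M := by linarith
        have h6 : 0 < x - 3 * M := by linarith
        have h7 : 0 < 4 * x + 13 * M := by linarith
        positivity
      · have h5 : x + M < 0 := by linarith
        have h6 : x - 3 * M < 0 := by linarith
        have h7 : 0 < 4 * x + 13 * M := by linarith
        exact mul_pos_of_neg_of_neg h5 (mul_neg_of_neg_of_pos h6 h7)
  have hdis : Disjoint (Ioi (3 * M : ℝ)) (Ioo (-13 / 4 * M : ℝ) (-M)) := by
    rw [Set.disjoint_left]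
    intro x h2 h3
    have h4 : 3 * (M : ℝ) < x := h2
    have h5 : x < -(M : ℝ) := h3.2
    linarith
  rw [himgA] at hA
  rw [himgB] at hB
  rw [Y700.Omega, hset, setIntegral_union hdis measurableSet_Ioo hA.1 hB.1, hA.2, hB.2]
  rw [h2T']
  ring

end Pool.Agent.H757_X15
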