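import Pool.Agent.H757_X15.MT.Fin15
import Pool.Agent.Y687.Sym

/-!
The modular symbol of `X_0(15)`, the Atkin-Lehner involution and the group `Γ_0(15)`.
-/

set_option autoImplicit false

open Filter Topology MeasureTheory Set

namespace Pool.Agent.H757_X15

open Pool.Agent.W97.TW
open Pool.Agent.W97.MT (ap hqe hhint iI)
open Pool.Agent.Y687 (iI_real)

/-- the path to a rational point -/
lemma path15 {a c w y : ℤ} (hc : 0 < c) (h : 15 * a * w - c * y = 1) {s : ℝ} (hs : 0 < s) :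
    (((-y : ℤ) : ℂ) * m15 (((-w / c : ℝ) : ℂ) + s * Complex.I) + (a : ℤ)) /
      (15 * ((-w : ℤ) : ℂ) * m15 (((-w / c : ℝ) : ℂ) + s * Complex.I) + (c : ℤ)) =
      (a : ℂ) / c + ((15 * (c : ℝ) ^ 2 * s)⁻¹ : ℝ) * Complex.I := by
  have hs' : (s : ℂ) ≠ 0 := by exact_mod_cast hs.ne'
  have hc' : (c : ℂ) ≠ 0 := by exact_mod_cast hc.ne'
  have h' : (15 : ℂ) * a * w - c * y = 1 := by exact_mod_cast h
  have e0 : ((15 * (c : ℝ) ^ 2 * s)⁻¹ : ℝ) * Complex.I =
      -(1 / (15 * (c : ℂ) ^ 2 * (s * Complex.I))) := by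
    push_cast
    have : (15 : ℂ) * (c : ℂ) ^ 2 * s ≠ 0 :=
      mul_ne_zero (mul_ne_zero (by norm_num) (pow_ne_zero 2 hc')) hs'
    field_simp
    rw [Complex.I_sq]
  rw [e0]
  have hz : 0 < (-(w : ℂ) / c + s * Complex.I).im := by
    have : -(w : ℂ) / c = ((-w / c : ℝ) : ℂ) := by push_cast; ring
    rw [this]; simpa using hs
  have hz0 : (-(w : ℂ) / c + s * Complex.I) ≠ 0 := fun h0 => by rw [h0] at hz; simp at hz
  have hu : (s : ℂ) * Complex.I ≠ 0 := mul_ne_zero hs' Complex.I_ne_zero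
  unfold m15
  push_cast
  set u : ℂ := (s : ℂ) * Complex.I with hu'
  have hz1 : -(w : ℂ) + c * u ≠ 0 := by
    intro h0
    apply hz0
    field_simp
    linear_combination h0
  have e1 : (15 : ℂ) * -w * (-1 / (15 * (-(w : ℂ) / c + u))) + c = c * c * u / (-(w : ℂ) + c * u) := by
    field_simp
    ring
  have e2 : -(y : ℂ) * (-1 / (15 * (-(w : ℂ) / c + u))) + a = (c * y + 15 * a * (-w + c * u)) /
      (15 * (-(w : ℂ) + c * u)) := by
    field_simp
  rw [e1, e2]
  field_simp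
  linear_combination -h'

/-- the integrals at the two ends of the geodesic from `a/c` to `-w/c` -/
theorem II_inv' (L : PeriodPair) (g2 : L.g₂ = 481 / 12) (g3 : L.g₃ = 4879 / 216)
    {ε C : ℂ} (hε : ε = 1 ∨ ε = -1)
    (hF : ∀ z : ℂ, 0 < z.im → F (m15 z) = ε * F z + C)
    {a c w y : ℤ} (hc : 0 < c) (h : 15 * a * w - c * y = 1) :
    II (-(w : ℚ) / c) = -ε * II ((a : ℚ) / c) ∧
      Tendsto (fun t : ℝ => F ((((a : ℚ) / c : ℚ) : ℂ) + t * Complex.I)) (𝓝[>] 0)
        (𝓝 (II ((a : ℚ) / c))) := by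
  have hint := (t_INTEG L g2 g3).2.2.1
  have hcR : (0 : ℝ) < c := by exact_mod_cast hc
  have hdet : (-y) * c - a * (15 * (-w)) = 1 := by linarith
  obtain ⟨p, hp⟩ := F_gamma hcp hqe hdet
  have hm : ∀ z : ℂ, 0 < z.im → 0 < (m15 z).im := (isCusp15 hcp hqe).pos
  -- the key relation
  have key : ∀ s : ℝ, 0 < s → F ((a : ℂ) / c + ((15 * (c : ℝ) ^ 2 * s)⁻¹ : ℝ) * Complex.I)
      = ε * F (((-w / c : ℝ) : ℂ) + s * Complex.I) + (C + p) := by
    intro s hs
    have him : 0 < (((-w / c : ℝ) : ℂ) + s * Complex.I).im := by simpa using hs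
    have h1 := hp _ (hm _ him)
    rw [path15 hc h hs, hF _ him] at h1
    rw [h1]; ring
  have ra : (((a : ℚ) / c : ℚ) : ℂ) = (a : ℂ) / c := by push_cast; rfl
  have rw1 : ((-(w : ℚ) / c : ℚ) : ℂ) = ((-w / c : ℝ) : ℂ) := by push_cast; rfl
  have rar : ((a : ℂ) / c) = (((a : ℝ) / c : ℝ) : ℂ) := by push_cast; rfl
  -- first end
  have l1 : Tendsto (fun t : ℝ => F (((a : ℂ) / c) + t * Complex.I)) (𝓝[>] 0) (𝓝 (C + p)) := by
    have t1 : Tendsto (fun t : ℝ => (15 * (c : ℝ) ^ 2 * t)⁻¹) (𝓝[>] 0) atTop := by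
      have e : (fun t : ℝ => (15 * (c : ℝ) ^ 2 * t)⁻¹) = fun t : ℝ => (15 * (c : ℝ) ^ 2)⁻¹ * t⁻¹ := by
        ext t; rw [mul_inv]
      rw [e]
      exact tendsto_inv_nhdsGT_zero.const_mul_atTop (by positivity)
    have t2 := (((F_QV.tendsto.comp (iI_real _ (-w / c) t1)).const_mul ε).add_const (C + p))
    rw [mul_zero, zero_add] at t2
    refine t2.congr' ?_
    filter_upwards [self_mem_nhdsWithin] with t ht
    have ht0 : (0 : ℝ) < t := ht
    have hs0 : 0 < (15 * (c : ℝ) ^ 2 * t)⁻¹ := by positivity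
    have h2 := key _ hs0
    have h3 : (15 * (c : ℝ) ^ 2 * (15 * (c : ℝ) ^ 2 * t)⁻¹)⁻¹ = t := by field_simp
    rw [h3] at h2
    rw [h2]
    rfl
  have e1 : II ((a : ℚ) / c) = C + p := by
    unfold II
    rw [ra]
    exact integral_line _ (by rw [rar]; simp) (by rw [← ra]; exact hint _) l1
  -- second end
  have e2 : II (-(w : ℚ) / c) = -ε * (C + p) := by
    unfold II
    rw [rw1]
    refine integral_line _ (by simp) (by rw [← rw1]; exact hint _) ?_
    have t1 : Tendsto (fun t : ℝ => (15 * (c : ℝ) ^ 2 * t)⁻¹) (𝓝[>] 0) atTop := by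
      have e : (fun t : ℝ => (15 * (c : ℝ) ^ 2 * t)⁻¹) = fun t : ℝ => (15 * (c : ℝ) ^ 2)⁻¹ * t⁻¹ := by
        ext t; rw [mul_inv]
      rw [e]
      exact tendsto_inv_nhdsGT_zero.const_mul_atTop (by positivity)
    have t2 := (((F_QV.tendsto.comp (iI_real _ (a / c) t1)).sub_const (C + p)).const_mul ε)
    have e4 : ε * (0 - (C + p)) = -ε * (C + p) := by ring
    rw [e4] at t2
    refine t2.congr' ?_
    filter_upwards [self_mem_nhdsWithin] with t ht
    have ht0 : (0 : ℝ) < t := ht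
    have h2 := key t ht0
    have hεε : ε * ε = 1 := by rcases hε with rfl | rfl <;> norm_num
    simp only [Function.comp_apply]
    rw [← rar, h2]
    linear_combination (F (((-w / c : ℝ) : ℂ) + t * Complex.I)) * hεε
  refine ⟨by rw [e1, e2], ?_⟩
  rw [e1, ra]
  exact l1

theorem II_inv (L : PeriodPair) (g2 : L.g₂ = 481 / 12) (g3 : L.g₃ = 4879 / 216)
    {ε C : ℂ} (hε : ε = 1 ∨ ε = -1)
    (hF : ∀ z : ℂ, 0 < z.im → F (m15 z) = ε * F z + C)
    {a c w y : ℤ} (hc : 0 < c) (h : 15 * a * w - c * y = 1) :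
    II (-(w : ℚ) / c) = -ε * II ((a : ℚ) / c) := (II_inv' L g2 g3 hε hF hc h).1

/-- the primitive tends to the integral at a cusp prime to `15` -/
theorem F_tendsto {a : ℤ} {c : ℕ} (hc : 0 < c) (h15 : IsCoprime (15 * a) (c : ℤ)) :
    Tendsto (fun t : ℝ => F ((a : ℂ) / c + t * Complex.I)) (𝓝[>] 0) (𝓝 (II ((a : ℚ) / c))) := by
  obtain ⟨L, Op, Om, hOp, hOm, g2, g3, hL⟩ := t_LAT
  obtain ⟨ε, C, hε, -, hF⟩ := (isCusp15 hcp hqe).map.const
  obtain ⟨u, v, huv⟩ := h15
  have h1 := (II_inv' L g2 g3 hε hF (a := a) (c := (c : ℤ)) (w := u) (y := -v)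
    (by exact_mod_cast hc) (by linarith)).2
  have e : (((a : ℚ) / ((c : ℤ) : ℚ) : ℚ) : ℂ) = (a : ℂ) / c := by push_cast; rfl
  rw [e] at h1
  exact_mod_cast h1

/-- the value of the symbol at `B / D` and the additive constant of the matrix -/
theorem II_val {ε C : ℂ} (hF : ∀ z : ℂ, 0 < z.im → F (m15 z) = ε * F z + C)
    {A B C' D : ℤ} (hdet : A * D - B * (15 * C') = 1) (hD : 0 < D) {p : ℂ}
    (hp : ∀ z : ℂ, 0 < z.im → F ((A * z + B) / (15 * C' * z + D)) = F z + p) :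
    II ((B : ℚ) / D) = C + p := by
  have hcR : (0 : ℝ) < D := by exact_mod_cast hD
  have hm : ∀ z : ℂ, 0 < z.im → 0 < (m15 z).im := (isCusp15 hcp hqe).pos
  have h : 15 * B * (-C') - D * (-A) = 1 := by linarith
  have key : ∀ s : ℝ, 0 < s → F ((B : ℂ) / D + ((15 * (D : ℝ) ^ 2 * s)⁻¹ : ℝ) * Complex.I)
      = ε * F (((-(-C' : ℤ) / D : ℝ) : ℂ) + s * Complex.I) + (C + p) := by
    intro s hs
    have him : 0 < (((-(-C' : ℤ) / D : ℝ) : ℂ) + s * Complex.I).im := by simpa using hs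
    have h1 := hp _ (hm _ him)
    have h2 := path15 hD h hs
    rw [hF _ him] at h1
    rw [← h2, neg_neg, neg_neg, h1]
    ring
  have l1 : Tendsto (fun t : ℝ => F (((B : ℂ) / D) + t * Complex.I)) (𝓝[>] 0) (𝓝 (C + p)) := by
    have t1 : Tendsto (fun t : ℝ => (15 * (D : ℝ) ^ 2 * t)⁻¹) (𝓝[>] 0) atTop := by
      have e : (fun t : ℝ => (15 * (D : ℝ) ^ 2 * t)⁻¹) = fun t : ℝ => (15 * (D : ℝ) ^ 2)⁻¹ * t⁻¹ := by
        ext t; rw [mul_inv]
      rw [e]
      exact tendsto_inv_nhdsGT_zero.const_mul_atTop (by positivity)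
    have t2 := (((F_QV.tendsto.comp (iI_real _ (-(-C' : ℤ) / D) t1)).const_mul ε).add_const (C + p))
    rw [mul_zero, zero_add] at t2
    refine t2.congr' ?_
    filter_upwards [self_mem_nhdsWithin] with t ht
    have ht0 : (0 : ℝ) < t := ht
    have hs0 : 0 < (15 * (D : ℝ) ^ 2 * t)⁻¹ := by positivity
    have h2 := key _ hs0
    have h3 : (15 * (D : ℝ) ^ 2 * (15 * (D : ℝ) ^ 2 * t)⁻¹)⁻¹ = t := by field_simp
    rw [h3] at h2
    rw [h2]
    rfl
  obtain ⟨c, rfl⟩ : ∃ c : ℕ, D = c := ⟨D.toNat, (Int.toNat_of_nonneg hD.le).symm⟩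
  have hc : 0 < c := by exact_mod_cast hD
  have h15 : IsCoprime (15 * B) (c : ℤ) := ⟨-C', A, by linarith⟩
  have l2 := F_tendsto hc h15
  have l1' : Tendsto (fun t : ℝ => F ((B : ℂ) / (c : ℕ) + t * Complex.I)) (𝓝[>] 0) (𝓝 (C + p)) := by
    refine l1.congr fun t => ?_
    push_cast
    rfl
  have h3 := tendsto_nhds_unique l2 l1'
  rw [← h3]
  push_cast
  rfl

theorem II_val' {ε C : ℂ} (hF : ∀ z : ℂ, 0 < z.im → F (m15 z) = ε * F z + C)
    {A B C' D : ℤ} (hdet : A * D - B * (15 * C') = 1) {p : ℂ}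
    (hp : ∀ z : ℂ, 0 < z.im → F ((A * z + B) / (15 * C' * z + D)) = F z + p) :
    II ((B : ℚ) / D) = C + p := by
  have hD : D ≠ 0 := by
    rintro rfl
    have : (15 : ℤ) ∣ 1 := ⟨-(B * C'), by linarith⟩
    norm_num at this
  rcases lt_or_gt_of_ne hD with h | h
  · have h1 := II_val hF (A := -A) (B := -B) (C' := -C') (D := -D) (by linarith) (by linarith)
      (p := p) (fun z hz => by
        rw [← hp z hz]
        congr 1
        push_cast
        rw [← neg_div_neg_eq]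
        congr 1 <;> ring)
    rw [← h1]
    congr 1
    push_cast
    rw [neg_div_neg_eq]
  · exact II_val hF hdet h hp

/-- the symbol under the group -/
theorem II_aff {A B C' D : ℤ} (hdet : A * D - B * (15 * C') = 1) {a c : ℤ}
    (hc : IsCoprime (15 * a) c) :
    II (((A * a + B * c : ℤ) : ℚ) / ((15 * C' * a + D * c : ℤ) : ℚ)) =
      II ((a : ℚ) / c) + II ((B : ℚ) / D) - II 0 := by
  obtain ⟨ε, C, hε, -, hF⟩ := (isCusp15 hcp hqe).map.const
  obtain ⟨u, v, huv⟩ := hc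
  obtain ⟨p1, hp1⟩ := F_gamma hcp hqe hdet
  have d2 : v * c - a * (15 * (-u)) = 1 := by linarith
  obtain ⟨p2, hp2⟩ := F_gamma hcp hqe d2
  have d3 : (A * v + B * (15 * (-u))) * (15 * C' * a + D * c) -
      (A * a + B * c) * (15 * (C' * v + D * (-u))) = 1 := by
    linear_combination (v * c - a * (15 * (-u))) * hdet + d2
  obtain ⟨p3, hp3⟩ := F_gamma hcp hqe d3
  have e3 : p3 = p1 + p2 := by
    have hz : 0 < (Complex.I).im := by norm_num
    have d2' : v * c - a * (15 * (-u)) = 1 := d2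
    obtain ⟨i2, n2⟩ := im_moebius (a := v) (b := a) (c := 15 * (-u)) (d := c) d2 hz
    obtain ⟨i1, n1⟩ := im_moebius (a := A) (b := B) (c := 15 * C') (d := D) hdet i2
    have q3 := hp3 Complex.I hz
    have q1 := hp1 _ i2
    have q2 := hp2 Complex.I hz
    push_cast at q1 q2 q3 n2 n1
    rw [q2] at q1
    have e : (((A : ℂ) * v + B * (15 * -u)) * Complex.I + (A * a + B * c)) /
        (15 * ((C' : ℂ) * v + D * -u) * Complex.I + (15 * C' * a + D * c)) =
        (A * ((v * Complex.I + a) / (15 * -u * Complex.I + c)) + B) /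
          (15 * C' * ((v * Complex.I + a) / (15 * -u * Complex.I + c)) + D) := by
      have f1 : (((A : ℂ) * v + B * (15 * -u)) * Complex.I + (A * a + B * c)) =
          A * (v * Complex.I + a) + B * (15 * -u * Complex.I + c) := by ring
      have f2 : (15 * ((C' : ℂ) * v + D * -u) * Complex.I + (15 * C' * a + D * c)) =
          15 * C' * (v * Complex.I + a) + D * (15 * -u * Complex.I + c) := by ring
      rw [f1, f2]
      generalize (v : ℂ) * Complex.I + a = X at *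
      generalize (15 : ℂ) * -u * Complex.I + c = W at *
      have f3 : 15 * (C' : ℂ) * X + D * W = (15 * C' * (X / W) + D) * W := by
        field_simp
      have f4 : (A : ℂ) * X + B * W = (A * (X / W) + B) * W := by
        field_simp
      rw [f3, f4, mul_div_mul_right _ _ n2]
    rw [e, q1] at q3
    linear_combination -q3
  have v1 := II_val' hF hdet hp1
  have v2 := II_val' hF d2 hp2
  have v3 := II_val' hF d3 hp3
  have v0 := II_val' hF (A := 1) (B := 0) (C' := 0) (D := 1) (by norm_num) (p := 0) (fun z _ => by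
    push_cast
    simp)
  have e0 : ((0 : ℤ) : ℚ) / ((1 : ℤ) : ℚ) = 0 := by norm_num
  rw [e0] at v0
  rw [v1, v2, v3, v0, e3]
  ring

/-- the integral symbol under the group -/
theorem symb_aff {s : ℚ → ℤ} {Op : ℝ} (hOp : 0 < Op) (hs : ∀ r : ℚ, (4 : ℝ) * (II r).re = s r * Op)
    {A B C' D : ℤ} (hdet : A * D - B * (15 * C') = 1) {a c : ℤ} (hc : IsCoprime (15 * a) c) :
    s (((A * a + B * c : ℤ) : ℚ) / ((15 * C' * a + D * c : ℤ) : ℚ)) =
      s ((a : ℚ) / c) + s ((B : ℚ) / D) - s 0 := by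
  have h1 := congrArg Complex.re (II_aff hdet hc)
  rw [Complex.sub_re, Complex.add_re] at h1
  have h2 : ((s (((A * a + B * c : ℤ) : ℚ) / ((15 * C' * a + D * c : ℤ) : ℚ)) : ℤ) : ℝ) * Op =
      ((s ((a : ℚ) / c) + s ((B : ℚ) / D) - s 0 : ℤ) : ℝ) * Op := by
    push_cast
    rw [sub_mul, add_mul]
    have e1 := hs (((A * a + B * c : ℤ) : ℚ) / ((15 * C' * a + D * c : ℤ) : ℚ))
    have e2 := hs ((a : ℚ) / c)
    have e3 := hs ((B : ℚ) / D)
    have e4 := hs 0
    push_cast at e1 h1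
    rw [← e1, ← e2, ← e3, ← e4, h1]
    ring
  exact_mod_cast mul_right_cancel₀ hOp.ne' h2

/-- the integral symbol -/
theorem t_SYMB : S_SYMB := by
  obtain ⟨L, Op, Om, hOp, hOm, g2, g3, hL⟩ := t_LAT
  obtain ⟨Ξ, U, P, rΞ, rU, rP, tΞ, tU, tP⟩ := expansions hqe
  obtain ⟨i2, i4, iint, i7⟩ := t_INTEG L g2 g3
  have hP0 : PowerSeries.coeff 0 P = 1 := by
    rw [tP 0 (by norm_num)]; rfl
  have hecke' : ∀ q : ℕ, q.Prime → ∀ z, W97.MT.hecke 15 q form15 z = (ap E15 q : ℂ) * form15 z := by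
    intro q hq z
    have h1 := hecke_f15 hcp hqe rP hP0 hq z
    rw [coef_eq L g2 g3 rΞ rU rP tΞ tU tP hq] at h1
    exact h1
  obtain ⟨s, hs, hodd⟩ := t_ARITH II Op Om (L.lattice : Set ℂ) hOp hOm hL II_zero_im i2 i4
  have inj : ∀ x y : ℤ, (x : ℝ) * Op = y * Op → x = y := by
    intro x y hxy
    exact_mod_cast mul_right_cancel₀ hOp.ne' hxy
  obtain ⟨ε, C, hε, -, hF⟩ := (isCusp15 hcp hqe).map.const
  have hε1 : ε = -1 := by
    rcases hε with rfl | rfl
    · exfalso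
      have h1 := II_inv L g2 g3 (Or.inl rfl) hF (a := 0) (c := 1) (w := 0) (y := -1)
        (by norm_num) (by norm_num)
      norm_num at h1
      have h2 : (2 : ℂ) * II 0 = 0 := by linear_combination h1
      exact i2 (by rw [h2]; exact zero_mem _)
    · rfl
  subst hε1
  refine ⟨s, L, Op, Om, hOp, hOm, g2, g3, hL, ⟨?_, ?_, ?_, ?_, hodd, ?_, ?_⟩, hs⟩
  · intro x
    apply inj
    rw [← hs, ← hs, II_add_one]
  · intro x
    apply inj
    rw [← hs, ← hs, II_conj, Complex.conj_re]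
  · intro q hq hq15 x
    apply inj
    have h1 := hhint 15 q form15 (ap E15 q : ℂ) hq (int_rat L g2 g3) (hecke' q hq) x
    rw [if_neg hq15, prim_rat, prim_rat] at h1
    simp_rw [prim_rat] at h1
    have h2 := congrArg Complex.re h1
    rw [Complex.add_re, Complex.re_sum] at h2
    have h3 : ((ap E15 q : ℂ) * II x).re = ap E15 q * (II x).re := by
      have : (ap E15 q : ℂ) = ((ap E15 q : ℝ) : ℂ) := by push_cast; rfl
      rw [this, Complex.re_ofReal_mul]
    rw [h3] at h2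
    push_cast
    rw [mul_assoc, ← hs, add_mul, ← hs, Finset.sum_mul]
    simp_rw [← hs]
    rw [← Finset.mul_sum]
    linear_combination 4 * h2
  · intro M b d hM hdvd
    obtain ⟨y, hy⟩ := hdvd
    apply inj
    have hM' : (0 : ℤ) < M := by exact_mod_cast hM
    have h1 := II_inv L g2 g3 (Or.inr rfl) hF (a := b) (c := M) (w := d) (y := y) hM'
      (by linarith)
    rw [neg_neg, one_mul] at h1
    rw [← hs, ← hs]
    have h2 : II ((d : ℚ) / M) = starRingEnd ℂ (II (-(d : ℚ) / (M : ℤ))) := by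
      rw [← II_conj]
      congr 1
      push_cast
      ring
    rw [h2, h1, Complex.conj_re]
    push_cast
    rfl
  · intro A B C' D hdet x c hc
    exact symb_aff hOp hs hdet hc
  · obtain ⟨-, -, -, -, m2, -⟩ := t_MIN
    show ap E15 2 = -1
    unfold ap
    rw [m2]
    rfl

end Pool.Agent.H757_X15
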