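import Pool.Agent.H757_X15.DefsA
import Pool.Agent.H82R3.EK.FF

/-!
The coefficients `a_l` of the twists of `X_0(15)`.
-/

set_option autoImplicit false
set_option linter.style.haveILetI false

open scoped Classical

namespace Pool.Agent.H757_X15

open Pool.Agent.W97.MT (affCount ap)

theorem WD_one : WD 1 = E15 := by
  unfold WD E15
  norm_num

/-- the coefficients of `WM` -/
theorem WD_coeff {M : ℤ} (hM : M % 4 = 1) : ∃ a b c : ℤ, WD M = ⟨1, a, 1, b, c⟩ ∧
    4 * a = 5 * M - 1 ∧ 2 * b = -(19 * M ^ 2 + 1) ∧ 4 * c = -(39 * M ^ 3 + 1) := by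
  obtain ⟨k, hk⟩ : ∃ k, M = 4 * k + 1 := ⟨M / 4, by omega⟩
  refine ⟨(5 * M - 1) / 4, -((19 * M ^ 2 + 1) / 2), -((39 * M ^ 3 + 1) / 4), rfl, ?_, ?_, ?_⟩
  · omega
  · have : 19 * M ^ 2 + 1 = 2 * (152 * k ^ 2 + 76 * k + 10) := by rw [hk]; ring
    omega
  · have : 39 * M ^ 3 + 1 = 4 * (624 * k ^ 3 + 468 * k ^ 2 + 117 * k + 10) := by rw [hk]; ring
    omega

theorem affCount_odd {M : ℤ} (hM : M % 4 = 1) (p : ℕ) [Fact p.Prime] (hp : p ≠ 2) :
    (affCount (WD M) p : ℤ) = p + ∑ x : ZMod p,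
      quadraticChar (ZMod p) (x ^ 3 + 41 * (M : ZMod p) * x ^ 2 + 400 * (M : ZMod p) ^ 2 * x) := by
  have hpp : p.Prime := Fact.out
  have n2 : (2 : ZMod p) ≠ 0 := by
    intro h
    have : ((2 : ℕ) : ZMod p) = 0 := by exact_mod_cast h
    rw [ZMod.natCast_eq_zero_iff] at this
    exact hp ((Nat.prime_dvd_prime_iff_eq hpp Nat.prime_two).1 this)
  have n4 : (4 : ZMod p) ≠ 0 := by
    rw [show (4 : ZMod p) = 2 ^ 2 by norm_num]
    exact pow_ne_zero 2 n2
  obtain ⟨a, b, c, hW, ha, hb, hc⟩ := WD_coeff hM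
  have ha' : 4 * (a : ZMod p) = 5 * M - 1 := by
    have := congrArg (Int.cast : ℤ → ZMod p) ha
    push_cast at this
    exact this
  have hb' : 2 * (b : ZMod p) = -(19 * (M : ZMod p) ^ 2 + 1) := by
    have := congrArg (Int.cast : ℤ → ZMod p) hb
    push_cast at this
    exact this
  have hc' : 4 * (c : ZMod p) = -(39 * (M : ZMod p) ^ 3 + 1) := by
    have := congrArg (Int.cast : ℤ → ZMod p) hc
    push_cast at this
    exact this
  have hchar : ringChar (ZMod p) ≠ 2 := by rw [ZMod.ringChar_zmod_n]; exact hp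
  set g : ZMod p → ZMod p := fun x => 4 * x ^ 3 + 5 * M * x ^ 2 -
    38 * (M : ZMod p) ^ 2 * x - 39 * (M : ZMod p) ^ 3 with hg
  have e1 : affCount (WD M) p = Nat.card {q : ZMod p × ZMod p // q.2 ^ 2 = g q.1} := by
    unfold affCount
    refine Nat.card_congr
      { toFun := fun x => ⟨(x.1.1, 2 * x.1.2 + x.1.1 + 1), ?_⟩
        invFun := fun x => ⟨(x.1.1, (x.1.2 - x.1.1 - 1) / 2), ?_⟩
        left_inv := ?_
        right_inv := ?_ }
    · have h := x.2
      rw [WeierstrassCurve.Affine.equation_iff] at h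
      simp only [hW, WeierstrassCurve.map, map_one] at h
      simp only [eq_intCast, hg] at h ⊢
      linear_combination 4 * h + x.1.1 ^ 2 * ha' + 2 * x.1.1 * hb' + hc'
    · have h := x.2
      rw [WeierstrassCurve.Affine.equation_iff]
      simp only [hW, WeierstrassCurve.map, map_one]
      simp only [eq_intCast, hg] at h ⊢
      have e2 : x.1.2 = 2 * ((x.1.2 - x.1.1 - 1) / 2) + x.1.1 + 1 := by
        field_simp
        ring
      set v := (x.1.2 - x.1.1 - 1) / 2 with hv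
      rw [e2] at h
      apply mul_left_cancel₀ n4
      linear_combination h - x.1.1 ^ 2 * ha' - 2 * x.1.1 * hb' - hc'
    · intro x
      ext
      · rfl
      · show (2 * x.1.2 + x.1.1 + 1 - x.1.1 - 1) / 2 = x.1.2
        field_simp
        ring
    · intro x
      ext
      · rfl
      · show 2 * ((x.1.2 - x.1.1 - 1) / 2) + x.1.1 + 1 = x.1.2
        field_simp
        ring
  rw [e1, Pool.Agent.H82R3.EK.card_points hchar g, ZMod.card]
  congr 1
  have n40 : IsUnit (4 : ZMod p) := n4.isUnit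
  refine Fintype.sum_equiv ((Equiv.subRight (3 * (M : ZMod p))).trans (Equiv.mulLeft₀ (4 : ZMod p) n4)) _ _
    fun x => ?_
  have h4 : quadraticChar (ZMod p) (g x) = quadraticChar (ZMod p) (4 ^ 2 * g x) := by
    rw [map_mul, quadraticChar_sq_one' n4, one_mul]
  rw [h4]
  congr 1
  simp only [Equiv.trans_apply, Equiv.subRight_apply, Equiv.mulLeft₀_apply, hg]
  ring

/-- primes dividing the twisting factor -/
theorem ap_dvd {M : ℤ} (hM : M % 4 = 1) (p : ℕ) [Fact p.Prime] (hp : p ≠ 2) (h : (p : ℤ) ∣ M) :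
    ap (WD M) p = 0 := by
  have hM0 : (M : ZMod p) = 0 := (ZMod.intCast_zmod_eq_zero_iff_dvd M p).2 h
  have hchar : ringChar (ZMod p) ≠ 2 := by rw [ZMod.ringChar_zmod_n]; exact hp
  unfold ap
  rw [affCount_odd hM p hp, hM0]
  have : ∑ x : ZMod p, quadraticChar (ZMod p) (x ^ 3 + 41 * 0 * x ^ 2 + 400 * 0 ^ 2 * x) =
      ∑ x : ZMod p, quadraticChar (ZMod p) x := by
    refine Finset.sum_congr rfl fun x _ => ?_
    have e : x ^ 3 + 41 * 0 * x ^ 2 + 400 * 0 ^ 2 * x = x ^ 2 * x := by ring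
    rw [e, map_mul]
    by_cases hx : x = 0
    · rw [hx]; simp
    · rw [quadraticChar_sq_one' hx, one_mul]
  rw [this, quadraticChar_sum_zero hchar]
  ring

theorem ap_odd {M : ℕ} (hM : M % 4 = 1) (p : ℕ) [Fact p.Prime] (hp : p ≠ 2) (h : ¬ p ∣ M) :
    ap (WD M) p = jacobiSym p M * ap E15 p := by
  have hpp : p.Prime := Fact.out
  have hM0 : (M : ZMod p) ≠ 0 := by
    intro h1
    rw [ZMod.natCast_eq_zero_iff] at h1
    exact h h1
  have h5 : quadraticChar (ZMod p) (M : ZMod p) = jacobiSym p M := by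
    have h6 : quadraticChar (ZMod p) (M : ZMod p) = legendreSym p (M : ℤ) := by
      rw [legendreSym]
      norm_num
    rw [h6, jacobiSym.legendreSym.to_jacobiSym]
    exact jacobiSym.quadratic_reciprocity_one_mod_four hM (hpp.odd_of_ne_two hp)
  rw [← WD_one]
  unfold ap
  rw [affCount_odd (by omega) p hp, affCount_odd (by norm_num) p hp, ← h5, sub_add_cancel_left,
    sub_add_cancel_left, mul_neg, Finset.mul_sum]
  congr 1
  symm
  refine Fintype.sum_equiv (Equiv.mulLeft₀ (M : ZMod p) hM0) _ _ fun x => ?_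
  have h4 : quadraticChar (ZMod p) (M : ZMod p) = quadraticChar (ZMod p) ((M : ZMod p) ^ 3) := by
    rw [pow_succ, map_mul, quadraticChar_sq_one' hM0, one_mul]
  rw [h4, ← map_mul, Equiv.mulLeft₀_apply]
  congr 1
  push_cast
  ring

theorem ap_two {M : ℕ} (hM : M % 4 = 1) : ap (WD M) 2 = -jacobiSym 2 M := by
  have hodd : Odd M := Nat.odd_iff.2 (by omega)
  rw [jacobiSym.at_two hodd, ZMod.χ₈_nat_eq_if_mod_eight]
  obtain ⟨a, b, c, hW, ha, hb, hc⟩ := WD_coeff (M := (M : ℤ)) (by omega)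
  unfold ap affCount
  rw [hW]
  rcases (by omega : M % 8 = 1 ∨ M % 8 = 5) with h8 | h8
  · obtain ⟨k, hk⟩ : ∃ k : ℤ, (M : ℤ) = 8 * k + 1 := ⟨M / 8, by omega⟩
    have a0 : (a : ZMod 2) = 1 := by
      have : a = 2 * (5 * k) + 1 := by omega
      rw [this]
      push_cast
      have : (2 : ZMod 2) = 0 := rfl
      rw [this]
      ring
    have b0 : (b : ZMod 2) = 0 := (ZMod.intCast_zmod_eq_zero_iff_dvd b 2).2
      ⟨-(304 * k ^ 2 + 76 * k + 5), by push_cast; rw [hk] at hb; linarith⟩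
    have c0 : (c : ZMod 2) = 0 := (ZMod.intCast_zmod_eq_zero_iff_dvd c 2).2
      ⟨-(2496 * k ^ 3 + 936 * k ^ 2 + 117 * k + 5), by push_cast; rw [hk] at hc; linarith⟩
    have e : Nat.card {P : ZMod 2 × ZMod 2 //
        ((⟨1, a, 1, b, c⟩ : WeierstrassCurve ℤ).map (Int.castRingHom (ZMod 2))).toAffine.Equation
          P.1 P.2} = Nat.card {P : ZMod 2 × ZMod 2 //
            P.2 ^ 2 + P.1 * P.2 + P.2 = P.1 ^ 3 + P.1 ^ 2} := by
      refine Nat.card_congr (Equiv.subtypeEquivRight fun P => ?_)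
      rw [WeierstrassCurve.Affine.equation_iff]
      simp only [WeierstrassCurve.map, map_one, eq_intCast, a0, b0, c0]
      ring_nf
    rw [e, Nat.card_eq_fintype_card]
    have e2 : Fintype.card {P : ZMod 2 × ZMod 2 //
        P.2 ^ 2 + P.1 * P.2 + P.2 = P.1 ^ 3 + P.1 ^ 2} = 3 := by
      decide
    have h3 : M % 2 = 1 := by omega
    simp only [e2, h3, h8]
    norm_num
  · obtain ⟨k, hk⟩ : ∃ k : ℤ, (M : ℤ) = 8 * k + 5 := ⟨M / 8, by omega⟩
    have a0 : (a : ZMod 2) = 0 := (ZMod.intCast_zmod_eq_zero_iff_dvd a 2).2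
      ⟨5 * k + 3, by push_cast; omega⟩
    have b0 : (b : ZMod 2) = 0 := (ZMod.intCast_zmod_eq_zero_iff_dvd b 2).2
      ⟨-(304 * k ^ 2 + 380 * k + 119), by push_cast; rw [hk] at hb; linarith⟩
    have c0 : (c : ZMod 2) = 1 := by
      have : c = 2 * (-(2496 * k ^ 3 + 4680 * k ^ 2 + 2925 * k + 610)) + 1 := by
        rw [hk] at hc; linarith
      rw [this]
      push_cast
      have : (2 : ZMod 2) = 0 := rfl
      rw [this]
      ring
    have e : Nat.card {P : ZMod 2 × ZMod 2 //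
        ((⟨1, a, 1, b, c⟩ : WeierstrassCurve ℤ).map (Int.castRingHom (ZMod 2))).toAffine.Equation
          P.1 P.2} = Nat.card {P : ZMod 2 × ZMod 2 //
            P.2 ^ 2 + P.1 * P.2 + P.2 = P.1 ^ 3 + 1} := by
      refine Nat.card_congr (Equiv.subtypeEquivRight fun P => ?_)
      rw [WeierstrassCurve.Affine.equation_iff]
      simp only [WeierstrassCurve.map, map_one, eq_intCast, a0, b0, c0]
      ring_nf
    rw [e, Nat.card_eq_fintype_card]
    have e2 : Fintype.card {P : ZMod 2 × ZMod 2 //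
        P.2 ^ 2 + P.1 * P.2 + P.2 = P.1 ^ 3 + 1} = 1 := by
      decide
    have h3 : M % 2 = 1 := by omega
    simp only [e2, h3, h8]
    norm_num

end Pool.Agent.H757_X15
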