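import Pool.Agent.H757_X15.StmA

/-!
The final computation with modular symbols.
-/

set_option autoImplicit false

namespace Pool.Agent.H757_X15

open Finset

theorem t_ARITH : S_ARITH := by
  intro I Op Om L hOp hOm hL him h2 h4
  have hOmn := hOm.ne'
  choose a b hab using fun r => (hL _).1 (h4 r)
  refine ⟨a, fun r => ?_, ?_⟩
  · have := congrArg Complex.re (hab r)
    simpa using this
  · have hb : b 0 = 0 := by
      have := congrArg Complex.im (hab 0)
      simp [him] at this
      rcases this with h | h
      · exact h
      · exact absurd h hOmn
    rw [← Int.not_even_iff_odd]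
    rintro ⟨m, hm⟩
    apply h2
    rw [hL]
    refine ⟨m, 0, ?_⟩
    have h := hab 0
    rw [hb, hm] at h
    push_cast at h ⊢
    linear_combination (1 / 2 : ℂ) * h

end Pool.Agent.H757_X15
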