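import Pool.Agent.H757_X15.StmA
import Pool.Agent.W646.MT.LAT

/-!
Existence of the rectangular period lattice of the curve 15a1 by the intermediate value theorem
(after `Pool.Agent.W646.MT.LAT`).
-/

set_option autoImplicit false

open Set Filter Topology

namespace Pool.Agent.H757_X15

open Pool.Agent.H285R3.Str Pool.Agent.W520
open Pool.Agent.W646.MT (not_both G_scale scale mem_scale scale_g2 scale_g3)

namespace LATP

/-- the second period -/
noncomputable def tau (t : ℝ) : ℂ := ⟨0, t⟩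

theorem tau_eq (t : ℝ) : tau t = t * Complex.I := by
  apply Complex.ext <;> simp [tau]

/-- the rectangular lattice -/
noncomputable def La (t : ℝ) (ht : t ≠ 0) : PeriodPair where
  ω₁ := 1
  ω₂ := tau t
  indep := by
    rw [LinearIndependent.pair_iff]
    intro a b h
    have h1 := congrArg Complex.im h
    have h2 := congrArg Complex.re h
    simp [tau] at h1 h2
    exact ⟨h2, h1.resolve_right ht⟩

section

variable {t : ℝ} {ht : t ≠ 0}

theorem mem_La {z : ℂ} : z ∈ (La t ht).lattice ↔ ∃ m n : ℤ, (m : ℂ) * 1 + n * tau t = z :=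
  PeriodPair.mem_lattice

theorem La_conj : ∀ l ∈ (La t ht).lattice, (starRingEnd ℂ) l ∈ (La t ht).lattice := by
  intro l hl
  obtain ⟨m, n, rfl⟩ := mem_La.1 hl
  have h3 : (starRingEnd ℂ) (tau t) = -tau t := by
    apply Complex.ext
    · simp [tau]
    · simp [tau]
  refine mem_La.2 ⟨m, -n, ?_⟩
  rw [map_add, map_mul, map_mul, h3, map_one, map_intCast, map_intCast]
  push_cast
  ring

theorem La_real (n : ℕ) : (La t ht).G n = (((La t ht).G n).re : ℂ) :=
  real_of_conj (G_conj _ La_conj n)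

/-- parity of coordinates -/
theorem half_mem {a b : ℤ} (h : (a : ℂ) / 2 + b * tau t / 2 ∈ (La t ht).lattice) :
    2 ∣ a ∧ 2 ∣ b := by
  obtain ⟨m, n, h⟩ := mem_La.1 h
  have h1 := congrArg Complex.im h
  have h2 := congrArg Complex.re h
  simp [tau] at h1 h2
  have e1 : ((2 * n - b : ℤ) : ℝ) * t = 0 := by
    push_cast
    linarith
  have e2 : (2 * n - b : ℤ) = 0 := by
    have := (mul_eq_zero.1 e1).resolve_right ht
    exact_mod_cast this
  have e3 : ((2 * m - a : ℤ) : ℝ) = 0 := by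
    push_cast
    linarith
  have e4 : (2 * m - a : ℤ) = 0 := by exact_mod_cast e3
  exact ⟨⟨m, by omega⟩, ⟨n, by omega⟩⟩

theorem La_halves : Halves (La t ht) (1 / 2) (tau t / 2) := by
  refine ⟨mem_La.2 ⟨1, 0, by push_cast; ring⟩, mem_La.2 ⟨0, 1, by push_cast; ring⟩, ?_, ?_, ?_⟩
  · intro h
    have := (half_mem (a := 1) (b := 0) (by simpa using h)).1
    omega
  · intro h
    have := (half_mem (a := 0) (b := 1) (by simpa using h)).2
    omega
  · intro h
    have := (half_mem (a := 1) (b := 1) (by simpa using h)).2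
    omega

end

theorem G_eq (t : ℝ) (ht : t ≠ 0) (k : ℕ) : (La t ht).G k =
    ∑' p : ℤ × ℤ, (((p.1 : ℂ) + p.2 * tau t) ^ k)⁻¹ := by
  rw [PeriodPair.G, ← (La t ht).latticeEquivProd.symm.toEquiv.tsum_eq]
  refine tsum_congr fun p => ?_
  have h := (La t ht).latticeEquiv_symm_apply p
  change ((((La t ht).latticeEquivProd.symm p).1) ^ k)⁻¹ = _
  rw [h]
  simp [La]

theorem G_summable (t : ℝ) (ht : t ≠ 0) (k : ℕ) (hk : 2 < k) :
    Summable (fun p : ℤ × ℤ => (((p.1 : ℂ) + p.2 * tau t) ^ k)⁻¹) := by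
  have h := ((La t ht).hasSum_sumInvPow 0 hk).summable
  rw [← (La t ht).latticeEquivProd.symm.toEquiv.summable_iff] at h
  refine h.congr fun p => ?_
  have h1 := (La t ht).latticeEquiv_symm_apply p
  change ((((La t ht).latticeEquivProd.symm p).1 - 0) ^ k)⁻¹ = _
  rw [h1]
  simp [La]

theorem sq_norm_pt (m n : ℤ) (t : ℝ) :
    ‖(m : ℂ) + n * tau t‖ ^ 2 = (m : ℝ) ^ 2 + ((n : ℝ) * t) ^ 2 := by
  rw [← Complex.normSq_eq_norm_sq, Complex.normSq_apply]
  simp [tau]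
  ring

theorem pt_ne {m n : ℤ} {t : ℝ} (ht : t ≠ 0) (h : (m, n) ≠ (0, 0)) :
    (m : ℂ) + n * tau t ≠ 0 := by
  intro h0
  have h1 := sq_norm_pt m n t
  rw [h0, norm_zero] at h1
  have h2 : (m : ℝ) ^ 2 = 0 ∧ ((n : ℝ) * t) ^ 2 = 0 := by
    constructor <;> nlinarith [sq_nonneg (m : ℝ), sq_nonneg ((n : ℝ) * t)]
  have h3 : (n : ℝ) = 0 := by
    have := pow_eq_zero_iff (two_ne_zero) |>.1 h2.2
    exact (mul_eq_zero.1 this).resolve_right ht
  have h4 : (m : ℝ) = 0 := pow_eq_zero_iff (two_ne_zero) |>.1 h2.1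
  apply h
  rw [Prod.mk.injEq]
  exact ⟨by exact_mod_cast h4, by exact_mod_cast h3⟩

theorem bound (k : ℕ) (m n : ℤ) {t : ℝ} (ht : 1 ≤ t) :
    ‖(((m : ℂ) + n * tau t) ^ k)⁻¹‖ ≤ ‖(((m : ℂ) + n * tau 1) ^ k)⁻¹‖ := by
  by_cases h : (m, n) = (0, 0)
  · rw [Prod.mk.injEq] at h
    obtain ⟨rfl, rfl⟩ := h
    simp
  · rw [norm_inv, norm_inv, norm_pow, norm_pow]
    have h1 : 0 < ‖(m : ℂ) + n * tau 1‖ := norm_pos_iff.2 (pt_ne one_ne_zero h)
    apply inv_anti₀ (pow_pos h1 k)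
    apply pow_le_pow_left₀ h1.le
    apply le_of_sq_le_sq _ (norm_nonneg _)
    rw [sq_norm_pt, sq_norm_pt]
    have h4 : ((n : ℝ) * 1) ^ 2 ≤ ((n : ℝ) * t) ^ 2 := by
      rw [mul_pow, mul_pow]
      exact mul_le_mul_of_nonneg_left (by nlinarith) (sq_nonneg _)
    linarith

/-- continuity -/
theorem G_cont (k : ℕ) (hk : 2 < k) : ContinuousOn
    (fun t : ℝ => ∑' p : ℤ × ℤ, (((p.1 : ℂ) + p.2 * tau t) ^ k)⁻¹) (Ici 1) := by
  refine continuousOn_tsum (u := fun p : ℤ × ℤ => ‖(((p.1 : ℂ) + p.2 * tau 1) ^ k)⁻¹‖) ?_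
    (G_summable 1 one_ne_zero k hk).norm ?_
  · rintro ⟨m, n⟩
    by_cases h : (m, n) = (0, 0)
    · rw [Prod.mk.injEq] at h
      obtain ⟨rfl, rfl⟩ := h
      simpa using continuousOn_const
    · have hc : Continuous tau := by
        have : tau = fun t : ℝ => t * Complex.I := funext tau_eq
        rw [this]
        fun_prop
      apply ContinuousOn.inv₀
      · fun_prop
      · intro t ht
        apply pow_ne_zero
        have ht' : (1 : ℝ) ≤ t := ht
        exact pt_ne (by linarith) h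
  · rintro ⟨m, n⟩ t ht
    exact bound k m n ht

/-- the limit for large imaginary part -/
theorem G_lim (k : ℕ) (hk : 2 < k) : Tendsto
    (fun t : ℝ => ∑' p : ℤ × ℤ, (((p.1 : ℂ) + p.2 * tau t) ^ k)⁻¹) atTop
    (𝓝 (∑' p : ℤ × ℤ, if p.2 = 0 then ((p.1 : ℂ) ^ k)⁻¹ else 0)) := by
  refine tendsto_tsum_of_dominated_convergence
    (bound := fun p : ℤ × ℤ => ‖(((p.1 : ℂ) + p.2 * tau 1) ^ k)⁻¹‖)
    (G_summable 1 one_ne_zero k hk).norm ?_ ?_
  · rintro ⟨m, n⟩
    simp only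
    by_cases hn : n = 0
    · subst hn
      simp
    · rw [if_neg hn]
      rw [tendsto_zero_iff_norm_tendsto_zero]
      have h1 : Tendsto (fun t : ℝ => (t ^ k)⁻¹) atTop (𝓝 0) :=
        tendsto_inv_atTop_zero.comp (tendsto_pow_atTop (by omega))
      refine squeeze_zero' (Eventually.of_forall fun t => norm_nonneg _) ?_ h1
      filter_upwards [eventually_ge_atTop 1] with t ht
      rw [norm_inv, norm_pow]
      apply inv_anti₀ (by positivity)
      apply pow_le_pow_left₀ (by positivity)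
      apply le_of_sq_le_sq _ (norm_nonneg _)
      rw [sq_norm_pt]
      have h2 : (1 : ℝ) ≤ (n : ℝ) ^ 2 := by
        have : (1 : ℤ) ≤ n ^ 2 := by
          have := sq_pos_of_ne_zero hn
          omega
        exact_mod_cast this
      nlinarith [sq_nonneg (m : ℝ), sq_nonneg t]
  · filter_upwards [eventually_ge_atTop 1] with t ht
    rintro ⟨m, n⟩
    exact bound k m n ht

theorem lim_eq (k : ℕ) : (∑' p : ℤ × ℤ, if p.2 = 0 then ((p.1 : ℂ) ^ k)⁻¹ else 0) =
    ((∑' m : ℤ, ((m : ℝ) ^ k)⁻¹ : ℝ) : ℂ) := by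
  rw [Complex.ofReal_tsum]
  have hinj : Function.Injective (fun m : ℤ => ((m, 0) : ℤ × ℤ)) := by
    intro a b h
    simpa using h
  rw [← hinj.tsum_eq]
  · refine tsum_congr fun m => ?_
    simp
  · rintro ⟨m, n⟩ h
    rw [Function.mem_support] at h
    by_cases hn : n = 0
    · subst hn
      exact ⟨m, rfl⟩
    · simp [hn] at h

theorem A4_le : (∑' m : ℤ, ((m : ℝ) ^ 4)⁻¹) ≤ 5 / 2 := by
  have h1 : HasSum (fun n : ℕ => (((n + 1 : ℕ) : ℝ) ^ 4)⁻¹) (Real.pi ^ 4 / 90) := by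
    have h := (hasSum_nat_add_iff' (f := fun n : ℕ => (1 : ℝ) / (n : ℝ) ^ 4) 1).2 hasSum_zeta_four
    simpa using h
  have h2 : HasSum (fun m : ℤ => ((m : ℝ) ^ 4)⁻¹) (Real.pi ^ 4 / 90 + (((0 : ℤ) : ℝ) ^ 4)⁻¹ +
      Real.pi ^ 4 / 90) := by
    apply HasSum.of_add_one_of_neg_add_one
    · refine h1.congr_fun ?_ |> id
      intro n
      push_cast
      rfl
    · refine h1.congr_fun ?_ |> id
      intro n
      push_cast
      congr 1
      ring
  rw [h2.tsum_eq]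
  have h3 := Real.pi_lt_d2
  have h4 : Real.pi ^ 4 ≤ 3.15 ^ 4 := pow_le_pow_left₀ Real.pi_pos.le h3.le 4
  norm_num at h4 ⊢
  linarith

theorem A6_ge : 2 ≤ (∑' m : ℤ, ((m : ℝ) ^ 6)⁻¹) := by
  have h1 : Summable (fun m : ℤ => ((m : ℝ) ^ 6)⁻¹) := by
    have := (Real.summable_one_div_int_pow (p := 6)).2 (by norm_num)
    simpa using this
  have h2 := h1.sum_le_tsum ({1, -1} : Finset ℤ) (fun m _ => by positivity)
  rw [Finset.sum_pair (by norm_num)] at h2
  norm_num at h2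
  exact h2

/-- the square lattice -/
theorem G6_one : (La 1 one_ne_zero).G 6 = 0 := by
  have h := G_mul (La 1 one_ne_zero) Complex.I 4 Complex.I_pow_four (by norm_num) (by
    intro l hl
    obtain ⟨m, n, rfl⟩ := mem_La.1 hl
    refine mem_La.2 ⟨-n, m, ?_⟩
    rw [tau_eq]
    push_cast
    linear_combination (-(n : ℂ)) * Complex.I_sq) 6
  have e : Complex.I ^ 6 = -1 := by
    calc Complex.I ^ 6 = (Complex.I ^ 2) ^ 3 := by ring
      _ = -1 := by rw [Complex.I_sq]; norm_num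
  rw [e] at h
  linear_combination (-1 / 2 : ℂ) * h

theorem G4_one : 0 < ((La 1 one_ne_zero).G 4).re :=
  G4_sq_pos (La 1 one_ne_zero) rfl (by
    change tau 1 = Complex.I
    rw [tau_eq]
    simp)

/-- the invariants as real functions -/
noncomputable def g2f (t : ℝ) : ℝ := 60 * (∑' p : ℤ × ℤ, (((p.1 : ℂ) + p.2 * tau t) ^ 4)⁻¹).re

/-- the invariants as real functions -/
noncomputable def g3f (t : ℝ) : ℝ := 140 * (∑' p : ℤ × ℤ, (((p.1 : ℂ) + p.2 * tau t) ^ 6)⁻¹).re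

theorem g2_eq (t : ℝ) (ht : t ≠ 0) : (La t ht).g₂ = (g2f t : ℂ) := by
  rw [PeriodPair.g₂, La_real 4, G_eq, g2f]
  push_cast
  rfl

theorem g3_eq (t : ℝ) (ht : t ≠ 0) : (La t ht).g₃ = (g3f t : ℂ) := by
  rw [PeriodPair.g₃, La_real 6, G_eq, g3f]
  push_cast
  rfl

theorem g2_lim : Tendsto g2f atTop (𝓝 (60 * ∑' m : ℤ, ((m : ℝ) ^ 4)⁻¹)) := by
  have h := (Complex.continuous_re.tendsto _).comp (G_lim 4 (by norm_num))
  rw [lim_eq, Complex.ofReal_re] at h
  exact h.const_mul 60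

theorem g3_lim : Tendsto g3f atTop (𝓝 (140 * ∑' m : ℤ, ((m : ℝ) ^ 6)⁻¹)) := by
  have h := (Complex.continuous_re.tendsto _).comp (G_lim 6 (by norm_num))
  rw [lim_eq, Complex.ofReal_re] at h
  exact h.const_mul 140

theorem exists_t : ∃ t : ℝ, 0 < t ∧
    g2f t ^ 3 * (4879 / 216) ^ 2 - (481 / 12) ^ 3 * g3f t ^ 2 = 0 := by
  have hc4 := G_cont 4 (by norm_num)
  have hc6 := G_cont 6 (by norm_num)
  have hg2 : ContinuousOn g2f (Ici 1) :=
    (Complex.continuous_re.comp_continuousOn hc4).const_mul 60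
  have hg3 : ContinuousOn g3f (Ici 1) :=
    (Complex.continuous_re.comp_continuousOn hc6).const_mul 140
  set φ : ℝ → ℝ := fun t => g2f t ^ 3 * (4879 / 216) ^ 2 - (481 / 12) ^ 3 * g3f t ^ 2 with hφd
  have hφ : ContinuousOn φ (Ici 1) := by
    rw [hφd]
    fun_prop
  have h1 : 0 < g2f 1 := by
    have h := G4_one
    rw [G_eq] at h
    unfold g2f
    linarith
  have h2 : g3f 1 = 0 := by
    have h := G6_one
    rw [G_eq] at h
    unfold g3f
    rw [h]
    simp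
  have h3 : 0 < φ 1 := by
    simp only [hφd]
    rw [h2]
    have : 0 < g2f 1 ^ 3 := by positivity
    nlinarith
  set A := ∑' m : ℤ, ((m : ℝ) ^ 4)⁻¹ with hA
  set B := ∑' m : ℤ, ((m : ℝ) ^ 6)⁻¹ with hB
  have hA0 : 0 ≤ A := tsum_nonneg fun m => by positivity
  have hA1 := A4_le
  have hB1 := A6_ge
  rw [← hA] at hA1
  rw [← hB] at hB1
  have hlim : Tendsto φ atTop
      (𝓝 ((60 * A) ^ 3 * (4879 / 216) ^ 2 - (481 / 12) ^ 3 * (140 * B) ^ 2)) :=
    ((g2_lim.pow 3).mul_const _).sub ((g3_lim.pow 2).const_mul _)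
  have hneg : (60 * A) ^ 3 * (4879 / 216) ^ 2 - (481 / 12) ^ 3 * (140 * B) ^ 2 < 0 := by
    have e1 : (60 * A) ^ 3 ≤ 150 ^ 3 := pow_le_pow_left₀ (by positivity) (by linarith) 3
    have e2 : (280 : ℝ) ^ 2 ≤ (140 * B) ^ 2 := pow_le_pow_left₀ (by norm_num) (by linarith) 2
    norm_num at e1 e2 ⊢
    linarith
  have hev := hlim.eventually (gt_mem_nhds hneg)
  obtain ⟨T, hT, hT1⟩ := (hev.and (eventually_ge_atTop 1)).exists
  have h5 := intermediate_value_Icc' hT1 (hφ.mono fun x hx => hx.1)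
  obtain ⟨t, ht, hφt⟩ := h5 ⟨hT.le, h3.le⟩
  exact ⟨t, by have := ht.1; linarith, hφt⟩

end LATP

open LATP

/-- the period lattice is rectangular -/
theorem t_LAT : S_LAT := by
  obtain ⟨t, ht, hφ⟩ := exists_t
  have htn := ht.ne'
  set a := g2f t with ha
  set b := g3f t with hb
  have hg2 := g2_eq t htn
  have hg3 := g3_eq t htn
  rw [← ha] at hg2
  rw [← hb] at hg3
  have hnb : ¬ (a = 0 ∧ b = 0) := by
    rintro ⟨h1, h2⟩
    apply not_both (La_halves (t := t) (ht := htn))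
    rw [hg2, hg3, h1, h2]
    simp
  have hb0 : b ≠ 0 := by
    intro h
    apply hnb
    refine ⟨?_, h⟩
    rw [h] at hφ
    have : a ^ 3 = 0 := by linarith
    exact pow_eq_zero_iff (by norm_num) |>.1 this
  have ha0 : a ≠ 0 := by
    intro h
    apply hnb
    refine ⟨h, ?_⟩
    rw [h] at hφ
    have : b ^ 2 = 0 := by linarith
    exact pow_eq_zero_iff (by norm_num) |>.1 this
  set μ : ℝ := (4879 / 216 / b) / (481 / 12 / a) with hμ
  have hμ0 : μ ≠ 0 := by
    rw [hμ]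
    positivity
  have hcu : (481 / 12 : ℝ) ^ 3 * b ^ 2 = (4879 / 216) ^ 2 * a ^ 3 := by linarith
  have hR : μ * b * (481 / 12) = 4879 / 216 * a := by
    rw [hμ]
    field_simp
  have hb2 : b ^ 2 ≠ 0 := pow_ne_zero _ hb0
  have hμ2 : μ ^ 2 * a = 481 / 12 := by
    have h1 : (b ^ 2 * (481 / 12) ^ 2) * (μ ^ 2 * a) = (b ^ 2 * (481 / 12) ^ 2) * (481 / 12) := by
      linear_combination (μ * b * (481 / 12) + 4879 / 216 * a) * a * hR - hcu
    exact mul_left_cancel₀ (mul_ne_zero hb2 (by norm_num)) h1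
  have hμ3 : μ ^ 3 * b = 4879 / 216 := by
    have h1 : (b ^ 2 * (481 / 12) ^ 3) * (μ ^ 3 * b) =
        (b ^ 2 * (481 / 12) ^ 3) * (4879 / 216) := by
      linear_combination ((μ * b * (481 / 12)) ^ 2 + (μ * b * (481 / 12)) * (4879 / 216 * a) +
        (4879 / 216 * a) ^ 2) * hR - (4879 / 216) * hcu
    exact mul_left_cancel₀ (mul_ne_zero hb2 (by norm_num)) h1
  have hμ2' : (μ : ℂ) ^ 2 * a = 481 / 12 := by
    rw [← Complex.ofReal_pow, ← Complex.ofReal_mul, hμ2]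
    norm_num
  have hμ3' : (μ : ℂ) ^ 3 * b = 4879 / 216 := by
    rw [← Complex.ofReal_pow, ← Complex.ofReal_mul, hμ3]
    norm_num
  rcases lt_or_gt_of_ne hμ0 with hneg | hpos
  · obtain ⟨s, hs, hs2⟩ : ∃ s : ℝ, 0 < s ∧ s ^ 2 * (-μ) = 1 := by
      refine ⟨(√(-μ))⁻¹, inv_pos.2 (Real.sqrt_pos.2 (by linarith)), ?_⟩
      rw [inv_pow, Real.sq_sqrt (by linarith), inv_mul_cancel₀ (by linarith)]
    have hs2' : (s : ℂ) ^ 2 * (-μ) = 1 := by exact_mod_cast hs2
    have hs0 : (s : ℂ) ≠ 0 := by exact_mod_cast hs.ne'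
    have hlam : (s : ℂ) * Complex.I ≠ 0 := mul_ne_zero hs0 Complex.I_ne_zero
    have h4 : ((s : ℂ) * Complex.I) ^ 4 * μ ^ 2 = 1 := by
      rw [mul_pow, Complex.I_pow_four]
      linear_combination (-(s : ℂ) ^ 2 * μ + 1) * hs2'
    have h6 : ((s : ℂ) * Complex.I) ^ 6 * μ ^ 3 = 1 := by
      have e : Complex.I ^ 6 = -1 := by
        calc Complex.I ^ 6 = (Complex.I ^ 2) ^ 3 := by ring
          _ = -1 := by rw [Complex.I_sq]; norm_num
      rw [mul_pow, e]
      linear_combination (((s : ℂ) ^ 2 * (-μ)) ^ 2 + (s : ℂ) ^ 2 * (-μ) + 1) * hs2'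
    refine ⟨scale (La t htn) ((s : ℂ) * Complex.I) hlam, s * t, s, by positivity, hs, ?_, ?_, ?_⟩
    · rw [scale_g2, hg2, ← hμ2', inv_eq_of_mul_eq_one_right h4]
    · rw [scale_g3, hg3, ← hμ3', inv_eq_of_mul_eq_one_right h6]
    · intro w
      rw [PeriodPair.mem_lattice]
      simp only [scale, La, tau_eq]
      constructor
      · rintro ⟨m, n, rfl⟩
        refine ⟨-n, m, ?_⟩
        push_cast
        linear_combination (n : ℂ) * s * t * Complex.I_sq
      · rintro ⟨x, y, rfl⟩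
        refine ⟨y, -x, ?_⟩
        push_cast
        linear_combination -(x : ℂ) * s * t * Complex.I_sq
  · obtain ⟨s, hs, hs2⟩ : ∃ s : ℝ, 0 < s ∧ s ^ 2 * μ = 1 := by
      refine ⟨(√μ)⁻¹, inv_pos.2 (Real.sqrt_pos.2 hpos), ?_⟩
      rw [inv_pow, Real.sq_sqrt hpos.le, inv_mul_cancel₀ hμ0]
    have hs2' : (s : ℂ) ^ 2 * μ = 1 := by exact_mod_cast hs2
    have hs0 : (s : ℂ) ≠ 0 := by exact_mod_cast hs.ne'
    have h4 : (s : ℂ) ^ 4 * μ ^ 2 = 1 := by
      linear_combination ((s : ℂ) ^ 2 * μ + 1) * hs2'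
    have h6 : (s : ℂ) ^ 6 * μ ^ 3 = 1 := by
      linear_combination (((s : ℂ) ^ 2 * μ) ^ 2 + (s : ℂ) ^ 2 * μ + 1) * hs2'
    refine ⟨scale (La t htn) (s : ℂ) hs0, s, s * t, hs, by positivity, ?_, ?_, ?_⟩
    · rw [scale_g2, hg2, ← hμ2', inv_eq_of_mul_eq_one_right h4]
    · rw [scale_g3, hg3, ← hμ3', inv_eq_of_mul_eq_one_right h6]
    · intro w
      rw [PeriodPair.mem_lattice]
      simp only [scale, La, tau_eq]
      constructor
      · rintro ⟨m, n, rfl⟩
        refine ⟨m, n, ?_⟩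
        push_cast
        ring
      · rintro ⟨x, y, rfl⟩
        refine ⟨x, y, ?_⟩
        push_cast
        ring

end Pool.Agent.H757_X15
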