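import Pool.Agent.H757_X15.StmA
import Pool.Agent.Helper620.Wg.KI
import Pool.Agent.Helper487.ECM.One

/-!
The points of order two and four of `X_0(15)`.
-/

set_option autoImplicit false

namespace Pool.Agent.H757_X15

open Pool.Agent.Helper487.ECM

theorem dwp_zero (L : PeriodPair) (w : ℂ) (h2 : 2 * w ∈ L.lattice) :
    L.derivWeierstrassP w = 0 := by
  have h := L.derivWeierstrassP_add_coe (-w) ⟨2 * w, h2⟩
  have e : -w + 2 * w = w := by ring
  simp only [e, L.derivWeierstrassP_neg] at h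
  have h3 : 2 * L.derivWeierstrassP w = 0 := by linear_combination h
  exact (mul_eq_zero.1 h3).resolve_left two_ne_zero

/-- duplication of a point with `℘'(u)² = Y² ≠ 0` -/
theorem dup_aux (L : PeriodPair) (hg2 : L.g₂ = 481 / 12) (hg3 : L.g₃ = 4879 / 216) (u x Y : ℂ)
    (hu : u ∉ L.lattice) (hP : L.weierstrassP u = x)
    (hY : 4 * x ^ 3 - 481 / 12 * x - 4879 / 216 = Y ^ 2) (hY0 : Y ≠ 0)
    (hd : (6 * x ^ 2 - 481 / 24) ^ 2 = 4 * Y ^ 2 * (2 * x + 41 / 12)) :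
    2 * u ∉ L.lattice ∧ L.weierstrassP (2 * u) = 41 / 12 := by
  have hu' : u ∈ Dom L := hu
  have hY1 : L.derivWeierstrassP u ^ 2 = Y ^ 2 := by
    rw [L.derivWeierstrassP_sq u hu, hP, hg2, hg3, ← hY]
  have hY1ne : L.derivWeierstrassP u ≠ 0 := by
    intro h; rw [h] at hY1
    apply hY0
    have : Y ^ 2 = 0 := by rw [← hY1]; norm_num
    exact pow_eq_zero_iff (two_ne_zero) |>.1 this
  have h2u : 2 * u ∉ L.lattice := fun h => hY1ne (dwp_zero L u h)
  have h2u' : u + u ∈ Dom L := by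
    show u + u ∉ L.lattice
    rw [← two_mul]; exact h2u
  refine ⟨h2u, ?_⟩
  have h := wp_dup L hu' h2u' (by rw [wp_one_eq]; exact hY1ne)
  rw [wp_two L hu', wp_one_eq, wp_zero_eq, hP, hg2, ← two_mul] at h
  rw [h, div_pow, mul_pow, hY1]
  have hY2 : Y ^ 2 ≠ 0 := pow_ne_zero 2 hY0
  have e : (6 * x ^ 2 - 481 / 12 / 2) ^ 2 = 4 * Y ^ 2 * (2 * x + 41 / 12) := by
    rw [← hd]; ring
  rw [e]
  field_simp
  ring

theorem two_mem (L : PeriodPair) (hg2 : L.g₂ = 481 / 12) (hg3 : L.g₃ = 4879 / 216) (u x : ℂ)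
    (hu : u ∉ L.lattice) (hP : L.weierstrassP u = x)
    (hY : 4 * x ^ 3 - 481 / 12 * x - 4879 / 216 = 0) : 2 * u ∈ L.lattice := by
  by_contra h6
  have h := Wg.wpd_ne L u h6
  apply h
  have hsq := L.derivWeierstrassP_sq _ hu
  rw [hP, hg2, hg3, hY] at hsq
  exact pow_eq_zero_iff (two_ne_zero) |>.1 hsq

theorem t_TORS : S_TORS := by
  intro L hg2 hg3
  refine ⟨?_, ?_, ?_⟩
  · intro u hu hP
    obtain ⟨h1, h2⟩ := dup_aux L hg2 hg3 u (101 / 12) 45 hu hP (by norm_num) (by norm_num)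
      (by norm_num)
    refine ⟨h1, h2, ?_⟩
    have := two_mem L hg2 hg3 (2 * u) (41 / 12) h1 h2 (by norm_num)
    rwa [show 2 * (2 * u) = 4 * u by ring] at this
  · intro u hu hP
    obtain ⟨h1, h2⟩ := dup_aux L hg2 hg3 u (-19 / 12) 5 hu hP (by norm_num) (by norm_num)
      (by norm_num)
    have := two_mem L hg2 hg3 (2 * u) (41 / 12) h1 h2 (by norm_num)
    rwa [show 2 * (2 * u) = 4 * u by ring] at this
  · intro u hu hP
    exact two_mem L hg2 hg3 u (-7 / 12) hu hP (by norm_num)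

end Pool.Agent.H757_X15
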