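import Pool.Agent.H757_X15.MT.Rat15
import Pool.Agent.H757_X15.MT.TORS
import Pool.Agent.H757_X15.MT.CP
import Pool.Agent.W97.MT.Asm

/-!
The elliptic curve `X_0(15)`: `℘(F) = X1 - 7/12` (after `W97.MT.Lat`).
-/

set_option autoImplicit false

open Filter Topology Set

namespace Pool.Agent.H757_X15

open Pool.Agent.W97.TW (Q Q_diff)
open Pool.Agent.W97.MT (qq iI iI_pos iI_eventually QV S_QEXP S_ODE S_INJ exists_qq wA wA_same wA_eq
  wA_analytic H_open hasDerivAt_qq tendsto_qq qq_ne norm_qq_lt tpi_ne Qd_diff Q_ne Q_ne_pow)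

lemma xi_diffAt {q : ℂ} (hq : ‖q‖ < 1) : DifferentiableAt ℂ xi q := by
  have hb : q ∈ Metric.ball (0 : ℂ) 1 := by simpa using hq
  have hm := Metric.isOpen_ball.mem_nhds hb
  have e1 := Q_diff.differentiableAt hm
  have e3 := (Qd_diff 3 (by norm_num)).differentiableAt hm
  have e5 := (Qd_diff 5 (by norm_num)).differentiableAt hm
  have e15 := (Qd_diff 15 (by norm_num)).differentiableAt hm
  exact (((e1.inv (Q_ne hq)).mul e3).mul (e5.pow 5)).mul
    ((e15.pow 5).inv (pow_ne_zero _ (Q_ne_pow hq (by norm_num))))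

lemma xi_analytic : AnalyticAt ℂ xi 0 := by
  have : DifferentiableOn ℂ xi (Metric.ball 0 1) := fun q hq =>
    (xi_diffAt (by simpa using hq)).differentiableWithinAt
  exact this.analyticAt (Metric.ball_mem_nhds _ one_pos)

/-- the differential equation in `q` -/
lemma q_deriv (hcp : S_CP) (hq : S_QEXP) {z : ℂ} (hz : 0 < z.im) :
    qq z * deriv (fun t => xi t / t ^ 2) (qq z) = qq z * phi (qq z) * RR z := by
  have hq0 := qq_ne z
  have hd : DifferentiableAt ℂ (fun t => xi t / t ^ 2) (qq z) :=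
    (xi_diffAt (norm_qq_lt hz)).div (by fun_prop) (pow_ne_zero 2 hq0)
  have h1 := hd.hasDerivAt.comp z (hasDerivAt_qq z)
  have h2 : X1 =ᶠ[𝓝 z] (fun t => xi t / t ^ 2) ∘ qq := by
    filter_upwards [H_open.mem_nhds hz] with w hw
    exact X1_q hw
  have h3 := (h1.congr_of_eventuallyEq h2).deriv
  rw [deriv_X1 hcp hq hz, ff_q] at h3
  have h4 : (2 * Real.pi * Complex.I) * (qq z * phi (qq z) * RR z) =
    (2 * Real.pi * Complex.I) * (qq z * deriv (fun t => xi t / t ^ 2) (qq z)) := by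
    linear_combination h3
  exact (mul_left_cancel₀ tpi_ne h4).symm

section lattice

variable (hcp : S_CP) (hq : S_QEXP) (hode : S_ODE) (L : PeriodPair) (g2 : L.g₂ = 481 / 12)
  (g3 : L.g₃ = 4879 / 216)
include hcp hq hode g2 g3

lemma near_inf : ∀ᶠ z in iI, F z ∉ L.lattice ∧ L.weierstrassP (F z) = X1 z + (-7 / 12) := by
  have hα : AnalyticAt ℂ (fun q => xi q + (-7 / 12) * q ^ 2) 0 := by
    have := xi_analytic
    fun_prop
  have h := hode L Phi (fun q => xi q + (-7 / 12) * q ^ 2) Phi_analytic hα Phi_zero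
    (by rw [(Phi_deriv (by simp : ‖(0 : ℂ)‖ < 1)).deriv, phi_zero]) (by simp [xi_zero]) ?_
  · rw [eventually_nhdsWithin_iff] at h
    have h1 := tendsto_qq.eventually h
    filter_upwards [h1, iI_pos] with z hz hp
    obtain ⟨h2, h3⟩ := hz (qq_ne z)
    refine ⟨h2, h3.trans ?_⟩
    rw [X1_q hp]
    have := qq_ne z
    field_simp
  · rw [eventually_nhdsWithin_iff]
    filter_upwards [Metric.ball_mem_nhds (0 : ℂ) one_pos] with q hq1 hq0
    have hq1' : ‖q‖ < 1 := by simpa using hq1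
    have hq0' : q ≠ 0 := hq0
    obtain ⟨z, hz, rfl⟩ := exists_qq hq1' hq0'
    have e : (fun t => (xi t + (-7 / 12) * t ^ 2) / t ^ 2) =ᶠ[𝓝 (qq z)]
        (fun t => xi t / t ^ 2 + (-7 / 12)) := by
      filter_upwards [isOpen_compl_singleton.mem_nhds hq0'] with t ht
      have ht' : t ≠ 0 := ht
      field_simp
    rw [e.deriv_eq, deriv_add_const, q_deriv hcp hq hz, (Phi_deriv hq1').deriv]
    have h1 := RR_sq hcp hq hz
    have h2 : (xi (qq z) + (-7 / 12) * qq z ^ 2) / qq z ^ 2 = X1 z + (-7 / 12) := by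
      rw [X1_q hz]; field_simp
    rw [h2, g2, g3]
    linear_combination (qq z * phi (qq z)) ^ 2 * h1

omit hcp hq hode g2 g3 in
lemma F_cont : ContinuousOn F {z : ℂ | 0 < z.im} := fun _ hz =>
  (F_diff hz).continuousAt.continuousWithinAt

omit hcp hq hode g2 g3 in
lemma F_analytic {z : ℂ} (hz : 0 < z.im) : AnalyticAt ℂ F z :=
  (show DifferentiableOn ℂ F {z : ℂ | 0 < z.im} from
    fun _w hw => (F_diff hw).differentiableWithinAt).analyticAt (H_open.mem_nhds hz)

omit hcp hq hode g2 g3 in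
lemma X1_analytic {z : ℂ} (hz : 0 < z.im) : AnalyticAt ℂ X1 z :=
  (show DifferentiableOn ℂ X1 {z : ℂ | 0 < z.im} from
    fun _w hw => (X1_diff hw).differentiableWithinAt).analyticAt (H_open.mem_nhds hz)

/-- the parametrisation -/
theorem wp_F : ∀ z : ℂ, 0 < z.im →
    F z ∉ L.lattice ∧ L.weierstrassP (F z) = X1 z + (-7 / 12) := by
  set V : Set ℂ := {z : ℂ | 0 < z.im} ∩
    {z : ℂ | ∀ᶠ w in 𝓝 z, F w ∉ L.lattice ∧ L.weierstrassP (F w) = X1 w + (-7 / 12)} with hV
  have hVo : IsOpen V := H_open.inter isOpen_setOfPred_eventually_nhds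
  have hne : ({z : ℂ | 0 < z.im} ∩ V).Nonempty := by
    obtain ⟨T, hT, h1⟩ := iI_eventually.1 (near_inf hcp hq hode L g2 g3)
    have him : 0 < (((T + 1 : ℝ) : ℂ) * Complex.I).im := by simp; linarith
    refine ⟨((T + 1 : ℝ) : ℂ) * Complex.I, him, him, ?_⟩
    have : {w : ℂ | T < w.im} ∈ 𝓝 (((T + 1 : ℝ) : ℂ) * Complex.I) :=
      (isOpen_lt continuous_const Complex.continuous_im).mem_nhds (by simp)
    filter_upwards [this] with w hw
    exact h1 w hw
  have hcl : closure V ∩ {z : ℂ | 0 < z.im} ⊆ V := by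
    rintro z0 ⟨hz0, him⟩
    have him' : 0 < z0.im := him
    refine ⟨him, ?_⟩
    by_cases hl : F z0 ∈ L.lattice
    · exfalso
      set O : Set ℂ := {z : ℂ | 0 < z.im} ∩ F ⁻¹' (((L.lattice : Set ℂ) \ {F z0})ᶜ) with hO
      have hOo : IsOpen O := F_cont.isOpen_inter_preimage H_open L.isOpen_compl_lattice_sdiff
      have hz0O : z0 ∈ O := ⟨him, by simp⟩
      obtain ⟨ε, hε, hball⟩ := Metric.isOpen_iff.1 hOo z0 hz0O
      obtain ⟨v, hvB, hvV⟩ := mem_closure_iff.1 hz0 _ Metric.isOpen_ball (Metric.mem_ball_self hε)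
      have hA : AnalyticOnNhd ℂ (fun w => wA L (F z0) (F w)) (Metric.ball z0 ε) := fun w hw =>
        (wA_analytic L (F z0) (hball hw).2).fun_comp (F_analytic (hball hw).1)
      have hB : AnalyticOnNhd ℂ (fun w => (F w - F z0) ^ 2 * (X1 w + (-7 / 12))) (Metric.ball z0 ε) :=
        fun w hw => by
          have h1 := F_analytic (hball hw).1
          have h2 := X1_analytic (hball hw).1
          fun_prop
      have heq : (fun w => wA L (F z0) (F w)) =ᶠ[𝓝 v] fun w => (F w - F z0) ^ 2 * (X1 w + (-7 / 12)) := by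
        filter_upwards [hvV.2] with w hw
        rw [wA_eq L hl (fun h => hw.1 (by rw [h]; exact hl)), hw.2]
      have h3 := hA.eqOn_of_preconnected_of_eventuallyEq hB
        (convex_ball z0 ε).isPreconnected hvB heq (Metric.mem_ball_self hε)
      simp only [wA_same, sub_self] at h3
      norm_num at h3
    · set O : Set ℂ := {z : ℂ | 0 < z.im} ∩ F ⁻¹' ((L.lattice : Set ℂ)ᶜ) with hO
      have hOo : IsOpen O := F_cont.isOpen_inter_preimage H_open L.isClosed_lattice.isOpen_compl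
      have hz0O : z0 ∈ O := ⟨him, hl⟩
      obtain ⟨ε, hε, hball⟩ := Metric.isOpen_iff.1 hOo z0 hz0O
      obtain ⟨v, hvB, hvV⟩ := mem_closure_iff.1 hz0 _ Metric.isOpen_ball (Metric.mem_ball_self hε)
      have hA : AnalyticOnNhd ℂ (fun w => L.weierstrassP (F w)) (Metric.ball z0 ε) := fun w hw =>
        (L.analyticOnNhd_weierstrassP (F w) (hball hw).2).fun_comp (F_analytic (hball hw).1)
      have hB : AnalyticOnNhd ℂ (fun w => X1 w + (-7 / 12)) (Metric.ball z0 ε) :=
        fun w hw => by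
          have h2 := X1_analytic (hball hw).1
          fun_prop
      have heq : (fun w => L.weierstrassP (F w)) =ᶠ[𝓝 v] fun w => X1 w + (-7 / 12) := by
        filter_upwards [hvV.2] with w hw
        exact hw.2
      have h3 := hA.eqOn_of_preconnected_of_eventuallyEq hB
        (convex_ball z0 ε).isPreconnected hvB heq
      filter_upwards [Metric.ball_mem_nhds z0 hε] with w hw
      exact ⟨(hball hw).2, h3 hw⟩
  have hsub := (convex_halfSpace_im_gt 0).isPreconnected.subset_of_closure_inter_subset hVo hne hcl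
  intro z hz
  exact (hsub hz).2.self_of_nhds

/-- the periods are in the lattice -/
theorem period_mem (hinj : S_INJ) {a b c d : ℤ} (h : a * d - b * (15 * c) = 1) {p : ℂ}
    (hp : ∀ z : ℂ, 0 < z.im → F ((a * z + b) / (15 * c * z + d)) = F z + p) :
    p ∈ L.lattice := by
  have hw := wp_F hcp hq hode L g2 g3
  by_contra hpL
  have h1 : ∀ z : ℂ, 0 < z.im → 2 * F z + p ∈ L.lattice := by
    intro z hz
    have hm := (G_gamma h hz).1
    obtain ⟨e1, e2⟩ := hw z hz
    obtain ⟨e3, e4⟩ := hw _ hm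
    rw [X1_inv hcp hq a b c d h z hz, ← e2] at e4
    rw [hp z hz] at e3 e4
    rcases hinj L _ _ e3 e1 e4 with h5 | h5
    · exact absurd (by simpa using h5) hpL
    · have : F z + p + F z = 2 * F z + p := by ring
      rwa [this] at h5
  have h2 : Tendsto (fun z => 2 * F z + p) iI (𝓝 (2 * 0 + p)) :=
    (F_QV.tendsto.const_mul 2).add_const p
  have h3 := L.isClosed_lattice.mem_of_tendsto h2 (iI_pos.mono fun z hz => h1 z hz)
  apply hpL
  simpa using h3

/-- the values at the cusps -/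
theorem cusp_value {m j : ℂ → ℂ} {x : ℂ} (h : IsCusp m j x) {C : ℂ}
    (hC : Tendsto (fun z => F (m z)) iI (𝓝 C)) :
    C ∉ L.lattice ∧ L.weierstrassP C = x + (-7 / 12) := by
  have hw := wp_F hcp hq hode L g2 g3
  have hX : Tendsto (fun z => X1 (m z) + (-7 / 12)) iI (𝓝 (x + (-7 / 12))) :=
    h.X.tendsto.add_const _
  have hCL : C ∉ L.lattice := by
    intro hCL
    have h1 : Tendsto (fun z => wA L C (F (m z))) iI (𝓝 (wA L C C)) :=
      (wA_analytic L C (by simp)).continuousAt.tendsto.comp hC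
    rw [wA_same] at h1
    have h2 : Tendsto (fun z => (F (m z) - C) ^ 2 * (X1 (m z) + (-7 / 12))) iI
        (𝓝 ((C - C) ^ 2 * (x + (-7 / 12)))) := ((hC.sub_const C).pow 2).mul hX
    have h3 : (fun z => wA L C (F (m z))) =ᶠ[iI] fun z => (F (m z) - C) ^ 2 * (X1 (m z) + (-7 / 12)) := by
      filter_upwards [iI_pos] with z hz
      obtain ⟨e1, e2⟩ := hw _ (h.pos z hz)
      rw [wA_eq L hCL (fun h => e1 (by rw [h]; exact hCL)), e2]
    have h4 := tendsto_nhds_unique (h1.congr' h3) h2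
    norm_num at h4
  refine ⟨hCL, ?_⟩
  have h1 : Tendsto (fun z => L.weierstrassP (F (m z))) iI (𝓝 (L.weierstrassP C)) :=
    (L.analyticOnNhd_weierstrassP C hCL).continuousAt.tendsto.comp hC
  refine tendsto_nhds_unique h1 (hX.congr' ?_)
  filter_upwards [iI_pos] with z hz
  exact (hw _ (h.pos z hz)).2.symm

omit hcp hq hode g2 g3 in
/-- limits at the cusps -/
lemma exists_limit {m j : ℂ → ℂ} (h : IsMap m j) :
    ∃ C : ℂ, Tendsto (fun z => F (m z)) iI (𝓝 C) := by
  obtain ⟨ε, C, -, -, h1⟩ := h.const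
  refine ⟨ε * 0 + C, (((F_QV.tendsto).const_mul ε).add_const C).congr' ?_⟩
  filter_upwards [iI_pos] with z hz
  rw [h1 z hz]

/-- all the integrals -/
theorem integrals (hinj : S_INJ) (htors : S_TORS) :
    2 * II 0 ∉ L.lattice ∧ (∀ r : ℚ, 4 * II r ∈ L.lattice) ∧
    (∀ r : ℚ, MeasureTheory.IntegrableOn (fun t : ℝ => ff ((r : ℂ) + t * Complex.I)) (Ioi 0)) ∧
    (∀ r : ℚ, ¬ (3 : ℤ) ∣ r.den → ¬ (5 : ℤ) ∣ r.den → II r - II 0 ∈ L.lattice) := by
  have c15 := isCusp15 hcp hq
  have c5 := isCusp5 hcp hq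
  have c3 := cusp3
  obtain ⟨C15, l15⟩ := exists_limit c15.map
  obtain ⟨C5, l5⟩ := exists_limit c5.map
  obtain ⟨C3, l3⟩ := exists_limit c3.map
  obtain ⟨n15, v15⟩ := cusp_value hcp hq hode L g2 g3 c15 l15
  obtain ⟨n5, v5⟩ := cusp_value hcp hq hode L g2 g3 c5 l5
  obtain ⟨n3, v3⟩ := cusp_value hcp hq hode L g2 g3 c3 l3
  obtain ⟨T1, T2, T3⟩ := htors L g2 g3
  have key : ∀ {m j : ℂ → ℂ} (_ : IsMap m j) {C : ℂ} (_ : Tendsto (fun z => F (m z)) iI (𝓝 C))
      (r : ℚ), Hit (r : ℂ) m → MeasureTheory.IntegrableOn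
        (fun t : ℝ => ff ((r : ℂ) + t * Complex.I)) (Ioi 0) ∧ II r - C ∈ L.lattice := by
    intro m j h C hC r hr
    obtain ⟨h1, a, b, c, d, hdet, p, hp, h2⟩ := hit_prim h hcp hq hC (by simp) hr
    refine ⟨h1, ?_⟩
    unfold II
    rw [h2, add_sub_cancel_left]
    exact period_mem hcp hq hode L g2 g3 hinj hdet hp
  have i0 := (key c15.map l15 0 (exists_hit_coprime 0 (by simp) (by simp))).2
  obtain ⟨t2, -, t4⟩ := T1 C15 n15 (by rw [v15]; norm_num)
  have t5 := T2 C5 n5 (by rw [v5]; norm_num)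
  have t3 := T3 C3 n3 (by rw [v3]; norm_num)
  have mul4 : ∀ {x : ℂ}, x ∈ L.lattice → 4 * x ∈ L.lattice := by
    intro x hx
    have := L.lattice.smul_mem (4 : ℤ) hx
    simpa using this
  have mul2 : ∀ {x : ℂ}, x ∈ L.lattice → 2 * x ∈ L.lattice := by
    intro x hx
    have := L.lattice.smul_mem (2 : ℤ) hx
    simpa using this
  refine ⟨?_, ?_, ?_, ?_⟩
  · intro h
    apply t2
    have := sub_mem h (mul2 i0)
    convert this using 1
    ring
  · intro r
    rcases exists_hit r with h | h | h | h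
    · have := add_mem (mul4 (key c15.map l15 r h).2) t4
      convert this using 1
      ring
    · have := add_mem (mul4 (key c5.map l5 r h).2) t5
      convert this using 1
      ring
    · have := add_mem (mul4 (key c3.map l3 r h).2) (mul2 t3)
      convert this using 1
      ring
    · have := mul4 (key idMap F_QV.tendsto r h).2
      convert this using 1
      ring
  · intro r
    rcases exists_hit r with h | h | h | h
    · exact (key c15.map l15 r h).1
    · exact (key c5.map l5 r h).1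
    · exact (key c3.map l3 r h).1
    · exact (key idMap F_QV.tendsto r h).1
  · intro r h3 h5
    have := sub_mem (key c15.map l15 r (exists_hit_coprime r h3 h5)).2 i0
    convert this using 1
    ring

end lattice

theorem t_INTEG : S_INTEG := fun L g2 g3 =>
  integrals t_CP Pool.Agent.W97.MT.hqe Pool.Agent.W97.MT.hode L g2 g3 Pool.Agent.W97.MT.hinj t_TORS

end Pool.Agent.H757_X15
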