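import Pool.Agent.H757_X15.StmA

set_option autoImplicit false
set_option linter.style.haveILetI false

namespace Pool.Agent.H757_X15

open WeierstrassCurve
open Pool.Agent.W97.MT (affCount ap IsGloballyMinimal)

theorem e15_eq (p : ℕ) (P : ZMod p × ZMod p) :
    (E15.map (Int.castRingHom (ZMod p))).toAffine.Equation P.1 P.2 ↔
      P.2 ^ 2 + P.1 * P.2 + P.2 = P.1 ^ 3 + P.1 ^ 2 - 10 * P.1 - 10 := by
  have ha1 : (E15.map (Int.castRingHom (ZMod p))).a₁ = 1 := by simp [E15]
  have ha2 : (E15.map (Int.castRingHom (ZMod p))).a₂ = 1 := by simp [E15]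
  have ha3 : (E15.map (Int.castRingHom (ZMod p))).a₃ = 1 := by simp [E15]
  have ha4 : (E15.map (Int.castRingHom (ZMod p))).a₄ = -10 := by simp [E15]
  have ha6 : (E15.map (Int.castRingHom (ZMod p))).a₆ = -10 := by simp [E15]
  rw [WeierstrassCurve.Affine.equation_iff, ha1, ha2, ha3, ha4, ha6]
  constructor <;> intro h <;> linear_combination h

theorem aff_eq (p : ℕ) [NeZero p] : affCount E15 p =
    (Finset.univ.filter (fun P : ZMod p × ZMod p =>
      P.2 ^ 2 + P.1 * P.2 + P.2 = P.1 ^ 3 + P.1 ^ 2 - 10 * P.1 - 10)).card := by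
  unfold affCount
  rw [Nat.card_congr (Equiv.subtypeEquivRight (e15_eq p)), Nat.card_eq_fintype_card,
    Fintype.card_subtype]

theorem delta15 : E15.Δ = 50625 := by
  simp [WeierstrassCurve.Δ, WeierstrassCurve.b₂, WeierstrassCurve.b₄, WeierstrassCurve.b₆,
    WeierstrassCurve.b₈, E15]

theorem min15 : IsGloballyMinimal E15 := by
  refine ⟨by rw [delta15]; norm_num, ?_⟩
  intro W' C h
  have h1 := congrArg WeierstrassCurve.Δ h
  rw [WeierstrassCurve.variableChange_Δ, WeierstrassCurve.map_Δ, WeierstrassCurve.map_Δ,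
    delta15] at h1
  set r : ℚ := ((C.u⁻¹ : ℚˣ) : ℚ) with hr
  have hr0 : r ≠ 0 := Units.ne_zero _
  have h2 : r ^ 12 * (50625) = (W'.Δ : ℚ) := by
    simpa using h1
  have h3 : (r.num : ℚ) ^ 12 * (50625) = (W'.Δ : ℚ) * (r.den : ℚ) ^ 12 := by
    have h4 : r = (r.num : ℚ) / (r.den : ℚ) := (Rat.num_div_den r).symm
    have hd : (r.den : ℚ) ≠ 0 := by exact_mod_cast r.den_nz
    have h5 : (r.num : ℚ) = r * r.den := by
      rw [eq_comm, Rat.mul_den_eq_num]
    rw [h5, ← h2]; ring
  have h3' : r.num ^ 12 * (50625) = W'.Δ * (r.den : ℤ) ^ 12 := by exact_mod_cast h3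
  have hcop : IsCoprime ((r.den : ℤ) ^ 12) (r.num ^ 12) := by
    apply IsCoprime.pow
    rw [Int.isCoprime_iff_gcd_eq_one, Int.gcd_comm]
    have := r.reduced
    rwa [Int.gcd, Int.natAbs_natCast]
  have hdvd : ((r.den : ℤ) ^ 12) ∣ (50625 : ℤ) := by
    apply hcop.dvd_of_dvd_mul_left
    rw [h3']
    exact Dvd.intro_left _ rfl
  have hdvd' : r.den ^ 12 ∣ 50625 := by
    have : ((r.den ^ 12 : ℕ) : ℤ) ∣ ((50625 : ℕ) : ℤ) := by
      push_cast
      rw [Int.dvd_neg.symm] at hdvd
      simpa using hdvd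
    exact Int.natCast_dvd_natCast.1 this
  have hden : r.den = 1 := by
    have hle : r.den ≤ 2 := by
      by_contra hc
      push Not at hc
      have h6 : 3 ^ 12 ≤ r.den ^ 12 := Nat.pow_le_pow_left hc 12
      have h7 := Nat.le_of_dvd (by norm_num) hdvd'
      norm_num at h6
      omega
    have hpos := r.den_pos
    interval_cases hh : r.den
    · rfl
    · norm_num at hdvd'
  rw [hden] at h3'
  have h8 : W'.Δ = r.num ^ 12 * (50625) := by rw [h3']; ring
  rw [h8, abs_mul, abs_pow, delta15]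
  have hn : 1 ≤ |r.num| := Int.one_le_abs (Rat.num_ne_zero.2 hr0)
  have : (1 : ℤ) ≤ |r.num| ^ 12 := one_le_pow₀ hn
  norm_num
  linarith

theorem t_MIN : S_MIN := by
  refine ⟨min15, ?_, ?_, delta15, ?_, ?_, ?_, ?_, ?_⟩
  · simp [WeierstrassCurve.c₄, WeierstrassCurve.b₂, WeierstrassCurve.b₄, E15]
  · simp [WeierstrassCurve.c₆, WeierstrassCurve.b₂, WeierstrassCurve.b₄, WeierstrassCurve.b₆, E15]
  · rw [aff_eq]; decide
  · rw [aff_eq]; decide
  · rw [aff_eq]; decide +kernel
  · rw [aff_eq]; decide +kernel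
  · intro p hp
    haveI : Fact p.Prime := ⟨hp⟩
    haveI : NeZero p := ⟨hp.ne_zero⟩
    rw [aff_eq]
    have h1 : (Finset.univ.filter (fun P : ZMod p × ZMod p =>
        P.2 ^ 2 + P.1 * P.2 + P.2 = P.1 ^ 3 + P.1 ^ 2 - 10 * P.1 - 10)).card ≤
        2 * (Finset.univ : Finset (ZMod p)).card := by
      apply Finset.card_le_mul_card_image_of_maps_to (f := Prod.fst)
      · intro _ _; exact Finset.mem_univ _
      · intro x _
        rcases Finset.eq_empty_or_nonempty ((Finset.univ.filter (fun P : ZMod p × ZMod p =>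
          P.2 ^ 2 + P.1 * P.2 + P.2 = P.1 ^ 3 + P.1 ^ 2 - 10 * P.1 - 10)).filter (fun P => P.1 = x)) with h | h
        · rw [h]; simp
        · obtain ⟨⟨x0, y0⟩, h0⟩ := h
          simp only [Finset.mem_filter, Finset.mem_univ, true_and] at h0
          obtain ⟨h0, rfl⟩ := h0
          refine le_trans (Finset.card_le_card (t := {(x0, y0), (x0, -x0 - 1 - y0)}) ?_)
            Finset.card_le_two
          rintro ⟨x1, y1⟩ h1
          simp only [Finset.mem_filter, Finset.mem_univ, true_and] at h1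
          obtain ⟨h1, rfl⟩ := h1
          have h2 : (y1 - y0) * (y1 - (-x1 - 1 - y0)) = 0 := by linear_combination h1 - h0
          rcases mul_eq_zero.1 h2 with h3 | h3
          · rw [sub_eq_zero.1 h3]; simp
          · rw [sub_eq_zero.1 h3]; simp
    rwa [Finset.card_univ, ZMod.card] at h1

end Pool.Agent.H757_X15
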