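import Pool.Agent.H757_X15.MT.Coef15
import Pool.Agent.H757_X15.MT.CP
import Pool.Agent.H757_X15.MT.LAT
import Pool.Agent.H757_X15.MT.HASSE
import Pool.Agent.H757_X15.MT.EIGHT
import Pool.Agent.H757_X15.MT.MIN
import Pool.Agent.H757_X15.MT.ARITH
import Pool.Agent.H757_X15.MT.Lat15
import Pool.Agent.W97.MT.Asm

/-!
Assembly, level 15.
-/

set_option autoImplicit false

open UpperHalfPlane MatrixGroups CongruenceSubgroup Filter Topology MeasureTheory
open scoped ModularForm Pointwise

namespace Pool.Agent.H757_X15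

open Pool.Agent.W97.TW
open Pool.Agent.W97.MT (ap qq S_QEXP norm_qq_lt prim hqe hinj hsup hode hhint IsPeriod
  line_im line_re qq_conj Rep)

lemma hcp : S_CP := t_CP

/-- the newform `η(z)η(3z)η(5z)η(15z)` -/
noncomputable def form15 : CuspForm (Gamma0 15 : Subgroup (GL (Fin 2) ℝ)) 2 := f15 hcp hqe

lemma form15_of {w : ℂ} (hw : 0 < w.im) : form15 (ofComplex w) = ff w := by
  rw [ofComplex_apply_of_im_pos hw]; rfl

lemma line_eq (z : ℂ) (hz : 0 ≤ z.im) : Set.EqOn
    (fun t : ℝ => form15 (ofComplex (z + t * Complex.I))) (fun t : ℝ => ff (z + t * Complex.I))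
    (Set.Ioi 0) := by
  intro t ht
  have ht' : 0 < t := ht
  exact form15_of (by rw [line_im]; linarith)

lemma prim_eq (z : ℂ) (hz : 0 ≤ z.im) :
    prim form15 z = 2 * Real.pi * ∫ t in Set.Ioi (0 : ℝ), ff (z + t * Complex.I) := by
  unfold prim
  rw [setIntegral_congr_fun measurableSet_Ioi (line_eq z hz)]

lemma prim_rat (r : ℚ) : prim form15 (r : ℂ) = II r := prim_eq _ (by simp)

lemma prim_H (z : ℍ) : prim form15 z = F z := by
  rw [prim_eq _ z.im_pos.le]
  refine integral_line _ z.im_pos.le (ff_line_int _ (by rw [add_zero]; exact z.im_pos)) ?_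
  have h1 : ContinuousAt (fun t : ℝ => F ((z : ℂ) + t * Complex.I)) 0 := by
    refine ContinuousAt.comp (g := F) (f := fun t : ℝ => (z : ℂ) + t * Complex.I) ?_ (by fun_prop)
    simp only [Complex.ofReal_zero, zero_mul, add_zero]
    exact (F_diff z.im_pos).continuousAt
  have h2 := h1.tendsto
  simp only [Complex.ofReal_zero, zero_mul, add_zero] at h2
  exact h2.mono_left nhdsWithin_le_nhds

lemma phi_conj (q : ℂ) (hq : ‖q‖ < 1) : phi (starRingEnd ℂ q) = starRingEnd ℂ (phi q) := by
  obtain ⟨Ξ, U, P, rΞ, rU, rP, tΞ, tU, tP⟩ := expansions hqe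
  have h1 := rP (starRingEnd ℂ q) (by simpa using hq)
  have h2 := (rP q hq).map (starRingEnd ℂ) Complex.continuous_conj
  refine h1.unique (h2.congr_fun ?_ |> fun x => x)
  intro n
  simp only [Function.comp_apply, map_mul, map_pow, PowerSeries.coeff_map, eq_intCast]
  congr 1
  exact (map_intCast (starRingEnd ℂ) _).symm

lemma ff_conj {z : ℂ} (hz : 0 < z.im) : ff (-(starRingEnd ℂ z)) = starRingEnd ℂ (ff z) := by
  rw [ff_q, ff_q, qq_conj, phi_conj _ (norm_qq_lt hz), map_mul]

lemma II_conj (r : ℚ) : II (-r) = starRingEnd ℂ (II r) := by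
  unfold II
  rw [map_mul, ← integral_conj]
  have h2 : (starRingEnd ℂ) (2 * (Real.pi : ℂ)) = 2 * Real.pi := by
    rw [map_mul, Complex.conj_ofReal]
    congr 1
    exact Complex.conj_ofNat 2
  rw [h2]
  congr 1
  refine setIntegral_congr_fun measurableSet_Ioi fun t ht => ?_
  have ht' : 0 < t := ht
  rw [← ff_conj (by rw [line_im]; simpa using ht')]
  congr 1
  simp only [map_add, map_mul, Complex.conj_I, Complex.conj_ofReal]
  have : (starRingEnd ℂ) ((r : ℚ) : ℂ) = r := by
    have e : ((r : ℚ) : ℂ) = (((r : ℚ) : ℝ) : ℂ) := by push_cast; rfl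
    rw [e]; exact Complex.conj_ofReal _
  rw [this]
  push_cast
  ring

lemma II_add_one (r : ℚ) : II (r + 1) = II r := by
  unfold II
  congr 1
  refine setIntegral_congr_fun measurableSet_Ioi fun t ht => ?_
  have e : qq (((r + 1 : ℚ) : ℂ) + t * Complex.I) = qq ((r : ℂ) + t * Complex.I) := by
    unfold qq
    push_cast
    have : 2 * (Real.pi : ℂ) * Complex.I * ((r : ℂ) + 1 + t * Complex.I) =
        2 * Real.pi * Complex.I * ((r : ℂ) + t * Complex.I) + 2 * Real.pi * Complex.I := by ring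
    rw [this, Complex.exp_add, Complex.exp_two_pi_mul_I, mul_one]
  rw [ff_q, ff_q, e]

lemma II_zero_im : (II 0).im = 0 := by
  have h1 := II_conj 0
  rw [neg_zero] at h1
  have h2 := congrArg Complex.im h1
  rw [Complex.conj_im] at h2
  linarith

end Pool.Agent.H757_X15
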