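import Pool.Agent.H757_X15.MT.AL15
import Pool.Agent.W97.MT.Cusps

/-!
The behaviour at the four cusps of `X_0(15)`.
-/

set_option autoImplicit false

open Filter Topology

namespace Pool.Agent.H757_X15

open Pool.Agent.W97.TW (Q G Q_zero)
open Pool.Agent.W97.MT (qq iI iI_pos QV QV_Q QV_Q1 QV_of_sq Q_contOn Q_contOn1 qq_cont comp_cont
  eta_diff Q_ne Q_ne_pow norm_qq_lt qq_ne H_open z_ne)

lemma eta_diffs {z : ℂ} (hz : 0 < z.im) : DifferentiableAt ℂ (fun w : ℂ => ModularForm.eta w) z ∧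
    DifferentiableAt ℂ (fun w : ℂ => ModularForm.eta (3 * w)) z ∧
    DifferentiableAt ℂ (fun w : ℂ => ModularForm.eta (5 * w)) z ∧
    DifferentiableAt ℂ (fun w : ℂ => ModularForm.eta (15 * w)) z := by
  have h1 := eta_diff hz 1 (by norm_num)
  have h3 := eta_diff hz 3 (by norm_num)
  have h5 := eta_diff hz 5 (by norm_num)
  have h15 := eta_diff hz 15 (by norm_num)
  push_cast at h1 h3 h5 h15
  simp only [one_mul] at h1
  exact ⟨h1, h3, h5, h15⟩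

lemma eta_nes {z : ℂ} (hz : 0 < z.im) : ModularForm.eta z ≠ 0 ∧ ModularForm.eta (3 * z) ≠ 0 ∧
    ModularForm.eta (5 * z) ≠ 0 ∧ ModularForm.eta (15 * z) ≠ 0 := eta_ne15 hz

lemma ff_ne {z : ℂ} (hz : 0 < z.im) : ff z ≠ 0 := by
  obtain ⟨e1, e3, e5, e15⟩ := eta_nes hz
  exact mul_ne_zero (mul_ne_zero (mul_ne_zero e1 e3) e5) e15

lemma ff_diff {z : ℂ} (hz : 0 < z.im) : DifferentiableAt ℂ ff z := by
  obtain ⟨e1, e3, e5, e15⟩ := eta_diffs hz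
  exact ((e1.mul e3).mul e5).mul e15

lemma X1_diff {z : ℂ} (hz : 0 < z.im) : DifferentiableAt ℂ X1 z := by
  obtain ⟨e1, e3, e5, e15⟩ := eta_diffs hz
  obtain ⟨n1, n3, n5, n15⟩ := eta_nes hz
  exact (((e1.inv n1).mul e3).mul (e5.pow 5)).mul ((e15.pow 5).inv (pow_ne_zero _ n15))

lemma Y2_diff {z : ℂ} (hz : 0 < z.im) : DifferentiableAt ℂ Y2 z := by
  obtain ⟨e1, e3, e5, e15⟩ := eta_diffs hz
  obtain ⟨n1, n3, n5, n15⟩ := eta_nes hz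
  exact ((((e1.pow 3).inv (pow_ne_zero _ n1)).mul (e3.pow 3)).mul (e5.pow 3)).mul
    ((e15.pow 3).inv (pow_ne_zero _ n15))

/-- the data at a cusp -/
structure IsCusp (m j : ℂ → ℂ) (x : ℂ) : Prop where
  pos : ∀ z : ℂ, 0 < z.im → 0 < (m z).im
  der : ∀ z : ℂ, 0 < z.im → HasDerivAt m (j z) z
  jne : ∀ z : ℂ, 0 < z.im → j z ≠ 0
  jcont : ContinuousOn j {z : ℂ | 0 < z.im}
  ffj : ∀ z : ℂ, 0 < z.im → (ff (m z) * j z) ^ 2 = ff z ^ 2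
  X : QV (fun z => X1 (m z)) x

lemma X1_cont : ContinuousOn X1 {z : ℂ | 0 < z.im} := fun _ hz =>
  (X1_diff hz).continuousAt.continuousWithinAt

lemma Y2_cont : ContinuousOn Y2 {z : ℂ | 0 < z.im} := fun _ hz =>
  (Y2_diff hz).continuousAt.continuousWithinAt

lemma ff_cont : ContinuousOn ff {z : ℂ | 0 < z.im} := fun _ hz =>
  (ff_diff hz).continuousAt.continuousWithinAt

/-- `z ↦ -1/(15z)` -/
noncomputable def m15 (z : ℂ) : ℂ := -1 / (15 * z)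

/-- `z ↦ (5z-2)/(15z-5)` -/
noncomputable def m5 (z : ℂ) : ℂ := (5 * z - 2) / (15 * z - 5)

/-- `z ↦ (3z+1)/(15z+6)` -/
noncomputable def m3 (z : ℂ) : ℂ := (3 * z + 1) / (15 * z + 6)

/-- derivative of `m15` -/
noncomputable def j15 (z : ℂ) : ℂ := (15 * z ^ 2)⁻¹

/-- derivative of `m5` -/
noncomputable def j5 (z : ℂ) : ℂ := (5 * (3 * z - 1) ^ 2)⁻¹

/-- derivative of `m3` -/
noncomputable def j3 (z : ℂ) : ℂ := (3 * (5 * z + 2) ^ 2)⁻¹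

lemma Q_nes {z : ℂ} (hz : 0 < z.im) : Q (qq z) ≠ 0 ∧ Q (qq z ^ 3) ≠ 0 ∧ Q (qq z ^ 5) ≠ 0 ∧
    Q (qq z ^ 15) ≠ 0 :=
  ⟨Q_ne (norm_qq_lt hz), Q_ne_pow (norm_qq_lt hz) (by norm_num),
    Q_ne_pow (norm_qq_lt hz) (by norm_num), Q_ne_pow (norm_qq_lt hz) (by norm_num)⟩

lemma cusp15_core : (∀ z : ℂ, 0 < z.im → 0 < (m15 z).im) ∧
    (∀ z : ℂ, 0 < z.im → HasDerivAt m15 (j15 z) z) ∧
    (∀ z : ℂ, 0 < z.im → j15 z ≠ 0) ∧ ContinuousOn j15 {z : ℂ | 0 < z.im} ∧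
    (∀ z : ℂ, 0 < z.im → (ff (m15 z) * j15 z) ^ 2 = ff z ^ 2) := by
  refine ⟨fun z hz => w15_pos hz, fun z hz => ?_, fun z hz => ?_, ?_, fun z hz => ?_⟩
  · have h0 := z_ne hz
    have h1 : HasDerivAt (fun w : ℂ => 15 * w) 15 z := by
      simpa using (hasDerivAt_id z).const_mul (15 : ℂ)
    have h2 := (hasDerivAt_const z (-1 : ℂ)).div h1 (mul_ne_zero (by norm_num) h0)
    unfold m15 j15
    refine h2.congr_deriv ?_
    field_simp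
    ring
  · have h0 := z_ne hz
    exact inv_ne_zero (mul_ne_zero (by norm_num) (pow_ne_zero 2 h0))
  · intro z hz
    have h0 := z_ne hz
    unfold j15
    exact ContinuousAt.continuousWithinAt (ContinuousAt.inv₀ (by fun_prop)
      (mul_ne_zero (by norm_num) (pow_ne_zero 2 h0)))
  · have h0 := z_ne hz
    unfold m15 j15
    rw [mul_pow, ff_w15 hz]
    field_simp

lemma cusp15 : IsCusp m15 j15 9 ∨ IsCusp m15 j15 (-9) := by
  obtain ⟨h1, h2, h3, h4, h5⟩ := cusp15_core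
  have q3 := QV_Q 3 (by norm_num)
  have q5 := QV_Q 5 (by norm_num)
  have q15 := QV_Q 15 (by norm_num)
  have h := ((QV.const 9).mul (((((QV_Q1.pow 5).inv (by norm_num)).mul (q3.pow 5)).mul q5).mul
      (q15.inv one_ne_zero))).of_val (show _ = (9 : ℂ) by norm_num)
  have c1 := Q_contOn1
  have c3 := Q_contOn 3 (by norm_num)
  have c5 := Q_contOn 5 (by norm_num)
  have c15 := Q_contOn 15 (by norm_num)
  have e : ∀ z : ℂ, 0 < z.im → X1 (m15 z) ^ 2 = (9 * ((Q (qq z) ^ 5)⁻¹ * Q (qq z ^ 3) ^ 5 *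
      Q (qq z ^ 5) * (Q (qq z ^ 15))⁻¹)) ^ 2 := fun z hz => by
    rw [mul_pow]
    have := X1_w15 hz
    unfold m15
    rw [this]
    norm_num
  have e0 : ∀ z : ℂ, 0 < z.im → 9 * ((Q (qq z) ^ 5)⁻¹ * Q (qq z ^ 3) ^ 5 *
      Q (qq z ^ 5) * (Q (qq z ^ 15))⁻¹) ≠ 0 := fun z hz => by
    obtain ⟨n1, n3, n5, n15⟩ := Q_nes hz
    exact mul_ne_zero (by norm_num) (by positivity)
  have c : ContinuousOn (fun z => 9 * ((Q (qq z) ^ 5)⁻¹ * Q (qq z ^ 3) ^ 5 *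
      Q (qq z ^ 5) * (Q (qq z ^ 15))⁻¹)) {z : ℂ | 0 < z.im} :=
    continuousOn_const.mul (((((c1.pow 5).inv₀ fun z hz => pow_ne_zero _ (Q_nes hz).1).mul
      (c3.pow 5)).mul c5).mul (c15.inv₀ fun z hz => (Q_nes hz).2.2.2))
  rcases QV_of_sq (comp_cont h1 h2 X1_cont) c e e0 h with h7 | h7
  · exact Or.inl ⟨h1, h2, h3, h4, h5, h7⟩
  · exact Or.inr ⟨h1, h2, h3, h4, h5, h7⟩

/-- `Y2` has a pole at the cusp `0` -/
lemma cusp15_Y : QV (fun z => (Y2 (m15 z))⁻¹) 0 := by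
  obtain ⟨h1, h2, h3, h4, h5⟩ := cusp15_core
  have q3 := QV_Q 3 (by norm_num)
  have q5 := QV_Q 5 (by norm_num)
  have q15 := QV_Q 15 (by norm_num)
  have hu : QV (fun z => ups (qq z)) 1 := by
    have := ((((QV_Q1.pow 3).inv (by norm_num)).mul (q3.pow 3)).mul (q5.pow 3)).mul
      ((q15.pow 3).inv (by norm_num))
    exact this.of_val (by norm_num)
  have h := (QV.qq'.mul (hu.inv one_ne_zero)).of_val (show _ = (0 : ℂ) by norm_num)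
  have hups : ∀ z : ℂ, 0 < z.im → ups (qq z) ≠ 0 := fun z hz => by
    obtain ⟨n1, n3, n5, n15⟩ := Q_nes hz
    unfold ups
    positivity
  have e : ∀ z : ℂ, 0 < z.im → ((Y2 (m15 z))⁻¹) ^ 2 = (qq z * (ups (qq z))⁻¹) ^ 2 := fun z hz => by
    have h7 := Y2_w15 hz
    unfold m15
    rw [inv_pow, h7, Y2_q hz, div_pow, inv_div, mul_pow, inv_pow, div_eq_mul_inv]
  have e0 : ∀ z : ℂ, 0 < z.im → qq z * (ups (qq z))⁻¹ ≠ 0 := fun z hz =>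
    mul_ne_zero (qq_ne z) (inv_ne_zero (hups z hz))
  have c1 := Q_contOn1
  have c3 := Q_contOn 3 (by norm_num)
  have c5 := Q_contOn 5 (by norm_num)
  have c15 := Q_contOn 15 (by norm_num)
  have cu : ContinuousOn (fun z => ups (qq z)) {z : ℂ | 0 < z.im} :=
    ((((c1.pow 3).inv₀ fun z hz => pow_ne_zero _ (Q_nes hz).1).mul (c3.pow 3)).mul (c5.pow 3)).mul
      ((c15.pow 3).inv₀ fun z hz => pow_ne_zero _ (Q_nes hz).2.2.2)
  have c : ContinuousOn (fun z => qq z * (ups (qq z))⁻¹) {z : ℂ | 0 < z.im} :=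
    qq_cont.continuousOn.mul (cu.inv₀ hups)
  have cY : ContinuousOn (fun z => (Y2 (m15 z))⁻¹) {z : ℂ | 0 < z.im} :=
    (comp_cont h1 h2 Y2_cont).inv₀ fun z hz => Y2_ne (h1 z hz)
  rcases QV_of_sq cY c e e0 h with h7 | h7
  · exact h7
  · exact h7.of_val (by norm_num)

lemma cusp5_core : (∀ z : ℂ, 0 < z.im → 0 < (m5 z).im) ∧
    (∀ z : ℂ, 0 < z.im → HasDerivAt m5 (j5 z) z) ∧
    (∀ z : ℂ, 0 < z.im → j5 z ≠ 0) ∧ ContinuousOn j5 {z : ℂ | 0 < z.im} ∧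
    (∀ z : ℂ, 0 < z.im → (ff (m5 z) * j5 z) ^ 2 = ff z ^ 2) := by
  have hne : ∀ z : ℂ, 0 < z.im → (5 : ℂ) * (3 * z - 1) ^ 2 ≠ 0 := fun z hz =>
    mul_ne_zero (by norm_num) (pow_ne_zero 2 (w5_aux hz))
  refine ⟨fun z hz => w5_pos hz, fun z hz => ?_, fun z hz => inv_ne_zero (hne z hz), ?_,
    fun z hz => ?_⟩
  · have h0 := w5_aux hz
    have h7 : (15 * z - 5 : ℂ) = 5 * (3 * z - 1) := by ring
    have h1 : HasDerivAt (fun w : ℂ => 15 * w - 5) 15 z := by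
      simpa using ((hasDerivAt_id z).const_mul (15 : ℂ)).sub_const 5
    have h1' : HasDerivAt (fun w : ℂ => 5 * w - 2) 5 z := by
      simpa using ((hasDerivAt_id z).const_mul (5 : ℂ)).sub_const 2
    have h2 := h1'.div h1 (by rw [h7]; exact mul_ne_zero (by norm_num) h0)
    unfold m5 j5
    refine h2.congr_deriv ?_
    rw [h7]
    field_simp
    ring
  · intro z hz
    unfold j5
    exact ContinuousAt.continuousWithinAt (ContinuousAt.inv₀ (by fun_prop) (hne z hz))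
  · have h0 := w5_aux hz
    unfold m5 j5
    rw [mul_pow, ff_w5 hz]
    field_simp

lemma cusp5 : IsCusp m5 j5 1 ∨ IsCusp m5 j5 (-1) := by
  obtain ⟨h1, h2, h3, h4, h5⟩ := cusp5_core
  have q3 := QV_Q 3 (by norm_num)
  have q5 := QV_Q 5 (by norm_num)
  have q15 := QV_Q 15 (by norm_num)
  have h := ((((QV_Q1.pow 5).mul ((q3.pow 5).inv (by norm_num))).mul (q5.inv one_ne_zero)).mul
      q15).of_val (show _ = (1 : ℂ) by norm_num)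
  have c1 := Q_contOn1
  have c3 := Q_contOn 3 (by norm_num)
  have c5 := Q_contOn 5 (by norm_num)
  have c15 := Q_contOn 15 (by norm_num)
  have e : ∀ z : ℂ, 0 < z.im → X1 (m5 z) ^ 2 = (Q (qq z) ^ 5 * (Q (qq z ^ 3) ^ 5)⁻¹ *
    (Q (qq z ^ 5))⁻¹ * (Q (qq z ^ 15))) ^ 2 := fun z hz => X1_w5 hz
  have e0 : ∀ z : ℂ, 0 < z.im → (Q (qq z) ^ 5 * (Q (qq z ^ 3) ^ 5)⁻¹ *
    (Q (qq z ^ 5))⁻¹ * (Q (qq z ^ 15))) ≠ 0 := fun z hz => by
    obtain ⟨n1, n3, n5, n15⟩ := Q_nes hz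
    positivity
  have c : ContinuousOn (fun z => Q (qq z) ^ 5 * (Q (qq z ^ 3) ^ 5)⁻¹ *
    (Q (qq z ^ 5))⁻¹ * (Q (qq z ^ 15))) {z : ℂ | 0 < z.im} :=
    ((((c1.pow 5).mul ((c3.pow 5).inv₀ fun z hz => pow_ne_zero _ (Q_nes hz).2.1)).mul
      (c5.inv₀ fun z hz => (Q_nes hz).2.2.1)).mul c15)
  rcases QV_of_sq (comp_cont h1 h2 X1_cont) c e e0 h with h7 | h7
  · exact Or.inl ⟨h1, h2, h3, h4, h5, h7⟩
  · exact Or.inr ⟨h1, h2, h3, h4, h5, h7⟩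

/-- the product occurring in `Y2` at the cusps of `m5` and `m3` -/
lemma QV_R : QV (fun z => Q (qq z) * (Q (qq z ^ 3))⁻¹ * (Q (qq z ^ 5))⁻¹ * (Q (qq z ^ 15))) 1 := by
  have q3 := QV_Q 3 (by norm_num)
  have q5 := QV_Q 5 (by norm_num)
  have q15 := QV_Q 15 (by norm_num)
  exact (((QV_Q1.mul (q3.inv one_ne_zero)).mul (q5.inv one_ne_zero)).mul q15).of_val (by norm_num)

lemma contOn_R : ContinuousOn (fun z => Q (qq z) * (Q (qq z ^ 3))⁻¹ * (Q (qq z ^ 5))⁻¹ *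
    (Q (qq z ^ 15))) {z : ℂ | 0 < z.im} := by
  have c1 := Q_contOn1
  have c3 := Q_contOn 3 (by norm_num)
  have c5 := Q_contOn 5 (by norm_num)
  have c15 := Q_contOn 15 (by norm_num)
  exact ((c1.mul (c3.inv₀ fun z hz => (Q_nes hz).2.1)).mul
      (c5.inv₀ fun z hz => (Q_nes hz).2.2.1)).mul c15

lemma R_ne {z : ℂ} (hz : 0 < z.im) : Q (qq z) * (Q (qq z ^ 3))⁻¹ * (Q (qq z ^ 5))⁻¹ *
    (Q (qq z ^ 15)) ≠ 0 := by
  obtain ⟨n1, n3, n5, n15⟩ := Q_nes hz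
  positivity

/-- a function with the square of `Y2` at the cusps of `m5` and `m3` tends to zero -/
lemma QV_of_Y {f : ℂ → ℂ} (hf : ContinuousOn f {z : ℂ | 0 < z.im})
    (h : ∀ z : ℂ, 0 < z.im → f z ^ 2 = qq z ^ 2 * (Q (qq z) * (Q (qq z ^ 3))⁻¹ *
      (Q (qq z ^ 5))⁻¹ * (Q (qq z ^ 15))) ^ 6) : QV f 0 := by
  have hR := QV_R
  have h1 := (QV.qq'.mul (hR.pow 3)).of_val (show _ = (0 : ℂ) by norm_num)
  have c : ContinuousOn (fun z => qq z * (Q (qq z) * (Q (qq z ^ 3))⁻¹ *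
      (Q (qq z ^ 5))⁻¹ * (Q (qq z ^ 15))) ^ 3) {z : ℂ | 0 < z.im} :=
    qq_cont.continuousOn.mul (contOn_R.pow 3)
  have e : ∀ z : ℂ, 0 < z.im → f z ^ 2 = (qq z * (Q (qq z) * (Q (qq z ^ 3))⁻¹ *
      (Q (qq z ^ 5))⁻¹ * (Q (qq z ^ 15))) ^ 3) ^ 2 := fun z hz => by
    rw [h z hz]; ring
  have e0 : ∀ z : ℂ, 0 < z.im → qq z * (Q (qq z) * (Q (qq z ^ 3))⁻¹ *
      (Q (qq z ^ 5))⁻¹ * (Q (qq z ^ 15))) ^ 3 ≠ 0 := fun z hz =>
    mul_ne_zero (qq_ne z) (pow_ne_zero 3 (R_ne hz))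
  rcases QV_of_sq hf c e e0 h1 with h7 | h7
  · exact h7
  · exact h7.of_val (by norm_num)

lemma cusp5_Y : QV (fun z => Y2 (m5 z)) 0 := by
  obtain ⟨h1, h2, h3, h4, h5⟩ := cusp5_core
  exact QV_of_Y (comp_cont h1 h2 Y2_cont) fun z hz => Y2_w5 hz

lemma cusp3 : IsCusp m3 j3 0 := by
  have hne : ∀ z : ℂ, 0 < z.im → (3 : ℂ) * (5 * z + 2) ^ 2 ≠ 0 := fun z hz =>
    mul_ne_zero (by norm_num) (pow_ne_zero 2 (w3_aux hz))
  have hpos : ∀ z : ℂ, 0 < z.im → 0 < (m3 z).im := fun z hz => w3_pos hz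
  have hder : ∀ z : ℂ, 0 < z.im → HasDerivAt m3 (j3 z) z := fun z hz => by
    have h0 := w3_aux hz
    have h7 : (15 * z + 6 : ℂ) = 3 * (5 * z + 2) := by ring
    have h1 : HasDerivAt (fun w : ℂ => 15 * w + 6) 15 z := by
      simpa using ((hasDerivAt_id z).const_mul (15 : ℂ)).add_const 6
    have h1' : HasDerivAt (fun w : ℂ => 3 * w + 1) 3 z := by
      simpa using ((hasDerivAt_id z).const_mul (3 : ℂ)).add_const 1
    have h2 := h1'.div h1 (by rw [h7]; exact mul_ne_zero (by norm_num) h0)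
    unfold m3 j3
    refine h2.congr_deriv ?_
    rw [h7]
    field_simp
    ring
  refine ⟨hpos, hder, fun z hz => inv_ne_zero (hne z hz), ?_, fun z hz => ?_, ?_⟩
  · intro z hz
    unfold j3
    exact ContinuousAt.continuousWithinAt (ContinuousAt.inv₀ (by fun_prop) (hne z hz))
  · have h0 := w3_aux hz
    unfold m3 j3
    rw [mul_pow, ff_w3 hz]
    field_simp
  · have q3 := QV_Q 3 (by norm_num)
    have q5 := QV_Q 5 (by norm_num)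
    have q15 := QV_Q 15 (by norm_num)
    have h := ((QV.qq'.pow 2).mul ((QV.const 9).mul (((QV_Q1.mul (q3.inv one_ne_zero)).mul
      ((q5.pow 5).inv (by norm_num))).mul (q15.pow 5)))).of_val (show _ = (0 : ℂ) by norm_num)
    have c1 := Q_contOn1
    have c3 := Q_contOn 3 (by norm_num)
    have c5 := Q_contOn 5 (by norm_num)
    have c15 := Q_contOn 15 (by norm_num)
    have e : ∀ z : ℂ, 0 < z.im → X1 (m3 z) ^ 2 = (qq z ^ 2 * (9 * (Q (qq z) * (Q (qq z ^ 3))⁻¹ *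
        (Q (qq z ^ 5) ^ 5)⁻¹ * (Q (qq z ^ 15)) ^ 5))) ^ 2 := fun z hz => by
      have := X1_w3 hz
      unfold m3
      rw [this]
      ring
    have e0 : ∀ z : ℂ, 0 < z.im → qq z ^ 2 * (9 * (Q (qq z) * (Q (qq z ^ 3))⁻¹ *
        (Q (qq z ^ 5) ^ 5)⁻¹ * (Q (qq z ^ 15)) ^ 5)) ≠ 0 := fun z hz => by
      obtain ⟨n1, n3, n5, n15⟩ := Q_nes hz
      exact mul_ne_zero (pow_ne_zero 2 (qq_ne z)) (mul_ne_zero (by norm_num) (by positivity))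
    have c : ContinuousOn (fun z => qq z ^ 2 * (9 * (Q (qq z) * (Q (qq z ^ 3))⁻¹ *
        (Q (qq z ^ 5) ^ 5)⁻¹ * (Q (qq z ^ 15)) ^ 5))) {z : ℂ | 0 < z.im} :=
      (qq_cont.continuousOn.pow 2).mul (continuousOn_const.mul (((c1.mul
        (c3.inv₀ fun z hz => (Q_nes hz).2.1)).mul
        ((c5.pow 5).inv₀ fun z hz => pow_ne_zero _ (Q_nes hz).2.2.1)).mul (c15.pow 5)))
    rcases QV_of_sq (comp_cont hpos hder X1_cont) c e e0 h with h7 | h7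
    · exact h7
    · exact h7.of_val (by norm_num)

lemma cusp3_Y : QV (fun z => Y2 (m3 z)) 0 :=
  QV_of_Y (comp_cont cusp3.pos cusp3.der Y2_cont) fun _ hz => Y2_w3 hz

/-- `Y2² / X1` is bounded at the cusp of `m3` -/
lemma cusp3_YX : ∃ v : ℂ, QV (fun z => Y2 (m3 z) ^ 2 / X1 (m3 z)) v := by
  have q3 := QV_Q 3 (by norm_num)
  have q5 := QV_Q 5 (by norm_num)
  have q15 := QV_Q 15 (by norm_num)
  have h := ((QV.const ((9 : ℂ)⁻¹)).mul ((QV_R.pow 6).mul ((((QV_Q1.inv one_ne_zero).mul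
    q3).mul (q5.pow 5)).mul ((q15.pow 5).inv (by norm_num))))).of_val
    (show _ = ((9 : ℂ)⁻¹) by norm_num)
  have c1 := Q_contOn1
  have c3 := Q_contOn 3 (by norm_num)
  have c5 := Q_contOn 5 (by norm_num)
  have c15 := Q_contOn 15 (by norm_num)
  have c : ContinuousOn (fun z => (9 : ℂ)⁻¹ * ((Q (qq z) * (Q (qq z ^ 3))⁻¹ *
      (Q (qq z ^ 5))⁻¹ * (Q (qq z ^ 15))) ^ 6 * ((Q (qq z))⁻¹ * Q (qq z ^ 3) *
        Q (qq z ^ 5) ^ 5 * (Q (qq z ^ 15) ^ 5)⁻¹))) {z : ℂ | 0 < z.im} :=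
    continuousOn_const.mul ((contOn_R.pow 6).mul ((((c1.inv₀ fun z hz => (Q_nes hz).1).mul
      c3).mul (c5.pow 5)).mul ((c15.pow 5).inv₀ fun z hz => pow_ne_zero _ (Q_nes hz).2.2.2)))
  have e0 : ∀ z : ℂ, 0 < z.im → (9 : ℂ)⁻¹ * ((Q (qq z) * (Q (qq z ^ 3))⁻¹ *
      (Q (qq z ^ 5))⁻¹ * (Q (qq z ^ 15))) ^ 6 * ((Q (qq z))⁻¹ * Q (qq z ^ 3) *
        Q (qq z ^ 5) ^ 5 * (Q (qq z ^ 15) ^ 5)⁻¹)) ≠ 0 := fun z hz => by
    obtain ⟨n1, n3, n5, n15⟩ := Q_nes hz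
    exact mul_ne_zero (by norm_num) (mul_ne_zero (pow_ne_zero 6 (R_ne hz)) (by positivity))
  have e : ∀ z : ℂ, 0 < z.im → (Y2 (m3 z) ^ 2 / X1 (m3 z)) ^ 2 = ((9 : ℂ)⁻¹ *
      ((Q (qq z) * (Q (qq z ^ 3))⁻¹ * (Q (qq z ^ 5))⁻¹ * (Q (qq z ^ 15))) ^ 6 *
        ((Q (qq z))⁻¹ * Q (qq z ^ 3) * Q (qq z ^ 5) ^ 5 * (Q (qq z ^ 15) ^ 5)⁻¹))) ^ 2 :=
    fun z hz => by
    obtain ⟨n1, n3, n5, n15⟩ := Q_nes hz
    have hq : qq z ≠ 0 := qq_ne z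
    have h1 : X1 (m3 z) ^ 2 = qq z ^ 4 * (81 * (Q (qq z) * (Q (qq z ^ 3))⁻¹ *
      (Q (qq z ^ 5) ^ 5)⁻¹ * (Q (qq z ^ 15)) ^ 5) ^ 2) := X1_w3 hz
    have h2 : Y2 (m3 z) ^ 2 = qq z ^ 2 * (Q (qq z) * (Q (qq z ^ 3))⁻¹ *
      (Q (qq z ^ 5))⁻¹ * (Q (qq z ^ 15))) ^ 6 := Y2_w3 hz
    rw [div_pow, h1, h2]
    generalize Q (qq z) = a at *
    generalize Q (qq z ^ 3) = b at *
    generalize Q (qq z ^ 5) = c at *
    generalize Q (qq z ^ 15) = d at *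
    field_simp
    norm_num
  have hc : ContinuousOn (fun z => Y2 (m3 z) ^ 2 / X1 (m3 z)) {z : ℂ | 0 < z.im} :=
    ((comp_cont cusp3.pos cusp3.der Y2_cont).pow 2).div (comp_cont cusp3.pos cusp3.der X1_cont)
      fun z hz => X1_ne (cusp3.pos z hz)
  rcases QV_of_sq hc c e e0 h with h7 | h7
  · exact ⟨_, h7⟩
  · exact ⟨_, h7⟩

end Pool.Agent.H757_X15
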