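import Pool.Agent.H757_X15.DefsA

/-!
Eta products on `X_0(15)`.
-/

set_option autoImplicit false

open UpperHalfPlane MatrixGroups CongruenceSubgroup Filter Topology
open scoped ModularForm Pointwise

namespace Pool.Agent.H757_X15

open Pool.Agent.W97.TW
open Pool.Agent.W97.MT (qq tt tt_ne qq_ne tt_pow norm_qq norm_qq_lt eta_mul eta_one G_mul Q_ne
  Q_ne_pow G_ne im_mul ze_dvd)

lemma ff_q (z : ℂ) : ff z = qq z * phi (qq z) := by
  have h1 := eta_one z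
  have h3 := eta_mul 3 z
  have h5 := eta_mul 5 z
  have h15 := eta_mul 15 z
  push_cast at h3 h5 h15
  unfold ff phi
  rw [h1, h3, h5, h15, ← tt_pow]
  ring

lemma X1_q {z : ℂ} (hz : 0 < z.im) : X1 z = xi (qq z) / qq z ^ 2 := by
  have h1 := eta_one z
  have h3 := eta_mul 3 z
  have h5 := eta_mul 5 z
  have h15 := eta_mul 15 z
  push_cast at h3 h5 h15
  have hq := norm_qq_lt hz
  have e1 := Q_ne hq
  have e15 := Q_ne_pow hq (d := 15) (by norm_num)
  have ht := tt_ne z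
  unfold X1 xi
  rw [h1, h3, h5, h15]
  have hq2 : qq z ^ 2 = tt z ^ 48 := by rw [← tt_pow]; ring
  rw [hq2]
  field_simp

lemma Y2_q {z : ℂ} (hz : 0 < z.im) : Y2 z = ups (qq z) / qq z := by
  have h1 := eta_one z
  have h3 := eta_mul 3 z
  have h5 := eta_mul 5 z
  have h15 := eta_mul 15 z
  push_cast at h3 h5 h15
  have hq := norm_qq_lt hz
  have e1 := Q_ne hq
  have e15 := Q_ne_pow hq (d := 15) (by norm_num)
  have ht := tt_ne z
  unfold Y2 ups
  rw [h1, h3, h5, h15]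
  rw [eq_div_iff (qq_ne z)]
  have hq2 : qq z = tt z ^ 24 := by rw [← tt_pow]
  field_simp
  rw [hq2]

lemma ff_sq (z : ℂ) : ff z ^ 2 = Gs 1 1 1 1 z := by
  unfold ff Gs G
  simp only [zpow_one]
  ring

lemma X1_sq (z : ℂ) : X1 z ^ 2 = Gs (-1) 1 5 (-5) z := by
  unfold X1 Gs G
  rw [zpow_neg_one, zpow_one, zpow_neg]
  norm_cast
  simp only [mul_pow, inv_pow]
  ring

lemma Y2_sq (z : ℂ) : Y2 z ^ 2 = Gs (-3) 3 3 (-3) z := by
  unfold Y2 Gs G
  rw [zpow_neg, zpow_neg]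
  norm_cast
  simp only [mul_pow, inv_pow]
  ring

lemma XY_eq (z : ℂ) : X1 z * Y2 z = Gs (-2) 2 4 (-4) z := by
  unfold X1 Y2 Gs G
  rw [zpow_neg, zpow_neg]
  norm_cast
  by_cases h1 : ModularForm.eta z = 0
  · simp [h1]
  by_cases h15 : ModularForm.eta (15 * z) = 0
  · simp [h15]
  field_simp

lemma kap15_3 : ∀ a b c d : ZMod 3, a * d - b * (15 * c) = 1 →
    (kap a b (15 * c) d + kap a (3 * b) (5 * c) d + kap a (5 * b) (3 * c) d +
      kap a (15 * b) c d = 0) ∧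
    (-1 * kap a b (15 * c) d + 1 * kap a (3 * b) (5 * c) d + 5 * kap a (5 * b) (3 * c) d +
      -5 * kap a (15 * b) c d = 0) ∧
    (-3 * kap a b (15 * c) d + 3 * kap a (3 * b) (5 * c) d + 3 * kap a (5 * b) (3 * c) d +
      -3 * kap a (15 * b) c d = 0) ∧
    (-2 * kap a b (15 * c) d + 2 * kap a (3 * b) (5 * c) d + 4 * kap a (5 * b) (3 * c) d +
      -4 * kap a (15 * b) c d = 0) := by
  decide

lemma kap15_4 : ∀ a b c d : ZMod 4, a * d - b * (15 * c) = 1 →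
    (kap a b (15 * c) d + kap a (3 * b) (5 * c) d + kap a (5 * b) (3 * c) d +
      kap a (15 * b) c d = 0) ∧
    (-1 * kap a b (15 * c) d + 1 * kap a (3 * b) (5 * c) d + 5 * kap a (5 * b) (3 * c) d +
      -5 * kap a (15 * b) c d = 0) ∧
    (-3 * kap a b (15 * c) d + 3 * kap a (3 * b) (5 * c) d + 3 * kap a (5 * b) (3 * c) d +
      -3 * kap a (15 * b) c d = 0) ∧
    (-2 * kap a b (15 * c) d + 2 * kap a (3 * b) (5 * c) d + 4 * kap a (5 * b) (3 * c) d +
      -4 * kap a (15 * b) c d = 0) := by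
  decide

/-- the basic transformations under `Γ_0(15)` -/
lemma G_gamma {a b c d : ℤ} (h : a * d - b * (15 * c) = 1) {z : ℂ} (hz : 0 < z.im) :
    0 < ((a * z + b) / (15 * c * z + d) : ℂ).im ∧ (15 * c * z + d : ℂ) ≠ 0 ∧
    G ((a * z + b) / (15 * c * z + d)) = ze ^ (kap a b (15 * c) d) * (15 * c * z + d) * G z ∧
    G (3 * ((a * z + b) / (15 * c * z + d))) =
      ze ^ (kap a (3 * b) (5 * c) d) * (15 * c * z + d) * G (3 * z) ∧
    G (5 * ((a * z + b) / (15 * c * z + d))) =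
      ze ^ (kap a (5 * b) (3 * c) d) * (15 * c * z + d) * G (5 * z) ∧
    G (15 * ((a * z + b) / (15 * c * z + d))) =
      ze ^ (kap a (15 * b) c d) * (15 * c * z + d) * G (15 * z) := by
  have h0 := im_moebius h hz
  have e1 := G_moebius h hz
  have e3 := G_moebius (a := a) (b := 3 * b) (c := 5 * c) (d := d) (by linarith)
    (im_mul hz 3 (by norm_num))
  have e5 := G_moebius (a := a) (b := 5 * b) (c := 3 * c) (d := d) (by linarith)
    (im_mul hz 5 (by norm_num))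
  have e15 := G_moebius (a := a) (b := 15 * b) (c := c) (d := d) (by linarith)
    (im_mul hz 15 (by norm_num))
  push_cast at h0 e1 e3 e5 e15
  refine ⟨h0.1, h0.2, e1, ?_, ?_, ?_⟩
  · have e : (3 : ℂ) * ((a * z + b) / (15 * c * z + d)) =
        (a * (3 * z) + 3 * b) / (5 * c * (3 * z) + d) := by
      rw [← mul_div_assoc]; congr 1 <;> ring
    rw [e, e3]; ring
  · have e : (5 : ℂ) * ((a * z + b) / (15 * c * z + d)) =
        (a * (5 * z) + 5 * b) / (3 * c * (5 * z) + d) := by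
      rw [← mul_div_assoc]; congr 1 <;> ring
    rw [e, e5]; ring
  · have e : (15 : ℂ) * ((a * z + b) / (15 * c * z + d)) =
        (a * (15 * z) + 15 * b) / (c * (15 * z) + d) := by
      rw [← mul_div_assoc]; congr 1 <;> ring
    rw [e, e15]; ring

lemma Gs_gamma (s1 s3 s5 s15 : ℤ) {a b c d : ℤ} (h : a * d - b * (15 * c) = 1) {z : ℂ}
    (hz : 0 < z.im) :
    Gs s1 s3 s5 s15 ((a * z + b) / (15 * c * z + d)) =
      ze ^ (s1 * kap a b (15 * c) d + s3 * kap a (3 * b) (5 * c) d +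
        s5 * kap a (5 * b) (3 * c) d + s15 * kap a (15 * b) c d) *
      (15 * c * z + d) ^ (s1 + s3 + s5 + s15) * Gs s1 s3 s5 s15 z := by
  obtain ⟨-, hj, e1, e3, e5, e15⟩ := G_gamma h hz
  unfold Gs
  rw [e1, e3, e5, e15]
  simp only [mul_zpow, zpow_add₀ hj, zpow_add₀ ze_ne, zpow_mul]
  have : ∀ (x : ℂ) (m n : ℤ), (x ^ m) ^ n = (x ^ n) ^ m := fun x m n => by
    rw [← zpow_mul, ← zpow_mul, mul_comm]
  rw [this ze _ s1, this ze _ s3, this ze _ s5, this ze _ s15]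
  ring

lemma phases {a b c d : ℤ} (h : a * d - b * (15 * c) = 1) :
    (12 : ℤ) ∣ (kap a b (15 * c) d + kap a (3 * b) (5 * c) d + kap a (5 * b) (3 * c) d +
      kap a (15 * b) c d) ∧
    (12 : ℤ) ∣ (-1 * kap a b (15 * c) d + 1 * kap a (3 * b) (5 * c) d +
      5 * kap a (5 * b) (3 * c) d + -5 * kap a (15 * b) c d) ∧
    (12 : ℤ) ∣ (-3 * kap a b (15 * c) d + 3 * kap a (3 * b) (5 * c) d +
      3 * kap a (5 * b) (3 * c) d + -3 * kap a (15 * b) c d) ∧
    (12 : ℤ) ∣ (-2 * kap a b (15 * c) d + 2 * kap a (3 * b) (5 * c) d +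
      4 * kap a (5 * b) (3 * c) d + -4 * kap a (15 * b) c d) := by
  have h3 := kap15_3 a b c d (by exact_mod_cast congrArg (Int.cast : ℤ → ZMod 3) h)
  have h4 := kap15_4 a b c d (by exact_mod_cast congrArg (Int.cast : ℤ → ZMod 4) h)
  refine ⟨dvd12 ?_ ?_, dvd12 ?_ ?_, dvd12 ?_ ?_, dvd12 ?_ ?_⟩ <;> push_cast [cast_kap]
  · exact h3.1
  · exact h4.1
  · exact h3.2.1
  · exact h4.2.1
  · exact h3.2.2.1
  · exact h4.2.2.1
  · exact h3.2.2.2
  · exact h4.2.2.2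

/-- invariance of `X1²` -/
lemma X1_sq_gamma {a b c d : ℤ} (h : a * d - b * (15 * c) = 1) {z : ℂ} (hz : 0 < z.im) :
    X1 ((a * z + b) / (15 * c * z + d)) ^ 2 = X1 z ^ 2 := by
  rw [X1_sq, X1_sq, Gs_gamma _ _ _ _ h hz]
  rw [ze_dvd (phases h).2.1]
  norm_num

/-- invariance of `Y2²` -/
lemma Y2_sq_gamma {a b c d : ℤ} (h : a * d - b * (15 * c) = 1) {z : ℂ} (hz : 0 < z.im) :
    Y2 ((a * z + b) / (15 * c * z + d)) ^ 2 = Y2 z ^ 2 := by
  rw [Y2_sq, Y2_sq, Gs_gamma _ _ _ _ h hz]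
  rw [ze_dvd (phases h).2.2.1]
  norm_num

/-- invariance of `X1 Y2` -/
lemma XY_gamma {a b c d : ℤ} (h : a * d - b * (15 * c) = 1) {z : ℂ} (hz : 0 < z.im) :
    X1 ((a * z + b) / (15 * c * z + d)) * Y2 ((a * z + b) / (15 * c * z + d)) =
      X1 z * Y2 z := by
  rw [XY_eq, XY_eq, Gs_gamma _ _ _ _ h hz]
  rw [ze_dvd (phases h).2.2.2]
  norm_num

/-- weight four invariance of `ff²` -/
lemma ff_sq_gamma {a b c d : ℤ} (h : a * d - b * (15 * c) = 1) {z : ℂ} (hz : 0 < z.im) :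
    ff ((a * z + b) / (15 * c * z + d)) ^ 2 = (15 * c * z + d) ^ 4 * ff z ^ 2 := by
  rw [ff_sq, ff_sq, Gs_gamma _ _ _ _ h hz]
  have := (phases h).1
  rw [show (1 : ℤ) * kap a b (15 * c) d + 1 * kap a (3 * b) (5 * c) d +
    1 * kap a (5 * b) (3 * c) d + 1 * kap a (15 * b) c d = kap a b (15 * c) d +
    kap a (3 * b) (5 * c) d + kap a (5 * b) (3 * c) d + kap a (15 * b) c d by ring, ze_dvd this]
  norm_num

end Pool.Agent.H757_X15
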