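import Pool.Agent.H757_X15.MT.Ident15
import Pool.Agent.W97.MT.Form

/-!
The cusp form of level 15 (after `W97.MT.Form`).
-/

set_option autoImplicit false

open UpperHalfPlane MatrixGroups CongruenceSubgroup Filter Topology Asymptotics
open scoped ModularForm Pointwise

namespace Pool.Agent.H757_X15

open Pool.Agent.W97.MT (S_QEXP disc_bound im_mul)
open Pool.Agent.W97.TW (exists_mkSL mkSL_mem mkSL_denom mkSL_smul disc_slash)

/-- the form as a function on the upper half-plane -/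
noncomputable def e15 (z : ℍ) : ℂ := ff z

lemma e15_slash (hcp : S_CP) (hq : S_QEXP) {γ : SL(2, ℤ)} (hγ : γ ∈ Gamma0 15) :
    e15 ∣[(2 : ℤ)] γ = e15 := by
  obtain ⟨a, b, c, d, h, rfl⟩ := exists_mkSL γ
  rw [mkSL_mem] at hγ
  obtain ⟨c, rfl⟩ := hγ
  funext z
  have h' : a * d - b * (15 * c) = 1 := by push_cast at h; linarith
  have h1 := ff_gamma hcp hq h' z z.im_pos
  have h0 : (15 * c * z + d : ℂ) ≠ 0 := (G_gamma h' z.im_pos).2.1
  rw [ModularForm.SL_slash_apply, mkSL_denom]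
  unfold e15
  rw [mkSL_smul]
  push_cast
  rw [h1, zpow_neg, show ((15 * c * z + d : ℂ) ^ (2 : ℤ)) = (15 * c * z + d) ^ 2 from zpow_ofNat _ 2,
    mul_comm, ← mul_assoc, inv_mul_cancel₀ (pow_ne_zero 2 h0), one_mul]

lemma e15_holo : MDifferentiable (modelWithCornersSelf ℂ ℂ) (modelWithCornersSelf ℂ ℂ) e15 := by
  rw [UpperHalfPlane.mdifferentiable_iff]
  have h1 : DifferentiableOn ℂ ff {z : ℂ | 0 < z.im} := fun w hw =>
    (ff_diff hw).differentiableWithinAt
  refine h1.congr fun w hw => ?_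
  simp only [Function.comp_apply]
  unfold e15
  rw [ofComplex_apply_of_im_pos hw]

/-- bound for the 24th power -/
lemma e15_bound : ∃ C : ℝ, 0 ≤ C ∧ ∀ w : ℍ,
    ‖e15 w‖ ^ 24 ≤ ‖ModularForm.discriminant w‖ * (C / w.im ^ 6) ^ 3 := by
  obtain ⟨C, hC0, hC⟩ := disc_bound
  refine ⟨C, hC0, fun w => ?_⟩
  have key : ∀ d : ℕ, 0 < d → ‖ModularForm.eta ((d : ℂ) * w)‖ ^ 24 ≤ C / w.im ^ 6 := by
    intro d hd
    have him := im_mul w.im_pos d hd
    have h1 := hC ⟨(d : ℂ) * w, him⟩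
    have h2 : ModularForm.discriminant (⟨(d : ℂ) * w, him⟩ : ℍ) = ModularForm.eta ((d : ℂ) * w) ^ 24 := rfl
    rw [h2, norm_pow] at h1
    refine h1.trans ?_
    have h3 : (⟨(d : ℂ) * w, him⟩ : ℍ).im = d * w.im := by
      change ((d : ℂ) * w).im = _
      simp
    rw [h3]
    have h4 : (1 : ℝ) ≤ d := by exact_mod_cast hd
    have h5 := w.im_pos
    apply div_le_div_of_nonneg_left hC0 (by positivity)
    apply pow_le_pow_left₀ h5.le
    nlinarith
  have k3 := key 3 (by norm_num)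
  have k5 := key 5 (by norm_num)
  have k15 := key 15 (by norm_num)
  push_cast at k3 k5 k15
  have h1 : ‖e15 w‖ ^ 24 = ‖ModularForm.discriminant w‖ * (‖ModularForm.eta (3 * (w : ℂ))‖ ^ 24 *
      ‖ModularForm.eta (5 * (w : ℂ))‖ ^ 24 * ‖ModularForm.eta (15 * (w : ℂ))‖ ^ 24) := by
    have h2 : ModularForm.discriminant w = ModularForm.eta w ^ 24 := rfl
    unfold e15 ff
    rw [h2, norm_mul, norm_mul, norm_mul, norm_pow]
    ring
  rw [h1]
  have hp : 0 ≤ C / w.im ^ 6 := by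
    have := w.im_pos
    positivity
  calc ‖ModularForm.discriminant w‖ * (‖ModularForm.eta (3 * (w : ℂ))‖ ^ 24 *
      ‖ModularForm.eta (5 * (w : ℂ))‖ ^ 24 * ‖ModularForm.eta (15 * (w : ℂ))‖ ^ 24)
      ≤ ‖ModularForm.discriminant w‖ * ((C / w.im ^ 6) * (C / w.im ^ 6) * (C / w.im ^ 6)) := by
        gcongr
    _ = _ := by ring

lemma e15_zero (γ : SL(2, ℤ)) : IsZeroAtImInfty (e15 ∣[(2 : ℤ)] γ) := by
  obtain ⟨C, hC0, hC⟩ := e15_bound
  have hb : ∀ z : ℍ, ‖(e15 ∣[(2 : ℤ)] γ) z‖ ^ 24 ≤ ‖ModularForm.discriminant z‖ * (C ^ 3 / z.im ^ 18) := by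
    intro z
    have h1 := hC (γ • z)
    have hd : denom (γ : GL (Fin 2) ℝ) z ≠ 0 := denom_ne_zero _ _
    have hD : 0 < ‖denom (γ : GL (Fin 2) ℝ) z‖ := norm_pos_iff.2 hd
    have h2 : ‖(e15 ∣[(2 : ℤ)] γ) z‖ = ‖e15 (γ • z)‖ / ‖denom (γ : GL (Fin 2) ℝ) z‖ ^ 2 := by
      rw [ModularForm.SL_slash_apply, norm_mul, zpow_neg, norm_inv]
      norm_cast
      rw [norm_pow, div_eq_mul_inv]
    have h3 : ‖ModularForm.discriminant (γ • z)‖ =
        ‖denom (γ : GL (Fin 2) ℝ) z‖ ^ 12 * ‖ModularForm.discriminant z‖ := by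
      have h4 := congrFun (disc_slash γ) z
      rw [ModularForm.SL_slash_apply, zpow_neg,
        show denom (γ : GL (Fin 2) ℝ) z ^ (12 : ℤ) = denom (γ : GL (Fin 2) ℝ) z ^ 12 from
          zpow_ofNat _ 12] at h4
      generalize ModularForm.discriminant (γ • z) = u at h4 ⊢
      rw [← h4, norm_mul, norm_inv, norm_pow]
      field_simp
    have h6 : (γ • z).im = z.im / ‖denom (γ : GL (Fin 2) ℝ) z‖ ^ 2 := by
      rw [ModularGroup.im_smul_eq_div_normSq, Complex.normSq_eq_norm_sq]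
    rw [h3, h6] at h1
    rw [h2, div_pow]
    have hz := z.im_pos
    rw [div_le_iff₀ (by positivity)]
    refine h1.trans (le_of_eq ?_)
    field_simp
  have h1 : Tendsto (fun z : ℍ => (e15 ∣[(2 : ℤ)] γ) z ^ 24) atImInfty (𝓝 0) := by
    rw [tendsto_zero_iff_norm_tendsto_zero]
    have h2 : Tendsto (fun z : ℍ => ‖ModularForm.discriminant z‖ * C ^ 3) atImInfty (𝓝 (‖(0 : ℂ)‖ * C ^ 3)) :=
      ((ModularForm.discriminant_isZeroAtImInfty : Tendsto _ _ _).norm).mul_const _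
    rw [norm_zero, zero_mul] at h2
    refine tendsto_of_tendsto_of_tendsto_of_le_of_le' tendsto_const_nhds h2
      (Eventually.of_forall fun z => norm_nonneg _) ?_
    have h3 : ∀ᶠ z : ℍ in atImInfty, 1 ≤ z.im := by
      rw [atImInfty]
      exact tendsto_comap.eventually (eventually_ge_atTop 1)
    filter_upwards [h3] with z hz
    rw [norm_pow]
    refine (hb z).trans ?_
    gcongr
    exact div_le_self (by positivity) (one_le_pow₀ hz)
  have h5 : (fun z : ℍ => (e15 ∣[(2 : ℤ)] γ) z ^ 24) =o[atImInfty] (fun _ : ℍ => (1 : ℝ) ^ 24) := by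
    simp only [one_pow]
    exact (isLittleO_one_iff ℝ).2 h1
  exact (isLittleO_one_iff ℝ).1 (h5.of_pow (by norm_num))

/-- `η(z)η(3z)η(5z)η(15z)` as a cusp form -/
noncomputable def f15 (hcp : S_CP) (hq : S_QEXP) :
    CuspForm (Gamma0 15 : Subgroup (GL (Fin 2) ℝ)) 2 where
  toFun := e15
  slash_action_eq' := by
    rintro _ ⟨γ, hγ, rfl⟩
    exact e15_slash hcp hq hγ
  holo' := e15_holo
  zero_at_cusps' := by
    intro c hc
    rw [Subgroup.IsArithmetic.isCusp_iff_isCusp_SL2Z] at hc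
    rw [OnePoint.isZeroAt_iff_forall_SL2Z hc]
    intro γ _
    exact e15_zero γ

lemma f15_apply (hcp : S_CP) (hq : S_QEXP) (z : ℍ) : f15 hcp hq z = ff z := rfl

end Pool.Agent.H757_X15
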