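import Pool.Agent.H757_X15.DefsA

/-!
The first coefficients of the expansions on `X_0(15)`.
-/

set_option autoImplicit false

open PowerSeries

namespace Pool.Agent.H757_X15

open Pool.Agent.W97.TW
open Pool.Agent.W97.MT (Rep Tr S_QEXP mulL dilL l1 Q_ne Q_ne_pow tr_euler num)

/-- list of `xi` -/
def lxi : List ℤ := [1, 1, 2, 2, 4, 0, 2, -1, 3, -4, 2, -3, 1]

/-- list of `ups` -/
def lups : List ℤ := [1, 3, 9, 19, 42, 78, 146, 249, 429, 695, 1125, 1749, 2713]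

/-- list of `phi` -/
def lphi : List ℤ := [1, -1, -1, -1, 1, 1, 0, 3, 1, -1, -4, 1, -2]

theorem expansions (hq : S_QEXP) : ∃ Ξ U P : ℤ⟦X⟧, Rep xi Ξ ∧ Rep ups U ∧ Rep phi P ∧
    Tr Ξ lxi ∧ Tr U lups ∧ Tr P lphi := by
  obtain ⟨φ, h1, hr, hx⟩ := hq
  have hR : Rep Q φ := fun q hq => by
    have := hr q hq
    simpa [Q] using this
  have t1 := tr_euler hx
  have three : (3 : ℕ) ≠ 0 := by norm_num
  have five : (5 : ℕ) ≠ 0 := by norm_num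
  have ft : (15 : ℕ) ≠ 0 := by norm_num
  have r3 := hR.expand 3 three
  have r5 := hR.expand 5 five
  have r15 := hR.expand 15 ft
  have t3 := t1.expand three
  have t5 := t1.expand five
  have t15 := t1.expand ft
  set E3 := PowerSeries.expand 3 three φ with hE3
  set E5 := PowerSeries.expand 5 five φ with hE5
  set E15 := PowerSeries.expand 15 ft φ with hE15
  have c3 : constantCoeff E3 = 1 := by rw [hE3]; simpa using h1
  have c5 : constantCoeff E5 = 1 := by rw [hE5]; simpa using h1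
  have c15 : constantCoeff E15 = 1 := by rw [hE15]; simpa using h1
  have hinv : ∀ E : ℤ⟦X⟧, constantCoeff E = 1 → ∃ V : ℤ⟦X⟧, E * V = 1 := fun E hE => by
    have hu : IsUnit E := by
      rw [PowerSeries.isUnit_iff_constantCoeff, hE]; exact isUnit_one
    exact hu.exists_right_inv
  obtain ⟨V1, hV1⟩ := hinv φ h1
  obtain ⟨V3, hV3⟩ := hinv (φ ^ 3) (by rw [map_pow, h1, one_pow])
  obtain ⟨V5, hV5⟩ := hinv (E15 ^ 5) (by rw [map_pow, c15, one_pow])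
  obtain ⟨W3, hW3⟩ := hinv (E15 ^ 3) (by rw [map_pow, c15, one_pow])
  have i1 := hR.inv hV1 fun q hq => Q_ne hq
  have i3 := (hR.pow 3).inv hV3 fun q hq => pow_ne_zero _ (Q_ne hq)
  have i5 := (r15.pow 5).inv hV5 fun q hq => pow_ne_zero _ (Q_ne_pow hq ft)
  have j3 := (r15.pow 3).inv hW3 fun q hq => pow_ne_zero _ (Q_ne_pow hq ft)
  refine ⟨V1 * E3 * E5 ^ 5 * V5, V3 * E3 ^ 3 * E5 ^ 3 * W3, φ * E3 * E5 * E15, ?_, ?_, ?_, ?_, ?_, ?_⟩
  · exact ((i1.mul r3).mul (r5.pow 5)).mul i5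
  · exact ((i3.mul (r3.pow 3)).mul (r5.pow 3)).mul j3
  · exact ((hR.mul r3).mul r5).mul r15
  · refine Tr.cancel (W := φ * E15 ^ 5) (b := mulL (dilL 3 l1) (Tr.powL (dilL 5 l1) 5)) ?_
      (t1.mul (t15.pow 5)) (by rw [map_mul, map_pow, h1, c15]; norm_num) (by decide +kernel)
    refine (t3.mul (t5.pow 5)).of_eq ?_
    linear_combination (-(E3 * E5 ^ 5 * (V5 * E15 ^ 5))) * hV1 - E3 * E5 ^ 5 * hV5
  · refine Tr.cancel (W := φ ^ 3 * E15 ^ 3)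
      (b := mulL (Tr.powL (dilL 3 l1) 3) (Tr.powL (dilL 5 l1) 3)) ?_
      ((t1.pow 3).mul (t15.pow 3)) (by rw [map_mul, map_pow, map_pow, h1, c15]; norm_num)
      (by decide +kernel)
    refine ((t3.pow 3).mul (t5.pow 3)).of_eq ?_
    linear_combination (-(E3 ^ 3 * E5 ^ 3 * (W3 * E15 ^ 3))) * hV3 - E3 ^ 3 * E5 ^ 3 * hW3
  · exact (((t1.mul t3).mul t5).mul t15).congr (by decide +kernel)

theorem identity_one {Ξ U : ℤ⟦X⟧} (hΞ : Tr Ξ lxi) (hU : Tr U lups) : PowerSeries.X ^ 13 ∣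
    (Ξ ^ 2 + 9 * (PowerSeries.X * U) ^ 2 + 5 * (PowerSeries.X * (Ξ * U))) ^ 2 -
      Ξ ^ 2 * (U ^ 2 - PowerSeries.X ^ 2) ^ 2 := by
  refine Tr.dvd_of_zero ?_
  rw [num 9, num 5]
  refine Tr.congr (((((hΞ.pow 2).add ((Tr.C 9).mul ((Tr.X.mul hU).pow 2))).add
    ((Tr.C 5).mul (Tr.X.mul (hΞ.mul hU)))).pow 2).sub
    ((hΞ.pow 2).mul (((hU.pow 2).sub (Tr.X.pow 2)).pow 2))) ?_
  decide +kernel

theorem identity_two {Ξ P : ℤ⟦X⟧} (hΞ : Tr Ξ lxi) (hP : Tr P lphi) : PowerSeries.X ^ 13 ∣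
    (PowerSeries.X * PowerSeries.derivative ℤ Ξ - 2 * Ξ) ^ 2 - P ^ 2 * (4 * Ξ ^ 3 -
      7 * (PowerSeries.X * Ξ) ^ 2 - 36 * (PowerSeries.X ^ 4 * Ξ)) := by
  refine Tr.dvd_of_zero ?_
  rw [num 2, num 4, num 7, num 36]
  refine Tr.congr (((hΞ.theta.sub ((Tr.C 2).mul hΞ)).pow 2).sub ((hP.pow 2).mul
    ((((Tr.C 4).mul (hΞ.pow 3)).sub ((Tr.C 7).mul ((Tr.X.mul hΞ).pow 2))).sub
    ((Tr.C 36).mul ((Tr.X.pow 4).mul hΞ))))) ?_
  decide +kernel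

end Pool.Agent.H757_X15
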