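import Pool.Agent.H757_X15.MT.Cusps15
import Pool.Agent.H757_X15.MT.CP
import Pool.Agent.H757_X15.MT.QX15
import Pool.Agent.H757_X15.StmA
import Pool.Agent.W97.MT.Ident
import Pool.Agent.W598.MT.QEXP

/-!
The identities between the modular functions on `X_0(15)`.
-/

set_option autoImplicit false

open Filter Topology

namespace Pool.Agent.H757_X15

open Pool.Agent.W97.TW
open Pool.Agent.W97.MT (QV Rep Tr S_QEXP qq qq_ne norm_qq_lt iI iI_pos H_open comp_cont eq_or_eq_neg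
  mul_zero_or Qq_analytic QV_zero_of_dvd hasDerivAt_qq num)

/-- invariance under `Γ_0(15)` -/
def Inv (g : ℂ → ℂ) : Prop := ∀ a b c d : ℤ, a * d - b * (15 * c) = 1 → ∀ z : ℂ, 0 < z.im →
  g ((a * z + b) / (15 * c * z + d)) = g z

theorem cp_zero (hcp : S_CP) {g : ℂ → ℂ} (hd : ∀ z : ℂ, 0 < z.im → DifferentiableAt ℂ g z)
    (hinv : Inv g) (h1 : QV g 0) {v15 v5 v3 : ℂ} (h15 : QV (fun z => g (m15 z)) v15)
    (h5 : QV (fun z => g (m5 z)) v5) (h3 : QV (fun z => g (m3 z)) v3) :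
    ∀ z : ℂ, 0 < z.im → g z = 0 := by
  obtain ⟨c, hc⟩ := hcp g (fun z hz => (hd z hz).differentiableWithinAt) hinv h1.bounded'
    h15.bounded h5.bounded h3.bounded
  have h3 : QV g c := (QV.const c).of_eq (iI_pos.mono fun z hz => hc z hz)
  have h4 := h3.val_unique h1
  intro z hz
  rw [hc z hz, h4]

lemma qq_X1 {z : ℂ} (hz : 0 < z.im) : qq z ^ 2 * X1 z = xi (qq z) := by
  rw [X1_q hz]
  field_simp [qq_ne z]

lemma qq_Y2 {z : ℂ} (hz : 0 < z.im) : qq z * Y2 z = ups (qq z) := by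
  rw [Y2_q hz]
  field_simp [qq_ne z]

lemma xi_zero : xi 0 = 1 := by
  unfold xi
  simp [Q_zero]

lemma ups_zero : ups 0 = 1 := by
  unfold ups
  simp [Q_zero]

lemma phi_zero : phi 0 = 1 := by
  unfold phi
  simp [Q_zero]

lemma QV_xi : QV (fun z => xi (qq z)) 1 := by
  have h1 : AnalyticAt ℂ xi 0 := by
    have e1 := Qq_analytic 1 one_ne_zero
    have e3 := Qq_analytic 3 (by norm_num)
    have e5 := Qq_analytic 5 (by norm_num)
    have e15 := Qq_analytic 15 (by norm_num)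
    simp only [pow_one] at e1
    exact (((e1.inv (by simp [Q_zero])).mul e3).mul (e5.pow 5)).mul
      ((e15.pow 5).inv (by simp [Q_zero]))
  exact (QV.comp h1).of_val xi_zero

lemma QV_ups : QV (fun z => ups (qq z)) 1 := by
  have h1 : AnalyticAt ℂ ups 0 := by
    have e1 := Qq_analytic 1 one_ne_zero
    have e3 := Qq_analytic 3 (by norm_num)
    have e5 := Qq_analytic 5 (by norm_num)
    have e15 := Qq_analytic 15 (by norm_num)
    simp only [pow_one] at e1
    exact ((((e1.pow 3).inv (by simp [Q_zero])).mul (e3.pow 3)).mul (e5.pow 3)).mul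
      ((e15.pow 3).inv (by simp [Q_zero]))
  exact (QV.comp h1).of_val ups_zero

lemma phi_analytic : AnalyticAt ℂ phi 0 := by
  have e1 := Qq_analytic 1 one_ne_zero
  have e3 := Qq_analytic 3 (by norm_num)
  have e5 := Qq_analytic 5 (by norm_num)
  have e15 := Qq_analytic 15 (by norm_num)
  simp only [pow_one] at e1
  exact ((e1.mul e3).mul e5).mul e15

lemma QV_phi : QV (fun z => phi (qq z)) 1 := (QV.comp phi_analytic).of_val phi_zero

/-- the function `X1` after `w15` -/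
noncomputable def X' (z : ℂ) : ℂ := 9 * Y2 z ^ 2 / X1 z

lemma X'_diff {z : ℂ} (hz : 0 < z.im) : DifferentiableAt ℂ X' z := by
  have h1 := X1_diff hz
  have h2 := Y2_diff hz
  exact ((h2.pow 2).const_mul 9).div h1 (X1_ne hz)

lemma X'_cont : ContinuousOn X' {z : ℂ | 0 < z.im} := fun _ hz =>
  (X'_diff hz).continuousAt.continuousWithinAt

lemma X'_mul {z : ℂ} (hz : 0 < z.im) : X1 z * X' z = 9 * Y2 z ^ 2 := by
  unfold X'
  rw [mul_div_cancel₀ _ (X1_ne hz)]

lemma X'_ne {z : ℂ} (hz : 0 < z.im) : X' z ≠ 0 := by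
  intro h
  have h1 := X'_mul hz
  rw [h, mul_zero] at h1
  have h2 := Y2_ne hz
  have : (9 : ℂ) * Y2 z ^ 2 ≠ 0 := mul_ne_zero (by norm_num) (pow_ne_zero 2 h2)
  exact this h1.symm

lemma QV_X' : QV X' 9 := by
  refine ((((QV.const 9).mul (QV_ups.pow 2)).mul (QV_xi.inv one_ne_zero)).of_eq
    (iI_pos.mono fun z hz => ?_)).of_val (by norm_num)
  have hx := X1_ne hz
  have hq := qq_ne z
  rw [← qq_X1 hz, ← qq_Y2 hz]
  unfold X'
  field_simp

/-- the first function, `(X + X' + 5 V)² - (V² - 1)²` -/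
noncomputable def g1 (z : ℂ) : ℂ :=
  (X1 z + X' z + 5 * Y2 z) ^ 2 - (Y2 z ^ 2 - 1) ^ 2

lemma g1_eq {z : ℂ} (hz : 0 < z.im) : g1 z =
    (X1 z ^ 2 + 9 * Y2 z ^ 2 + 5 * (X1 z * Y2 z)) ^ 2 / X1 z ^ 2 - (Y2 z ^ 2 - 1) ^ 2 := by
  have hx := X1_ne hz
  unfold g1 X'
  field_simp

lemma g1_diff {z : ℂ} (hz : 0 < z.im) : DifferentiableAt ℂ g1 z := by
  have h1 := X1_diff hz
  have h2 := Y2_diff hz
  have h3 := X'_diff hz
  unfold g1
  fun_prop

lemma gam_pos {a b c d : ℤ} (h : a * d - b * (15 * c) = 1) {z : ℂ} (hz : 0 < z.im) :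
    0 < ((a * z + b) / (15 * c * z + d) : ℂ).im := (G_gamma h hz).1

lemma g1_inv : Inv g1 := by
  intro a b c d h z hz
  rw [g1_eq hz, g1_eq (gam_pos h hz), X1_sq_gamma h hz, Y2_sq_gamma h hz, XY_gamma h hz]

lemma g1_m15 {z : ℂ} (hz : 0 < z.im) : g1 (m15 z) = g1 z := by
  have hm : 0 < (m15 z).im := w15_pos hz
  have hx := X1_ne hz
  have hy := Y2_ne hz
  rw [g1_eq hm]
  unfold m15
  rw [X1_w15' hz, Y2_w15 hz, XY_w15' hz]
  unfold g1 X'
  field_simp
  ring

theorem g1_zero (hcp : S_CP) (hq : S_QEXP) : ∀ z : ℂ, 0 < z.im → g1 z = 0 := by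
  obtain ⟨Ξ, U, P, rΞ, rU, rP, tΞ, tU, tP⟩ := expansions hq
  have hid := identity_one tΞ tU
  rw [num 9, num 5] at hid
  have hrep := ((((rΞ.pow 2).add ((Rep.C 9).mul ((Rep.X.mul rU).pow 2))).add
    ((Rep.C 5).mul (Rep.X.mul (rΞ.mul rU)))).pow 2).sub
    ((rΞ.pow 2).mul (((rU.pow 2).sub (Rep.X.pow 2)).pow 2))
  have h0 : QV (fun z => xi (qq z) ^ 2 * g1 z) 0 := by
    refine QV_zero_of_dvd (m := 4) hrep (dvd_trans (pow_dvd_pow _ (by norm_num)) hid) ?_
    intro z hz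
    have hx := X1_ne hz
    have hq := qq_ne z
    rw [g1_eq hz, ← qq_X1 hz, ← qq_Y2 hz]
    push_cast
    field_simp
  have h0' : QV g1 0 := by
    refine ((((QV_xi.pow 2).inv (by norm_num)).mul h0).of_eq (iI_pos.mono fun z hz => ?_)).of_val
      (by simp)
    have hx : xi (qq z) ≠ 0 := by
      rw [← qq_X1 hz]
      exact mul_ne_zero (pow_ne_zero 2 (qq_ne z)) (X1_ne hz)
    field_simp
  have h15 : QV (fun z => g1 (m15 z)) 0 := h0'.of_eq (iI_pos.mono fun z hz => g1_m15 hz)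
  have h5 : ∃ v, QV (fun z => g1 (m5 z)) v := by
    obtain ⟨x, hx0, hx⟩ : ∃ x : ℂ, x ≠ 0 ∧ QV (fun z => X1 (m5 z)) x := by
      rcases cusp5 with h | h
      · exact ⟨_, one_ne_zero, h.X⟩
      · exact ⟨_, by norm_num, h.X⟩
    exact ⟨_, (((hx.add (((QV.const 9).mul (cusp5_Y.pow 2)).mul (hx.inv hx0))).add
      ((QV.const 5).mul cusp5_Y)).pow 2).sub (((cusp5_Y.pow 2).sub (QV.const 1)).pow 2)⟩
  have h3 : ∃ v, QV (fun z => g1 (m3 z)) v := by
    obtain ⟨v, hv⟩ := cusp3_YX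
    refine ⟨_, ((((cusp3.X.add ((QV.const 9).mul hv)).add
      ((QV.const 5).mul cusp3_Y)).pow 2).sub (((cusp3_Y.pow 2).sub (QV.const 1)).pow 2)).of_eq
      (Eventually.of_forall fun z => ?_)⟩
    unfold g1 X'
    ring
  obtain ⟨v5, h5⟩ := h5
  obtain ⟨v3, h3⟩ := h3
  exact cp_zero hcp (fun z hz => g1_diff hz) g1_inv h0' h15 h5 h3

/-- the leading term of `V² - 1` -/
lemma QV_N : QV (fun z => qq z ^ 2 * (Y2 z ^ 2 - 1)) 1 := by
  refine (((QV_ups.pow 2).sub (QV.qq'.pow 2)).of_eq (iI_pos.mono fun z hz => ?_)).of_val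
    (by norm_num)
  rw [← qq_Y2 hz]
  ring

lemma QV_XD : QV (fun z => qq z ^ 2 * (X1 z + X' z + 5 * Y2 z)) 1 := by
  refine (((QV_xi.add ((QV.qq'.pow 2).mul QV_X')).add ((QV.const 5).mul
    (QV.qq'.mul QV_ups))).of_eq (iI_pos.mono fun z hz => ?_)).of_val (by norm_num)
  rw [← qq_X1 hz, ← qq_Y2 hz]
  ring

/-- the equation of the curve -/
theorem curve0 (hcp : S_CP) (hq : S_QEXP) : ∀ z : ℂ, 0 < z.im →
    X1 z + X' z + 5 * Y2 z = Y2 z ^ 2 - 1 := by
  have h0 := g1_zero hcp hq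
  have h := mul_zero_or (f := fun z => X1 z + X' z + 5 * Y2 z - (Y2 z ^ 2 - 1))
      (g := fun z => X1 z + X' z + 5 * Y2 z + (Y2 z ^ 2 - 1)) (fun z hz => by
        have h1 := X1_diff hz
        have h2 := Y2_diff hz
        have h3 := X'_diff hz
        fun_prop) (fun z hz => by
        have h1 := X1_diff hz
        have h2 := Y2_diff hz
        have h3 := X'_diff hz
        fun_prop) (fun z hz => by
        have := h0 z hz
        unfold g1 at this
        linear_combination this)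
  rcases h with h | h
  · intro z hz
    exact sub_eq_zero.1 (h z hz)
  · exfalso
    have h1 := (QV_XD.add QV_N).of_eq (f := fun _ => 0) (iI_pos.mono fun z hz => by
      have := h z hz
      linear_combination (-(qq z ^ 2)) * this)
    have h2 := h1.val_unique (QV.const 0)
    norm_num at h2

/-- the equation of the curve -/
theorem curve (hcp : S_CP) (hq : S_QEXP) {z : ℂ} (hz : 0 < z.im) :
    X1 z * (X1 z + 1) + 9 * Y2 z ^ 2 = X1 z * Y2 z ^ 2 - 5 * X1 z * Y2 z := by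
  have h1 := curve0 hcp hq z hz
  have h2 := X'_mul hz
  linear_combination X1 z * h1 - h2

lemma V_ne (hV : ∀ z : ℂ, 0 < z.im → Y2 z ^ 2 - 1 = 0) : False := by
  have h3 := QV_N.of_eq (f := fun _ => 0) (iI_pos.mono fun z hz => by rw [hV z hz]; ring)
  have h4 := h3.val_unique (QV.const 0)
  norm_num at h4

/-- `X1` is invariant -/
theorem X1_inv (hcp : S_CP) (hq : S_QEXP) : Inv X1 := by
  intro a b c d h
  have hm : ∀ z : ℂ, 0 < z.im → 0 < ((a * z + b) / (15 * c * z + d) : ℂ).im := fun z hz =>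
    (G_gamma h hz).1
  have hc : ContinuousOn (fun z : ℂ => X1 ((a * z + b) / (15 * c * z + d))) {z : ℂ | 0 < z.im} := by
    refine X1_cont.comp ?_ hm
    intro z hz
    have := (G_gamma h hz).2.1
    exact ContinuousAt.continuousWithinAt (ContinuousAt.div (by fun_prop) (by fun_prop) this)
  rcases eq_or_eq_neg hc X1_cont (fun z hz => X1_sq_gamma h hz) (fun z hz => X1_ne hz) with h1 | h1
  · exact h1
  · exfalso
    refine V_ne fun z hz => ?_
    have h3 := curve hcp hq hz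
    have h4 := curve hcp hq (hm z hz)
    have h5 := XY_gamma h hz
    have h6 := Y2_sq_gamma h hz
    have hx := X1_ne hz
    rw [h1 z hz] at h4 h5
    have h7 : Y2 ((a * z + b) / (15 * c * z + d)) = -Y2 z := by
      refine mul_left_cancel₀ (neg_ne_zero.2 hx) ?_
      linear_combination h5
    rw [h7] at h4
    have h8 : (2 * X1 z) * (Y2 z ^ 2 - 1) = 0 := by linear_combination h4 - h3
    rcases mul_eq_zero.1 h8 with h9 | h9
    · exact absurd h9 (mul_ne_zero two_ne_zero hx)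
    · exact h9

/-- `Y2` is invariant -/
theorem Y2_inv (hcp : S_CP) (hq : S_QEXP) : Inv Y2 := by
  intro a b c d h z hz
  have h5 := XY_gamma h hz
  rw [X1_inv hcp hq a b c d h z hz] at h5
  exact mul_left_cancel₀ (X1_ne hz) h5

/-- `X1` after `w15` -/
theorem X1_m15 (hcp : S_CP) (hq : S_QEXP) : ∀ z : ℂ, 0 < z.im →
    X1 (m15 z) = X' z ∧ Y2 (m15 z) = Y2 z := by
  have hm : ∀ z : ℂ, 0 < z.im → 0 < (m15 z).im := fun z hz => w15_pos hz
  have hc : ContinuousOn (fun z : ℂ => X1 (m15 z)) {z : ℂ | 0 < z.im} := by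
    refine X1_cont.comp ?_ hm
    intro z hz
    have h0 : z ≠ 0 := Pool.Agent.W97.MT.z_ne hz
    unfold m15
    exact ContinuousAt.continuousWithinAt (ContinuousAt.div (by fun_prop) (by fun_prop)
      (mul_ne_zero (by norm_num) h0))
  have hsq : ∀ z : ℂ, 0 < z.im → X1 (m15 z) ^ 2 = X' z ^ 2 := fun z hz => X1_w15' hz
  have hxy : ∀ z : ℂ, 0 < z.im → X1 (m15 z) * Y2 (m15 z) = X' z * Y2 z := fun z hz => by
    have := XY_w15' hz
    unfold m15
    rw [this]
    unfold X'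
    ring
  rcases eq_or_eq_neg hc X'_cont hsq (fun z hz => X'_ne hz) with h1 | h1
  · intro z hz
    refine ⟨h1 z hz, ?_⟩
    have h2 := hxy z hz
    rw [h1 z hz] at h2
    exact mul_left_cancel₀ (X'_ne hz) h2
  · exfalso
    refine V_ne fun z hz => ?_
    have hx := X1_ne hz
    have hx' := X'_ne hz
    have h2 := hxy z hz
    rw [h1 z hz] at h2
    have h7 : Y2 (m15 z) = -Y2 z := by
      refine mul_left_cancel₀ (neg_ne_zero.2 hx') ?_
      linear_combination h2
    have h3 := curve hcp hq hz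
    have h4 := curve hcp hq (hm z hz)
    rw [h1 z hz, h7] at h4
    have h5 := X'_mul hz
    have h8 : (2 * X' z * X1 z) * (Y2 z ^ 2 - 1) = 0 := by
      have h3' := curve0 hcp hq z hz
      linear_combination X1 z * h4 - (X1 z * X' z) * h3' + (X1 z) * h5
    rcases mul_eq_zero.1 h8 with h9 | h9
    · exact absurd h9 (mul_ne_zero (mul_ne_zero two_ne_zero hx') hx)
    · exact h9

theorem isCusp15 (hcp : S_CP) (hq : S_QEXP) : IsCusp m15 j15 9 := by
  rcases cusp15 with h | h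
  · exact h
  · exfalso
    have h1 := h.X.of_eq (f := X') (iI_pos.mono fun z hz => ((X1_m15 hcp hq z hz).1).symm)
    have h2 := h1.val_unique QV_X'
    norm_num at h2

theorem isCusp5 (hcp : S_CP) (hq : S_QEXP) : IsCusp m5 j5 (-1) := by
  rcases cusp5 with h | h
  · exfalso
    have h1 := (h.X.mul (h.X.add (QV.const 1))).add ((QV.const 9).mul (cusp5_Y.pow 2))
    have h2 := (h.X.mul (cusp5_Y.pow 2)).sub (((QV.const 5).mul h.X).mul cusp5_Y)
    have h3 := h1.val_unique (h2.of_eq (iI_pos.mono fun z hz => curve hcp hq (h.pos z hz)))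
    norm_num at h3
  · exact h

/-- `dx / (2πi f dz)` -/
noncomputable def R0 (z : ℂ) : ℂ := deriv X1 z / (2 * Real.pi * Complex.I * ff z)

lemma tpi_ne : (2 * Real.pi * Complex.I : ℂ) ≠ 0 := Complex.two_pi_I_ne_zero

lemma R0_diff {z : ℂ} (hz : 0 < z.im) : DifferentiableAt ℂ R0 z := by
  have h1 : DifferentiableOn ℂ X1 {z : ℂ | 0 < z.im} := fun w hw =>
    (X1_diff hw).differentiableWithinAt
  have h2 := (h1.deriv H_open).differentiableAt (H_open.mem_nhds hz)
  exact h2.div ((ff_diff hz).const_mul _) (mul_ne_zero tpi_ne (ff_ne hz))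

lemma hasDerivAt_gamma {a b c d : ℤ} (h : a * d - b * (15 * c) = 1) {z : ℂ} (hz : 0 < z.im) :
    HasDerivAt (fun z : ℂ => (a * z + b) / (15 * c * z + d)) (((15 * c * z + d) ^ 2)⁻¹) z := by
  have h0 := (G_gamma h hz).2.1
  have h1 : HasDerivAt (fun w : ℂ => (a : ℂ) * w + b) a z := by
    simpa using ((hasDerivAt_id z).const_mul (a : ℂ)).add_const (b : ℂ)
  have h2 : HasDerivAt (fun w : ℂ => 15 * (c : ℂ) * w + d) (15 * c) z := by
    simpa using ((hasDerivAt_id z).const_mul (15 * (c : ℂ))).add_const (d : ℂ)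
  refine (h1.div h2 h0).congr_deriv ?_
  have h3 : (a : ℂ) * d - b * (15 * c) = 1 := by exact_mod_cast h
  field_simp
  linear_combination h3

/-- the derivative of `X1` is of weight two -/
lemma deriv_X1_gamma (hcp : S_CP) (hq : S_QEXP) {a b c d : ℤ} (h : a * d - b * (15 * c) = 1)
    {z : ℂ} (hz : 0 < z.im) :
    deriv X1 ((a * z + b) / (15 * c * z + d)) = (15 * c * z + d) ^ 2 * deriv X1 z := by
  have h0 := (G_gamma h hz).2.1
  have hm := (G_gamma h hz).1
  have h1 := (X1_diff hm).hasDerivAt.comp z (hasDerivAt_gamma h hz)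
  have h2 : X1 ∘ (fun z : ℂ => (a * z + b) / (15 * c * z + d)) =ᶠ[𝓝 z] X1 := by
    filter_upwards [H_open.mem_nhds hz] with w hw
    exact X1_inv hcp hq a b c d h w hw
  have h3 := (h1.congr_of_eventuallyEq h2.symm).deriv
  rw [h3, mul_comm (deriv X1 _), ← mul_assoc, mul_inv_cancel₀ (pow_ne_zero 2 h0), one_mul]

/-- the function comparing `R0²` with the cubic -/
noncomputable def g2 (z : ℂ) : ℂ := R0 z ^ 2 - (4 * X1 z ^ 3 - 7 * X1 z ^ 2 - 36 * X1 z)

lemma g2_diff {z : ℂ} (hz : 0 < z.im) : DifferentiableAt ℂ g2 z := by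
  have h1 := X1_diff hz
  have h2 := R0_diff hz
  unfold g2
  fun_prop

lemma g2_inv (hcp : S_CP) (hq : S_QEXP) : Inv g2 := by
  intro a b c d h z hz
  have h0 := (G_gamma h hz).2.1
  have hf := ff_ne hz
  unfold g2 R0
  rw [X1_inv hcp hq a b c d h z hz, deriv_X1_gamma hcp hq h hz, div_pow, mul_pow _ (ff _),
    ff_sq_gamma h hz]
  congr 1
  field_simp

/-- `R0²` at a cusp -/
lemma R0_cusp {m j : ℂ → ℂ} {x : ℂ} (h : IsCusp m j x) :
    ∃ v, QV (fun z => R0 (m z) ^ 2) v := by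
  obtain ⟨k, hk, h1⟩ := h.X.deriv'
  refine ⟨_, (((QV.comp hk).mul (QV_phi.inv one_ne_zero)).pow 2).of_eq ?_⟩
  filter_upwards [h1, iI_pos] with z hz hp
  have h2 := (X1_diff (h.pos z hp)).hasDerivAt.comp z (h.der z hp)
  have h3 := h2.unique hz
  have h4 := h.ffj z hp
  have hf := ff_ne hp
  have hj := h.jne z hp
  have hfm := ff_ne (h.pos z hp)
  have hq := qq_ne z
  have hph : phi (qq z) ≠ 0 := by
    intro h0
    rw [ff_q, h0, mul_zero] at hf
    exact hf rfl
  have h5 : R0 (m z) ^ 2 = (deriv X1 (m z) * j z) ^ 2 / ((2 * Real.pi * Complex.I) ^ 2 *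
      (ff (m z) * j z) ^ 2) := by
    unfold R0
    field_simp
  have hI : (Complex.I : ℂ) ≠ 0 := Complex.I_ne_zero
  have hpi : (Real.pi : ℂ) ≠ 0 := by exact_mod_cast Real.pi_ne_zero
  rw [h5, h3, h4, ff_q]
  field_simp

lemma g2_cusp {m j : ℂ → ℂ} {x : ℂ} (h : IsCusp m j x) : ∃ v, QV (fun z => g2 (m z)) v := by
  obtain ⟨v, hv⟩ := R0_cusp h
  exact ⟨_, hv.sub ((((QV.const 4).mul (h.X.pow 3)).sub ((QV.const 7).mul (h.X.pow 2))).sub
    ((QV.const 36).mul h.X))⟩

/-- `R0` in terms of `q` -/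
lemma R0_q {Ξ : PowerSeries ℤ} (hΞ : Rep xi Ξ) {z : ℂ} (hz : 0 < z.im) :
    qq z ^ 3 * (R0 z * phi (qq z)) = qq z * deriv xi (qq z) - 2 * xi (qq z) := by
  have hx : DifferentiableAt ℂ xi (qq z) :=
    (Pool.Agent.W97.MT.RepC.differentiableOn hΞ).differentiableAt (Metric.isOpen_ball.mem_nhds
      (by simpa using norm_qq_lt hz))
  have hq := qq_ne z
  have h1 := (hx.hasDerivAt.comp z (hasDerivAt_qq z)).div ((hasDerivAt_qq z).pow 2)
    (pow_ne_zero 2 hq)
  have h2 : X1 =ᶠ[𝓝 z] (xi ∘ qq) / (qq ^ 2) := by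
    filter_upwards [H_open.mem_nhds hz] with w hw
    exact X1_q hw
  have h3 := (h1.congr_of_eventuallyEq h2).deriv
  have hf := ff_ne hz
  have hph : phi (qq z) ≠ 0 := by
    intro h0
    rw [ff_q, h0, mul_zero] at hf
    exact hf rfl
  have hI : (Complex.I : ℂ) ≠ 0 := Complex.I_ne_zero
  have hpi : (Real.pi : ℂ) ≠ 0 := by exact_mod_cast Real.pi_ne_zero
  unfold R0
  rw [h3, ff_q]
  simp only [Function.comp_apply, Pi.pow_apply]
  field_simp
  push_cast
  ring

theorem g2_zero (hcp : S_CP) (hq : S_QEXP) : ∀ z : ℂ, 0 < z.im → g2 z = 0 := by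
  obtain ⟨Ξ, U, P, rΞ, rU, rP, tΞ, tU, tP⟩ := expansions hq
  obtain ⟨v15, h15⟩ := g2_cusp (isCusp15 hcp hq)
  obtain ⟨v5, h5⟩ := g2_cusp (isCusp5 hcp hq)
  obtain ⟨v3, h3⟩ := g2_cusp cusp3
  have hid := identity_two tΞ tP
  rw [num 2, num 4, num 7, num 36] at hid
  have hrep := ((rΞ.theta.sub ((Rep.C 2).mul rΞ)).pow 2).sub ((rP.pow 2).mul
    ((((Rep.C 4).mul (rΞ.pow 3)).sub ((Rep.C 7).mul ((Rep.X.mul rΞ).pow 2))).sub
    ((Rep.C 36).mul ((Rep.X.pow 4).mul rΞ))))
  have h0 : QV (fun z => phi (qq z) ^ 2 * g2 z) 0 := by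
    refine QV_zero_of_dvd (m := 6) hrep (dvd_trans (pow_dvd_pow _ (by norm_num)) hid) ?_
    intro z hz
    unfold g2
    push_cast
    rw [← R0_q rΞ hz, ← qq_X1 hz]
    ring
  have h0' : QV g2 0 := by
    refine ((((QV_phi.pow 2).inv (by norm_num)).mul h0).of_eq (iI_pos.mono fun z hz => ?_)).of_val
      (by simp)
    have hf := ff_ne hz
    have hph : phi (qq z) ≠ 0 := by
      intro h0
      rw [ff_q, h0, mul_zero] at hf
      exact hf rfl
    field_simp
  exact cp_zero hcp (fun z hz => g2_diff hz) (g2_inv hcp hq) h0' h15 h5 h3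

lemma QV_R0 {Ξ : PowerSeries ℤ} (hΞ : Rep xi Ξ) : QV (fun z => qq z ^ 3 * R0 z) (-2) := by
  have h1 : AnalyticAt ℂ (deriv xi) 0 := hΞ.analyticAt_zero.deriv
  refine ((((QV.qq'.mul (QV.comp h1)).sub ((QV.const 2).mul QV_xi)).mul
    (QV_phi.inv one_ne_zero)).of_eq (iI_pos.mono fun z hz => ?_)).of_val (by norm_num)
  have hf := ff_ne hz
  have hph : phi (qq z) ≠ 0 := by
    intro h0
    rw [ff_q, h0, mul_zero] at hf
    exact hf rfl
  rw [← R0_q hΞ hz]
  field_simp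

/-- `dx / ω` as a function on the curve -/
noncomputable def RR (z : ℂ) : ℂ := 5 * X1 z - 2 * Y2 z * (X1 z - 9)

lemma RR_diff {z : ℂ} (hz : 0 < z.im) : DifferentiableAt ℂ RR z := by
  have h1 := X1_diff hz
  have h2 := Y2_diff hz
  unfold RR
  fun_prop

lemma QV_RR : QV (fun z => qq z ^ 3 * RR z) (-2) := by
  refine (((QV.const 5).mul (QV.qq'.mul QV_xi)).sub (((QV.const 2).mul QV_ups).mul
    (QV_xi.sub ((QV.const 9).mul (QV.qq'.pow 2))))).of_eq (iI_pos.mono fun z hz => ?_) |>.of_val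
    (by norm_num)
  unfold RR
  rw [← qq_X1 hz, ← qq_Y2 hz]
  ring

lemma RR_sq (hcp : S_CP) (hq : S_QEXP) {z : ℂ} (hz : 0 < z.im) :
    RR z ^ 2 = 4 * X1 z ^ 3 - 7 * X1 z ^ 2 - 36 * X1 z := by
  have := curve hcp hq hz
  unfold RR
  linear_combination (-(4 * (X1 z - 9))) * this

/-- the differential -/
theorem R0_eq (hcp : S_CP) (hq : S_QEXP) : ∀ z : ℂ, 0 < z.im → R0 z = RR z := by
  obtain ⟨Ξ, U, P, rΞ, rU, rP, tΞ, tU, tP⟩ := expansions hq
  have h := mul_zero_or (f := fun z => R0 z - RR z) (g := fun z => R0 z + RR z) (fun z hz => by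
        have h1 := R0_diff hz
        have h2 := RR_diff hz
        fun_prop) (fun z hz => by
        have h1 := R0_diff hz
        have h2 := RR_diff hz
        fun_prop) (fun z hz => by
        have h1 := g2_zero hcp hq z hz
        have h2 := RR_sq hcp hq hz
        unfold g2 at h1
        linear_combination h1 - h2)
  rcases h with h | h
  · intro z hz
    exact sub_eq_zero.1 (h z hz)
  · exfalso
    have h1 := ((QV_R0 rΞ).add QV_RR).of_eq (f := fun _ => 0) (iI_pos.mono fun z hz => by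
      have := h z hz
      linear_combination (-(qq z ^ 3)) * this)
    have h2 := h1.val_unique (QV.const 0)
    norm_num at h2

theorem deriv_X1 (hcp : S_CP) (hq : S_QEXP) {z : ℂ} (hz : 0 < z.im) :
    deriv X1 z = 2 * Real.pi * Complex.I * ff z * RR z := by
  rw [← R0_eq hcp hq z hz]
  unfold R0
  rw [mul_div_cancel₀ _ (mul_ne_zero tpi_ne (ff_ne hz))]

/-- `ff` is of weight two -/
theorem ff_gamma (hcp : S_CP) (hq : S_QEXP) {a b c d : ℤ} (h : a * d - b * (15 * c) = 1) :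
    ∀ z : ℂ, 0 < z.im → ff ((a * z + b) / (15 * c * z + d)) = (15 * c * z + d) ^ 2 * ff z := by
  have hm : ∀ z : ℂ, 0 < z.im → 0 < ((a * z + b) / (15 * c * z + d) : ℂ).im := fun z hz =>
    (G_gamma h hz).1
  have hc : ContinuousOn (fun z : ℂ => ff ((a * z + b) / (15 * c * z + d))) {z : ℂ | 0 < z.im} := by
    refine ff_cont.comp ?_ hm
    intro z hz
    have := (G_gamma h hz).2.1
    exact ContinuousAt.continuousWithinAt (ContinuousAt.div (by fun_prop) (by fun_prop) this)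
  have hc' : ContinuousOn (fun z : ℂ => (15 * c * z + d) ^ 2 * ff z) {z : ℂ | 0 < z.im} :=
    (by fun_prop : Continuous fun z : ℂ => (15 * (c : ℂ) * z + d) ^ 2).continuousOn.mul ff_cont
  rcases eq_or_eq_neg hc hc' (fun z hz => by rw [ff_sq_gamma h hz]; ring)
    (fun z hz => mul_ne_zero (pow_ne_zero 2 (G_gamma h hz).2.1) (ff_ne hz)) with h1 | h1
  · exact h1
  · exfalso
    have h2 : ∀ z : ℂ, 0 < z.im → RR z = 0 := by
      intro z hz
      have h3 := deriv_X1 hcp hq hz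
      have h4 := deriv_X1 hcp hq (hm z hz)
      rw [deriv_X1_gamma hcp hq h hz, h1 z hz, h3] at h4
      have h5 : RR ((a * z + b) / (15 * c * z + d)) = RR z := by
        unfold RR
        rw [X1_inv hcp hq a b c d h z hz, Y2_inv hcp hq a b c d h z hz]
      rw [h5] at h4
      have h6 : (2 * Real.pi * Complex.I * ff z * (15 * c * z + d) ^ 2) * RR z = 0 := by
        linear_combination (1 / 2 : ℂ) * h4
      rcases mul_eq_zero.1 h6 with h7 | h7
      · exact absurd h7 (mul_ne_zero (mul_ne_zero tpi_ne (ff_ne hz))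
          (pow_ne_zero 2 (G_gamma h hz).2.1))
      · exact h7
    have h3 := QV_RR.of_eq (f := fun _ => 0) (iI_pos.mono fun z hz => by rw [h2 z hz]; ring)
    have h4 := h3.val_unique (QV.const 0)
    norm_num at h4

/-- the sign at a cusp -/
lemma ff_cusp {m j : ℂ → ℂ} {x : ℂ} (h : IsCusp m j x) :
    ∃ ε : ℂ, (ε = 1 ∨ ε = -1) ∧ ∀ z : ℂ, 0 < z.im → ff (m z) * j z = ε * ff z := by
  have hc : ContinuousOn (fun z => ff (m z) * j z) {z : ℂ | 0 < z.im} :=
    (comp_cont h.pos h.der ff_cont).mul h.jcont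
  rcases eq_or_eq_neg hc ff_cont h.ffj (fun z hz => ff_ne hz) with h1 | h1
  · exact ⟨1, Or.inl rfl, fun z hz => by rw [h1 z hz]; ring⟩
  · exact ⟨-1, Or.inr rfl, fun z hz => by rw [h1 z hz]; ring⟩

/-- CURVE, from the constant principle and the expansion -/
theorem t_CURVE_of (hcp : S_CP) (hq : S_QEXP) : S_CURVE := by
  refine ⟨fun a b c d h z hz => ⟨X1_inv hcp hq a b c d h z hz, Y2_inv hcp hq a b c d h z hz,
    ff_gamma hcp hq h z hz⟩, fun z hz => ⟨curve hcp hq hz, ?_⟩⟩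
  rw [deriv_X1 hcp hq hz]
  rfl

/-- the expansion of Euler's product -/
lemma hqe : S_QEXP := Pool.Agent.W598.MT.s_qexp

/-- CURVE -/
theorem t_CURVE : S_CURVE := t_CURVE_of t_CP hqe

end Pool.Agent.H757_X15
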