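import Pool.Agent.H757_X15.MT.Sym15
import Pool.Agent.TH940.Per
import Pool.Agent.W165.CE.FF

/-!
The newform `η(z) η(3z) η(5z) η(15z)` of the curve `X_0(15)`: coefficients, Hecke relations, Fricke
involution, and the short Weierstrass equation `y² = x³ - 12987 x - 263466`.
-/

set_option autoImplicit false

open UpperHalfPlane MatrixGroups CongruenceSubgroup Filter Topology MeasureTheory
open scoped ModularForm Pointwise

namespace Pool.Agent.H757_X15.Inst

open Pool.Agent.W97.MT (Rep Tr S_QEXP affCount ap IsGloballyMinimal qq hqe z_ne)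
open Pool.Agent.W97.TW

/-- all the facts on the coefficients that come from the `q`-expansion -/
theorem facts : (∀ n : ℕ, ∃ c : ℤ, (qExpansion 1 form15).coeff n = (c : ℂ)) ∧
    (qExpansion 1 form15).coeff 1 = 1 ∧
    (∀ l : ℕ, l.Prime → (qExpansion 1 form15).coeff l = (ap E15 l : ℂ)) ∧
    (∀ (p : ℕ), p.Prime → ∀ z : ℍ, heckeT 15 2 p form15 z = (ap E15 p : ℂ) * form15 z) := by
  obtain ⟨L, Op, Om, hOp, hOm, g2, g3, hL⟩ := t_LAT
  obtain ⟨Ξ, U, P, rΞ, rU, rP, tΞ, tU, tP⟩ := expansions hqe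
  have hP0 : PowerSeries.coeff 0 P = 1 := by
    rw [tP 0 (by norm_num)]; rfl
  have hcoef : ∀ l : ℕ, l.Prime → PowerSeries.coeff (l - 1) P = ap E15 l := fun l hl =>
    coef_eq L g2 g3 rΞ rU rP tΞ tU tP hl
  refine ⟨fun n => ⟨_, coeff_f15 t_CP hqe rP n⟩, ?_, ?_, ?_⟩
  · have h1 := coeff_f15 t_CP hqe rP 1
    change (qExpansion 1 (f15 t_CP hqe)).coeff 1 = 1
    rw [h1, show (1 : ℕ) = 0 + 1 by rfl, PowerSeries.coeff_succ_X_mul, hP0]
    norm_num
  · intro l hl
    have h1 := coeff_f15 t_CP hqe rP (l : ℕ)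
    have h2 := hcoef l hl
    obtain ⟨m, hm⟩ : ∃ m, (l : ℕ) = m + 1 := ⟨l - 1, by have := hl.pos; omega⟩
    rw [hm] at h2
    rw [Nat.add_sub_cancel] at h2
    change (qExpansion 1 (f15 t_CP hqe)).coeff (l : ℕ) = _
    rw [h1, hm, PowerSeries.coeff_succ_X_mul, h2]
  · intro p hp z
    have h1 := hecke_f15 t_CP hqe rP hP0 hp z
    rw [hcoef p hp] at h1
    have h6 : Pool.Agent.W97.MT.hecke 15 p form15 z = heckeT 15 2 p form15 z := by
      unfold Pool.Agent.W97.MT.hecke heckeT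
      norm_num
    rw [← h6]
    exact h1

/-- the Hecke relation at `p` -/
theorem rec (p : ℕ) (hp : p.Prime) (m : ℕ) :
    (qExpansion 1 form15).coeff (p * m) = (qExpansion 1 form15).coeff p *
      (qExpansion 1 form15).coeff m - (if p ∣ 15 then 0 else
        (p : ℂ) * (if p ∣ m then (qExpansion 1 form15).coeff (m / p) else 0)) := by
  obtain ⟨-, -, h3, h4⟩ := facts
  have h := hecke_rec form15 hp.pos (h4 p hp) m
  unfold B A at h
  rw [← h3 p hp] at h
  have e : (p : ℂ) ^ ((2 : ℤ) - 1) = p := by norm_num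
  rw [e] at h
  rw [← h]
  split_ifs <;> ring

theorem rec_pow (p : ℕ) (hp : p.Prime) (m : ℕ) (hm : ¬ p ∣ m) (j : ℕ) :
    (qExpansion 1 form15).coeff (p ^ j * m) = (qExpansion 1 form15).coeff (p ^ j) *
      (qExpansion 1 form15).coeff m := by
  obtain ⟨-, h1, -, -⟩ := facts
  induction j using Nat.strong_induction_on with
  | _ j ih =>
    match j with
    | 0 => rw [pow_zero, one_mul, h1, one_mul]
    | 1 =>
      rw [pow_one, rec p hp m, if_neg hm]
      split_ifs <;> ring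
    | j + 2 =>
      have e1 : p ^ (j + 2) * m = p * (p ^ (j + 1) * m) := by ring
      have e2 : p ^ (j + 2) = p * p ^ (j + 1) := by ring
      have d1 : p ∣ p ^ (j + 1) * m := Dvd.dvd.mul_right (dvd_pow_self p (by omega)) m
      have d2 : p ∣ p ^ (j + 1) := dvd_pow_self p (by omega)
      have q1 : p ^ (j + 1) * m / p = p ^ j * m := by
        rw [show p ^ (j + 1) * m = p * (p ^ j * m) by ring, Nat.mul_div_cancel_left _ hp.pos]
      have q2 : p ^ (j + 1) / p = p ^ j := by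
        rw [show p ^ (j + 1) = p * p ^ j by ring, Nat.mul_div_cancel_left _ hp.pos]
      rw [e1, e2, rec p hp (p ^ (j + 1) * m), rec p hp (p ^ (j + 1)), if_pos d1, if_pos d2, q1, q2,
        ih (j + 1) (by omega), ih j (by omega)]
      split_ifs <;> ring

theorem mul (m n : ℕ) (h : Nat.Coprime m n) :
    (qExpansion 1 form15).coeff (m * n) = (qExpansion 1 form15).coeff m *
      (qExpansion 1 form15).coeff n := by
  obtain ⟨-, h1, -, -⟩ := facts
  induction m using Nat.strong_induction_on generalizing n with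
  | _ m ih =>
    rcases Nat.eq_zero_or_pos m with rfl | hm
    · have hn : n = 1 := by simpa using h
      subst hn
      rw [mul_one, h1, mul_one]
    by_cases hm1 : m = 1
    · subst hm1
      rw [one_mul, h1, one_mul]
    set p := m.minFac with hp
    have hpp : p.Prime := Nat.minFac_prime hm1
    obtain ⟨j, m', hm', he⟩ := Nat.exists_eq_pow_mul_and_not_dvd hm.ne' p hpp.ne_one
    have hj : j ≠ 0 := by
      rintro rfl
      rw [pow_zero, one_mul] at he
      exact hm' (he ▸ Nat.minFac_dvd m)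
    have hpn : ¬ p ∣ n := by
      intro hd
      have := Nat.dvd_gcd (Nat.minFac_dvd m) hd
      rw [h] at this
      exact hpp.one_lt.ne' (Nat.dvd_one.1 this)
    have hm'0 : 0 < m' := Nat.pos_of_ne_zero fun h0 => hm' (h0 ▸ dvd_zero p)
    have hlt : m' < m := by
      rw [he]
      have : 1 < p ^ j := Nat.one_lt_pow hj hpp.one_lt
      nlinarith
    have hc : Nat.Coprime m' n := Nat.Coprime.coprime_dvd_left (he ▸ Dvd.intro_left _ rfl) h
    have hnd : ¬ p ∣ m' * n := by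
      intro hd
      rcases (Nat.Prime.dvd_mul hpp).1 hd with h2 | h2
      · exact hm' h2
      · exact hpn h2
    rw [he, mul_assoc, rec_pow p hpp (m' * n) hnd j, rec_pow p hpp m' hm' j, ih m' hlt n hc]
    ring

theorem pow (p j : ℕ) (hp : p.Prime) : (qExpansion 1 form15).coeff (p ^ (j + 2)) =
    (qExpansion 1 form15).coeff p * (qExpansion 1 form15).coeff (p ^ (j + 1)) -
      (if p ∣ 15 then 0 else (p : ℂ) * (qExpansion 1 form15).coeff (p ^ j)) := by
  have e2 : p ^ (j + 2) = p * p ^ (j + 1) := by ring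
  have d2 : p ∣ p ^ (j + 1) := dvd_pow_self p (by omega)
  have q2 : p ^ (j + 1) / p = p ^ j := by
    rw [show p ^ (j + 1) = p * p ^ j by ring, Nat.mul_div_cancel_left _ hp.pos]
  rw [e2, rec p hp (p ^ (j + 1)), if_pos d2, q2]

/-- the Fricke involution -/
theorem fricke : ∃ w : ℝ, (w = 1 ∨ w = -1) ∧ ∀ τ τ' : ℍ, (τ' : ℂ) * ((15 : ℂ) * (τ : ℂ)) = -1 →
    form15 τ' = -(w : ℂ) * (15 : ℂ) * (τ : ℂ) ^ 2 * form15 τ := by
  have hmap : IsMap m15 j15 := by
    rcases cusp15 with h | h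
    · exact h.map
    · exact h.map
  obtain ⟨ε, hε, h⟩ := hmap.sign
  have key : ∀ τ τ' : ℍ, (τ' : ℂ) * ((15 : ℂ) * (τ : ℂ)) = -1 →
      form15 τ' = ε * (15 : ℂ) * (τ : ℂ) ^ 2 * form15 τ := by
    intro τ τ' hτ
    have h0 : (τ : ℂ) ≠ 0 := z_ne τ.im_pos
    have e1 : (τ' : ℂ) = m15 τ := by
      unfold m15
      rw [eq_div_iff (mul_ne_zero (by norm_num) h0)]
      exact hτ
    have e2 := h τ τ.im_pos
    rw [← e1] at e2
    have e3 : form15 τ' = ff τ' := f15_apply t_CP hqe τ'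
    have e4 : form15 τ = ff τ := f15_apply t_CP hqe τ
    rw [e3, e4]
    unfold j15 at e2
    have h15 : (15 * (τ : ℂ) ^ 2) ≠ 0 := mul_ne_zero (by norm_num) (pow_ne_zero 2 h0)
    rw [← div_eq_mul_inv, div_eq_iff h15] at e2
    rw [e2]
    ring
  rcases hε with rfl | rfl
  · refine ⟨-1, Or.inr rfl, fun τ τ' hτ => ?_⟩
    rw [key τ τ' hτ]
    push_cast
    ring
  · refine ⟨1, Or.inl rfl, fun τ τ' hτ => ?_⟩
    rw [key τ τ' hτ]
    push_cast
    ring

/-- the number of solutions of the short Weierstrass equation -/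
theorem points_card (l : ℕ) (hl : l.Prime) (h2 : l ≠ 2) (h3 : l ≠ 3) :
    Nat.card {x : ZMod l × ZMod l //
      x.2 ^ 2 = x.1 ^ 3 + ((-12987 : ℤ) : ZMod l) * x.1 + ((-263466 : ℤ) : ZMod l)} =
    affCount E15 l := by
  have : Fact l.Prime := ⟨hl⟩
  have n2 : (2 : ZMod l) ≠ 0 := by
    intro h
    have : ((2 : ℕ) : ZMod l) = 0 := by exact_mod_cast h
    rw [ZMod.natCast_eq_zero_iff] at this
    exact h2 ((Nat.prime_dvd_prime_iff_eq hl Nat.prime_two).1 this)
  have n3 : (3 : ZMod l) ≠ 0 := by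
    intro h
    have : ((3 : ℕ) : ZMod l) = 0 := by exact_mod_cast h
    rw [ZMod.natCast_eq_zero_iff] at this
    exact h3 ((Nat.prime_dvd_prime_iff_eq hl Nat.prime_three).1 this)
  have n36 : (36 : ZMod l) ≠ 0 := by
    rw [show (36 : ZMod l) = 2 ^ 2 * 3 ^ 2 by norm_num]
    exact mul_ne_zero (pow_ne_zero 2 n2) (pow_ne_zero 2 n3)
  have n216 : (216 : ZMod l) ≠ 0 := by
    rw [show (216 : ZMod l) = 2 ^ 3 * 3 ^ 3 by norm_num]
    exact mul_ne_zero (pow_ne_zero 3 n2) (pow_ne_zero 3 n3)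
  unfold affCount
  symm
  refine Nat.card_congr
    { toFun := fun x => ⟨(36 * x.1.1 + 15, 216 * x.1.2 + 108 * x.1.1 + 108), ?_⟩
      invFun := fun x => ⟨((x.1.1 - 15) / 36, (x.1.2 - 3 * (x.1.1 - 15) - 108) / 216), ?_⟩
      left_inv := ?_
      right_inv := ?_ }
  · have h := x.2
    rw [WeierstrassCurve.Affine.equation_iff] at h
    simp only [E15, WeierstrassCurve.map, map_one, map_neg, map_ofNat] at h
    push_cast at h ⊢
    linear_combination 46656 * h
  · have h := x.2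
    rw [WeierstrassCurve.Affine.equation_iff]
    simp only [E15, WeierstrassCurve.map, map_one, map_neg, map_ofNat]
    push_cast at h ⊢
    have e1 : x.1.1 = 36 * ((x.1.1 - 15) / 36) + 15 := by field_simp; ring
    have e2 : x.1.2 = 216 * ((x.1.2 - 3 * (x.1.1 - 15) - 108) / 216) + 108 * ((x.1.1 - 15) / 36) + 108 := by
      field_simp
      ring
    set u := (x.1.1 - 15) / 36 with hu
    set v := (x.1.2 - 3 * (x.1.1 - 15) - 108) / 216 with hv
    rw [e1, e2] at h
    have n46656 : (46656 : ZMod l) ≠ 0 := by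
      rw [show (46656 : ZMod l) = 216 * 216 by norm_num]
      exact mul_ne_zero n216 n216
    apply mul_left_cancel₀ n46656
    linear_combination h
  · intro x
    ext
    · show (36 * x.1.1 + 15 - 15) / 36 = x.1.1
      field_simp
      ring
    · show (216 * x.1.2 + 108 * x.1.1 + 108 - 3 * (36 * x.1.1 + 15 - 15) - 108) / 216 = x.1.2
      field_simp
      ring
  · intro x
    ext
    · show 36 * ((x.1.1 - 15) / 36) + 15 = x.1.1
      field_simp
      ring
    · show 216 * ((x.1.2 - 3 * (x.1.1 - 15) - 108) / 216) + 108 * ((x.1.1 - 15) / 36) + 108 = x.1.2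
      field_simp
      ring

/-- `c(p) = a_p` for the short Weierstrass equation -/
theorem points (l : ℕ) (hl : l.Prime) (h2 : l ≠ 2) (h3 : l ≠ 3) :
    (qExpansion 1 form15).coeff l = (((l : ℤ) - Nat.card {x : ZMod l × ZMod l //
      x.2 ^ 2 = x.1 ^ 3 + ((-12987 : ℤ) : ZMod l) * x.1 + ((-263466 : ℤ) : ZMod l)} : ℤ) : ℂ) := by
  obtain ⟨-, -, h, -⟩ := facts
  rw [h l hl, points_card l hl h2 h3]
  rfl

/-- Hasse's bound -/
theorem good (l : ℕ) (hl : l.Prime) (h3 : l ≠ 3) :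
    ‖(qExpansion 1 form15).coeff l‖ ≤ 2 * Real.sqrt l := by
  by_cases h2 : l = 2
  · subst h2
    obtain ⟨-, -, h, -⟩ := facts
    obtain ⟨-, -, -, -, m2, -, -, -, -⟩ := t_MIN
    rw [h 2 hl]
    unfold ap
    rw [m2]
    have h1 : (1 : ℝ) ≤ Real.sqrt ((2 : ℕ) : ℝ) := Real.one_le_sqrt.2 (by norm_num)
    have h2 : ‖((((2 : ℕ) : ℤ) - ((3 : ℕ) : ℤ) : ℤ) : ℂ)‖ = 1 := by norm_num
    rw [h2]
    linarith
  · rw [points l hl h2 h3, Complex.norm_intCast]
    have : Fact l.Prime := ⟨hl⟩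
    have hc : ringChar (ZMod l) ≠ 2 := by
      rw [ZMod.ringChar_zmod_n]; exact h2
    have h := W165.CE.hasse (k := ZMod l) hc ((-12987 : ℤ) : ZMod l) ((-263466 : ℤ) : ZMod l)
    rw [ZMod.card] at h
    exact_mod_cast h

theorem bad (l : ℕ) (hl : l.Prime) (h : l ∣ 15) : ‖(qExpansion 1 form15).coeff l‖ ≤ 1 := by
  obtain ⟨-, -, h4, -⟩ := facts
  obtain ⟨-, -, -, -, -, m3, m5, -, -⟩ := t_MIN
  have h1 : l = 3 ∨ l = 5 := by
    have h1 : l ∣ 3 * 5 := by simpa using h
    rcases (Nat.Prime.dvd_mul hl).1 h1 with h2 | h2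
    · exact Or.inl ((Nat.prime_dvd_prime_iff_eq hl Nat.prime_three).1 h2)
    · exact Or.inr ((Nat.prime_dvd_prime_iff_eq hl (by norm_num)).1 h2)
  rcases h1 with rfl | rfl
  · rw [h4 3 hl]
    unfold ap
    rw [m3]
    norm_num
  · rw [h4 5 hl]
    unfold ap
    rw [m5]
    norm_num

end Pool.Agent.H757_X15.Inst
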