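import Pool.Agent.H757_X15.MT.Inst15
import Pool.Agent.Y687.Lval

/-!
The twisted `L`-functions of `X_0(15)`: coefficients and Euler product.
-/

set_option autoImplicit false
set_option linter.style.haveILetI false

open Complex Filter Topology Set UpperHalfPlane MatrixGroups CongruenceSubgroup ZMod

namespace Pool.Agent.H757_X15

open Pool.Agent.W97.MT (affCount ap)
open Pool.Agent.W440.TW Pool.Agent.W108.TW

/-- the coefficients of the form -/
noncomputable def cc (n : ℕ) : ℂ := (qExpansion 1 form15).coeff n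

theorem cc_re (n : ℕ) : cc n = (((cc n).re : ℝ) : ℂ) := by
  obtain ⟨c, hc⟩ := Inst.facts.1 n
  unfold cc
  rw [hc]
  simp

theorem cc_zero : cc 0 = 0 := W388.coeff_zero form15

theorem cc_one : cc 1 = 1 := Inst.facts.2.1

theorem newf : ∃ w : ℝ, (w = 1 ∨ w = -1) ∧ W388.IsNewf 15 2 form15 w := by
  obtain ⟨w, hw, hfr⟩ := Inst.fricke
  refine ⟨w, hw, cc_one, ?_, fun m n h => Inst.mul m n h, ?_, hw, ?_⟩
  · intro n
    have := cc_re n
    change (cc n).im = 0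
    rw [this]
    simp
  · intro p j hp
    have h1 := Inst.pow p j hp
    rw [h1]
    norm_num
  · intro τ τ' h
    push_cast at h
    rw [hfr τ τ' h]
    congr 1
    have hI : Complex.I ^ 2 = -1 := Complex.I_sq
    have hsq : ((Real.sqrt ((15 : ℕ) : ℝ) : ℝ) : ℂ) ^ 2 = (15 : ℂ) := by
      have h1 : (Real.sqrt ((15 : ℕ) : ℝ)) ^ 2 = ((15 : ℕ) : ℝ) := Real.sq_sqrt (by positivity)
      have := congrArg (fun x : ℝ => (x : ℂ)) h1
      push_cast at this ⊢
      exact this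
    have : (((Real.sqrt ((15 : ℕ) : ℝ) : ℝ) : ℂ) * (τ : ℂ) / Complex.I) ^ (2 : ℤ) =
        -((15 : ℂ) * (τ : ℂ) ^ 2) := by
      rw [zpow_ofNat, div_pow, mul_pow, hsq, hI]
      ring
    rw [this]
    ring

theorem coef15 : Pool.Agent.W192.CY.Coef 15 (fun n => (cc n).re) := by
  have hnorm : ∀ n, |(cc n).re| = ‖cc n‖ := by
    intro n
    conv_rhs => rw [cc_re n, Complex.norm_real, Real.norm_eq_abs]
  refine ⟨?_, ?_, ?_, ?_, ?_, ?_⟩
  · rw [cc_zero]; simp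
  · rw [cc_one]; simp
  · intro m n hmn
    have h : cc (m * n) = cc m * cc n := Inst.mul m n hmn
    rw [cc_re, cc_re m, cc_re n] at h
    exact_mod_cast h
  · intro p j hp
    have h : cc (p ^ (j + 2)) = cc p * cc (p ^ (j + 1)) -
      (if p ∣ 15 then 0 else (p : ℂ) * cc (p ^ j)) := Inst.pow p j hp
    rw [cc_re, cc_re p, cc_re (p ^ (j + 1)), cc_re (p ^ j)] at h
    split_ifs at h ⊢ with hpN
    · rw [sub_zero] at h ⊢
      exact_mod_cast h
    · exact_mod_cast h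
  · intro p hp hpN
    rw [hnorm]
    exact Inst.good p hp (fun h3 => hpN (h3 ▸ by norm_num))
  · intro p hp hpN
    rw [hnorm]
    exact Inst.bad p hp hpN

theorem cc_bound (ε : ℝ) (hε : 0 < ε) : ∃ C : ℝ, 0 < C ∧
    ∀ n : ℕ, 1 ≤ n → ‖cc n‖ ≤ C * (n : ℝ) ^ (1 / 2 + ε) := by
  obtain ⟨m, hm⟩ := W612.CY.t_coef 15 _ coef15
  obtain ⟨C, hC, h1, -⟩ := Pool.Agent.W216.CY.t_div ε hε
  refine ⟨C, hC, fun n hn => ?_⟩
  have h2 := hm.cle n hn
  have h3 : ‖cc n‖ = |(cc n).re| := by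
    conv_lhs => rw [cc_re n, Complex.norm_real, Real.norm_eq_abs]
  rw [h3]
  have hn0 : (0 : ℝ) < n := by exact_mod_cast hn
  calc |(cc n).re| ≤ n.divisors.card * Real.sqrt n := h2
    _ ≤ (C * (n : ℝ) ^ ε) * Real.sqrt n := by gcongr; exact h1 n hn
    _ = C * (n : ℝ) ^ (1 / 2 + ε) := by
      rw [Real.sqrt_eq_rpow, mul_assoc, ← Real.rpow_add hn0]
      ring_nf

theorem cc_summable {q : ℕ} (χ : DirichletCharacter ℂ q) (s : ℂ) (hs : 3 / 2 < s.re) :
    Summable (fun n : ℕ => ‖cc n * χ n * (n : ℂ) ^ (-s)‖) := by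
  obtain ⟨C, hC, hb⟩ := cc_bound ((s.re - 3 / 2) / 2) (by linarith)
  have hs2 : Summable (fun n : ℕ => C * (n : ℝ) ^ (1 / 2 + (s.re - 3 / 2) / 2 - s.re)) :=
    (Real.summable_nat_rpow.mpr (by linarith)).mul_left C
  refine Summable.of_nonneg_of_le (fun n => norm_nonneg _) (fun n => ?_) hs2
  rcases Nat.eq_zero_or_pos n with hn | hn
  · subst hn
    rw [cc_zero]
    simp only [zero_mul, norm_zero]
    positivity
  · have hnpos : (0 : ℝ) < n := by exact_mod_cast hn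
    rw [norm_mul, norm_mul]
    have h2 : ‖χ n‖ ≤ 1 := DirichletCharacter.norm_le_one χ _
    have h3 : ‖(n : ℂ) ^ (-s)‖ = (n : ℝ) ^ (-s.re) := by
      rw [← Complex.ofReal_natCast, Complex.norm_cpow_eq_rpow_re_of_pos hnpos]
      simp
    rw [h3]
    have hCn : 0 ≤ C * (n : ℝ) ^ (1 / 2 + (s.re - 3 / 2) / 2) := by positivity
    calc ‖cc n‖ * ‖χ n‖ * (n : ℝ) ^ (-s.re)
        ≤ (C * (n : ℝ) ^ (1 / 2 + (s.re - 3 / 2) / 2)) * 1 * (n : ℝ) ^ (-s.re) := by
          gcongr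
          exact hb n hn
      _ = C * (n : ℝ) ^ (1 / 2 + (s.re - 3 / 2) / 2 - s.re) := by
          rw [mul_one, mul_assoc, ← Real.rpow_add hnpos]
          ring_nf

theorem cc_euler {q : ℕ} (χ : DirichletCharacter ℂ q) (s : ℂ) (hs : 3 / 2 < s.re) :
    HasProd (fun p : Nat.Primes =>
      (1 - (ap E15 p : ℂ) * χ p * (p : ℂ) ^ (-s) +
        (if (p : ℕ) ∣ 15 then 0 else (p : ℂ)) * (χ p) ^ 2 * (p : ℂ) ^ (-2 * s))⁻¹)
      (∑' n : ℕ, cc n * χ n * (n : ℂ) ^ (-s)) := by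
  have h := Pool.Agent.Y687.euler_prod (fun p => if (p : ℕ) ∣ 15 then 0 else (p : ℂ)) cc cc_zero cc_one
    (fun m n hmn => Inst.mul m n hmn) (fun p j => ?_) χ s (cc_summable χ s hs)
  · refine (congrArg (fun g => HasProd g _) (funext fun p => ?_)).mp h
    have h2 : cc p = (ap E15 p : ℂ) := Inst.facts.2.2.1 p p.2
    rw [h2]
  · have h1 : cc ((p : ℕ) ^ (j + 2)) = cc p * cc ((p : ℕ) ^ (j + 1)) -
      (if (p : ℕ) ∣ 15 then 0 else (p : ℂ) * cc ((p : ℕ) ^ j)) := Inst.pow p j p.2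
    rw [h1]
    split_ifs <;> ring

end Pool.Agent.H757_X15
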